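import Mathlib

/-! # The dimension count behind Bertini's theorem -/

open MvPolynomial

namespace Pool.Agent.Work.MP_ffcd14_ag

set_option linter.unusedSectionVars false

universe u

variable {k : Type u} [Field k]

theorem der_aeval {F K M V : Type*} [Field F] [Field K] [Algebra k F] [Algebra k K] [Algebra F K]
    [IsScalarTower k F K] [AddCommGroup M] [Module F M] [Module K M] [Fintype V]
    (D : Derivation F K M) (x : V → K) (p : MvPolynomial V k) :
    D (aeval x p) = ∑ s, aeval x (pderiv s p) • D (x s) := by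
  classical
  induction p using MvPolynomial.induction_on with
  | C a => simp [IsScalarTower.algebraMap_apply k F K]
  | add p q hp hq => simp [hp, hq, add_smul, Finset.sum_add_distrib]
  | mul_X p t h =>
    simp only [map_mul, aeval_X, Derivation.leibniz, h, smul_eq_mul, map_add, pderiv_X, add_smul,
      Finset.sum_add_distrib, Finset.smul_sum, mul_smul]
    congr 1
    rw [Finset.sum_eq_single t]
    · simp
    · intro s _ hs; simp [hs.symm]
    · simp

theorem eq_zero_of_det {K M κ : Type*} [Field K] [AddCommGroup M] [Module K M] [Fintype κ]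
    [DecidableEq κ] (J : Matrix κ κ K) (hJ : J.det ≠ 0) (v : κ → M)
    (h : ∀ i, ∑ j, J i j • v j = 0) (j : κ) : v j = 0 := by
  rw [← Module.forall_dual_apply_eq_zero_iff K]
  intro φ
  have : J.mulVec (fun j => φ (v j)) = 0 := by
    funext i
    simpa [Matrix.mulVec, dotProduct] using congrArg φ (h i)
  exact congrFun (Matrix.eq_zero_of_mulVec_eq_zero hJ this) j

variable {V T κ β : Type} [Fintype V] [Fintype T] [Fintype κ] [Fintype β] [DecidableEq κ]
  [DecidableEq β] (ch : V → Prop) [DecidablePred ch] (fs : κ → MvPolynomial V k)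
  (m : T → MvPolynomial V k)

/-- The equations saying that the normalised point `x` is a singular point of the section with
parameters `t`. -/
noncomputable def rel {A : Type*} [CommRing A] [Algebra k A] (t : T → A) (x : V → A) (l : κ → A) :
    V ⊕ κ ⊕ Option V → A
  | Sum.inl s => if ch s then x s - 1 else 0
  | Sum.inr (Sum.inl j) => aeval x (fs j)
  | Sum.inr (Sum.inr none) => ∑ τ, t τ * aeval x (m τ)
  | Sum.inr (Sum.inr (some s)) => if ch s then 0 else
      ∑ τ, t τ * aeval x (pderiv s (m τ)) - ∑ j, l j * aeval x (pderiv s (fs j))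

theorem rel_map {A A' : Type*} [CommRing A] [Algebra k A] [CommRing A'] [Algebra k A']
    (φ : A →ₐ[k] A') (t : T → A) (x : V → A) (l : κ → A) (r : V ⊕ κ ⊕ Option V) :
    φ (rel ch fs m t x l r) = rel ch fs m (φ ∘ t) (φ ∘ x) (φ ∘ l) r := by
  have h : ∀ p : MvPolynomial V k, φ (aeval x p) = aeval (φ ∘ x) p := fun p => by
    rw [← AlgHom.comp_apply, comp_aeval]; rfl
  rcases r with s | j | _ | s
  · simp only [rel]; split_ifs <;> simp
  · exact h _
  · simp [rel, h]
  · simp only [rel]; split_ifs <;> simp [h]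

/-- The Jacobian minor. -/
noncomputable def jac (col : κ → V) : MvPolynomial V k :=
  (Matrix.of fun j j' => pderiv (col j') (fs j)).det

theorem aeval_jac {A : Type*} [CommRing A] [Algebra k A] (col : κ → V) (x : V → A) :
    aeval x (jac fs col) = (Matrix.of fun j j' => aeval x (pderiv (col j') (fs j))).det := by
  rw [jac, AlgHom.map_det]; rfl

/-- The special members of the linear system. -/
structure Special (col : κ → V) (fr : β → V) (sp : Option β → T) : Prop where
  col_inj : Function.Injective col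
  sp_inj : Function.Injective sp
  cover : ∀ s, ch s ∨ (∃ j, col j = s) ∨ ∃ b, fr b = s
  col_ch : ∀ j, ¬ ch (col j)
  fr_ch : ∀ b, ¬ ch (fr b)
  val : ∀ {K : Type u} [Field K] [Algebra k K] (x : V → K), (∀ s, ch s → x s = 1) →
    aeval x (m (sp none)) = 1 ∧ (∀ o j, aeval x (pderiv (col j) (m (sp o))) = 0) ∧
      ∀ o b, aeval x (pderiv (fr b) (m (sp o))) = if o = some b then 1 else 0

variable {ch m}

theorem not_algInd {col : κ → V} {fr : β → V} {sp : Option β → T} (H : Special ch m col fr sp)
    {K : Type u} [Field K] [Algebra k K] [Algebra.EssFiniteType k K] (t : T → K) (x : V → K)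
    (l : κ → K) (hrel : ∀ r, rel ch fs m t x l r = 0) (hjac : aeval x (jac fs col) ≠ 0)
    (hgen : ∀ z : K, ∃ p q : MvPolynomial (T ⊕ V ⊕ κ) k,
      z = aeval (Sum.elim t (Sum.elim x l)) p / aeval (Sum.elim t (Sum.elim x l)) q) :
    ¬ AlgebraicIndependent k t := by
  classical
  intro hind
  let g : β ⊕ {τ // τ ∉ Set.range sp} → K := Sum.elim (x ∘ fr) (fun τ => t τ.1)
  let F := IntermediateField.adjoin k (Set.range g)
  let D := KaehlerDifferential.D F K
  have hF : ∀ a, D (g a) = 0 := fun a =>
    D.map_algebraMap ⟨g a, IntermediateField.subset_adjoin k _ ⟨a, rfl⟩⟩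
  have hch : ∀ s, ch s → x s = 1 := fun s hs => by
    have := hrel (Sum.inl s)
    simp only [rel, if_pos hs] at this
    exact sub_eq_zero.mp this
  obtain ⟨h1, h2, h3⟩ := H.val x hch
  rw [aeval_jac] at hjac
  have hx : ∀ s, D (x s) = 0 := by
    have hnc : ∀ s, s ∉ Finset.univ.image col → D (x s) = 0 := by
      intro s hs
      rcases H.cover s with h | ⟨j, rfl⟩ | ⟨b, rfl⟩
      · rw [hch s h]; exact D.map_one_eq_zero
      · simp at hs
      · exact hF (Sum.inl b)
    have hc := eq_zero_of_det _ hjac (fun j => D (x (col j))) fun j => by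
      have h0 : aeval x (fs j) = 0 := hrel (Sum.inr (Sum.inl j))
      have := der_aeval (k := k) D x (fs j)
      rw [h0, map_zero, ← Finset.sum_subset (Finset.subset_univ (Finset.univ.image col))
        (fun s _ hs => by rw [hnc s hs, smul_zero]),
        Finset.sum_image fun a _ b _ h => H.col_inj h] at this
      exact this.symm
    intro s
    by_cases hs : s ∈ Finset.univ.image col
    · obtain ⟨j, -, rfl⟩ := Finset.mem_image.mp hs
      exact hc j
    · exact hnc s hs
  have hp : ∀ p : MvPolynomial V k, D (aeval x p) = 0 := fun p => by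
    simp [der_aeval (k := k) D x p, hx]
  have hsum : ∀ q : T → MvPolynomial V k, D (∑ τ, t τ * aeval x (q τ)) =
      ∑ o, aeval x (q (sp o)) • D (t (sp o)) := by
    intro q
    simp only [map_sum, Derivation.leibniz, hp, smul_zero, zero_add]
    rw [← Finset.sum_subset (Finset.subset_univ (Finset.univ.image sp))
        (fun τ _ hτ => by
          rw [show D (t τ) = 0 from hF (Sum.inr ⟨τ, by simpa using hτ⟩), smul_zero]),
        Finset.sum_image fun a _ b _ h => H.sp_inj h]
  have heq : ∀ s, ¬ ch s → ∑ o, aeval x (pderiv s (m (sp o))) • D (t (sp o)) =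
      ∑ j, aeval x (pderiv s (fs j)) • D (l j) := by
    intro s hs
    have := hrel (Sum.inr (Sum.inr (some s)))
    simp only [rel, if_neg hs] at this
    rw [← hsum fun τ => pderiv s (m τ), sub_eq_zero.mp this]
    simp only [map_sum, Derivation.leibniz, hp, smul_zero, zero_add]
  have hl : ∀ j, D (l j) = 0 :=
    eq_zero_of_det _ (by rwa [← Matrix.det_transpose] at hjac) (fun j => D (l j)) fun j => by
      have := heq _ (H.col_ch j)
      simp only [h2, zero_smul, Finset.sum_const_zero] at this
      exact this.symm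
  have hs : ∀ b, D (t (sp (some b))) = 0 := fun b => by
    simpa [h3, hl] using heq _ (H.fr_ch b)
  have hn : D (t (sp none)) = 0 := by
    have h0 : ∑ τ, t τ * aeval x (m τ) = 0 := hrel (Sum.inr (Sum.inr none))
    have := hsum m
    rw [h0, map_zero] at this
    simpa [h1, hs] using this.symm
  have ht : ∀ τ, D (t τ) = 0 := fun τ => by
    by_cases h : τ ∈ Set.range sp
    · obtain ⟨_ | b, rfl⟩ := h
      exacts [hn, hs b]
    · exact hF (Sum.inr ⟨τ, h⟩)
  have hall : ∀ p : MvPolynomial (T ⊕ V ⊕ κ) k,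
      D (aeval (Sum.elim t (Sum.elim x l)) p) = 0 := fun p => by
    rw [der_aeval (k := k)]
    refine Finset.sum_eq_zero fun a _ => ?_
    rcases a with τ | s | j <;> simp [ht, hx, hl]
  have hD : ∀ z, D z = 0 := fun z => by
    obtain ⟨p, q, rfl⟩ := hgen z
    rw [Derivation.leibniz_div, hall, hall]; simp
  have : Algebra.FormallyUnramified F K := by
    rw [Algebra.formallyUnramified_iff]
    refine subsingleton_of_forall_eq 0 fun ω => ?_
    have hω : ω ∈ Submodule.span K (Set.range D) := by
      rw [KaehlerDifferential.span_range_derivation]; trivial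
    rwa [Submodule.span_eq_bot.mpr (by rintro _ ⟨z, rfl⟩; exact hD z), Submodule.mem_bot] at hω
  have : Algebra.EssFiniteType F K := Algebra.EssFiniteType.of_comp k F K
  have : Algebra.IsSeparable F K := Algebra.FormallyUnramified.isSeparable F K
  have : Algebra.IsAlgebraic (Algebra.adjoin k (Set.range g)) K :=
    IntermediateField.isAlgebraic_adjoin_iff_top.mp inferInstance
  have e1 := Algebra.IsAlgebraic.trdeg_le_cardinalMk k (Set.range g)
  have e2 := hind.lift_cardinalMk_le_trdeg
  have e3 := Cardinal.mk_range_le_lift (f := g)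
  have e4 := e2.trans ((Cardinal.lift_le.mpr e1).trans e3)
  simp only [Cardinal.mk_fintype, Cardinal.lift_natCast, Nat.cast_le, Fintype.card_sum,
    Fintype.card_subtype_compl] at e4
  have e5 : Fintype.card {τ // τ ∈ Set.range sp} = Fintype.card β + 1 := by
    rw [← Fintype.card_option]
    exact Set.card_range_of_injective H.sp_inj
  have e6 := Fintype.card_subtype_le fun τ => τ ∈ Set.range sp
  omega

theorem elim {col : κ → V} {fr : β → V} {sp : Option β → T} (H : Special ch m col fr sp) :
    ∃ p : MvPolynomial T k, p ≠ 0 ∧ ∀ (t : T → k) (x : V → k) (l : κ → k),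
      (∀ r, rel ch fs m t x l r = 0) → aeval x (jac fs col) ≠ 0 → eval t p = 0 := by
  classical
  let R := MvPolynomial (T ⊕ V ⊕ κ) k
  let I : Ideal R := Ideal.span (Set.range (rel ch fs m (fun τ => (X (Sum.inl τ) : R))
    (fun s => X (Sum.inr (Sum.inl s))) (fun j => X (Sum.inr (Sum.inr j)))))
  let δ : R := aeval (fun s => (X (Sum.inr (Sum.inl s)) : R)) (jac fs col)
  let ι : MvPolynomial T k →ₐ[k] R := aeval fun τ => X (Sum.inl τ)
  let S : Submonoid R := (nonZeroDivisors (MvPolynomial T k)).map ι ⊔ Submonoid.powers δ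
  have hδ : ∀ {A : Type u} [CommRing A] [Algebra k A] (φ : R →ₐ[k] A),
      φ δ = aeval (fun s => φ (X (Sum.inr (Sum.inl s)))) (jac fs col) := fun φ => by
    rw [← AlgHom.comp_apply, comp_aeval]
  have hι : ∀ {A : Type u} [CommRing A] [Algebra k A] (φ : R →ₐ[k] A) p,
      φ (ι p) = aeval (fun τ => φ (X (Sum.inl τ))) p := fun φ p => by
    rw [← AlgHom.comp_apply, comp_aeval]
  by_cases hd : Disjoint (I : Set R) S
  · exfalso
    obtain ⟨𝔭, h𝔭, hI, hS⟩ := Ideal.exists_le_prime_disjoint I S hd
    let K := FractionRing (R ⧸ 𝔭)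
    let φ : R →ₐ[k] K := (IsScalarTower.toAlgHom k (R ⧸ 𝔭) K).comp (Ideal.Quotient.mkₐ k 𝔭)
    have hker : ∀ z, φ z = 0 ↔ z ∈ 𝔭 := fun z => by
      simp [φ, Ideal.Quotient.eq_zero_iff_mem]
    have : Algebra.EssFiniteType k K := Algebra.EssFiniteType.comp k (R ⧸ 𝔭) K
    refine not_algInd fs H (K := K) (fun τ => φ (X (Sum.inl τ)))
      (fun s => φ (X (Sum.inr (Sum.inl s)))) (fun j => φ (X (Sum.inr (Sum.inr j))))
      (fun r => ?_) ?_ (fun z => ?_) ?_
    · exact (rel_map ch fs m φ _ _ _ r).symm.trans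
        ((hker _).mpr (hI (Ideal.subset_span ⟨r, rfl⟩)))
    · rw [← hδ, Ne, hker]
      exact fun h => Set.disjoint_left.mp hS h (Submonoid.mem_sup_right ⟨1, pow_one _⟩)
    · have hφ : (aeval (Sum.elim (fun τ => φ (X (Sum.inl τ))) (Sum.elim
          (fun s => φ (X (Sum.inr (Sum.inl s)))) fun j => φ (X (Sum.inr (Sum.inr j))))) :
          R →ₐ[k] K) = φ := by
        refine MvPolynomial.algHom_ext fun a => ?_
        rcases a with τ | s | j <;> simp
      obtain ⟨a, b, -, rfl⟩ := IsFractionRing.div_surjective (A := R ⧸ 𝔭) z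
      obtain ⟨p, rfl⟩ := Ideal.Quotient.mk_surjective a
      obtain ⟨q, rfl⟩ := Ideal.Quotient.mk_surjective b
      exact ⟨p, q, by rw [hφ]; rfl⟩
    · rw [algebraicIndependent_iff]
      intro p hp
      by_contra hp0
      rw [← hι, hker] at hp
      exact Set.disjoint_left.mp hS hp
        (Submonoid.mem_sup_left ⟨p, mem_nonZeroDivisors_of_ne_zero hp0, rfl⟩)
  · obtain ⟨z, hzI, hzS⟩ := Set.not_disjoint_iff.mp hd
    obtain ⟨_, ⟨p, hp, rfl⟩, _, ⟨n, rfl⟩, rfl⟩ := Submonoid.mem_sup.mp hzS
    refine ⟨p, nonZeroDivisors.ne_zero hp, fun t x l hrel hjac => ?_⟩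
    let φ : R →ₐ[k] k := aeval (Sum.elim t (Sum.elim x l))
    have hle : I ≤ RingHom.ker φ := by
      rw [Ideal.span_le]
      rintro _ ⟨r, rfl⟩
      have := rel_map ch fs m φ (fun τ => (X (Sum.inl τ) : R))
        (fun s => X (Sum.inr (Sum.inl s))) (fun j => X (Sum.inr (Sum.inr j))) r
      rw [SetLike.mem_coe, RingHom.mem_ker, this, ← hrel r]
      congr 1 <;> funext a <;> simp [φ, R]
    have h0 : φ (ι p * δ ^ n) = 0 := hle hzI
    rw [map_mul, map_pow, hδ, hι] at h0
    simp only [φ, R, aeval_X, Sum.elim_inl, Sum.elim_inr] at h0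
    exact (mul_eq_zero.mp h0).resolve_right (pow_ne_zero _ hjac)

end Pool.Agent.Work.MP_ffcd14_ag
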