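import Pool.Agent.Work.MP_ffcd14_ag.Forms
import Pool.Agent.Work.MP_ffcd14_ag.Elim

/-! # Bertini's theorem -/

open MvPolynomial Topology Filter

namespace Pool.Agent.Work.MP_ffcd14_ag

universe u

variable {k : Type u} [Field k] {P Q : Amb}

theorem pderiv_rename_of_notMem {σ τ : Type*} (φ : σ → τ) {s : τ} (hs : s ∉ Set.range φ)
    (p : MvPolynomial σ k) : pderiv s (rename φ p) = 0 := by
  induction p using MvPolynomial.induction_on with
  | C a => simp
  | add p q hp hq => simp [hp, hq]
  | mul_X p t h =>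
    simp [h, pderiv_X_of_ne (show φ t ≠ s from fun h => hs ⟨t, h⟩)]

theorem exists_col {V κ : Type} [Fintype κ] [DecidableEq κ] (v : κ → V → k) (NC : V → Prop)
    (h : ∀ l : κ → k, (∀ s, NC s → ∑ j, l j * v j s = 0) → l = 0) :
    ∃ col : κ → V, Function.Injective col ∧ (∀ j, NC (col j)) ∧
      (Matrix.of fun j j' => v j (col j')).det ≠ 0 := by
  let c : {s // NC s} → κ → k := fun s j => v j s.1
  have hspan : Submodule.span k (Set.range c) = ⊤ := by
    by_contra hne
    obtain ⟨φ, hφ0, hφ⟩ := Submodule.exists_le_ker_of_lt_top _ (lt_top_iff_ne_top.mpr hne)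
    apply hφ0
    have := h (fun j => φ (Pi.single j 1)) fun s hs => by
      have h1 : φ (c ⟨s, hs⟩) = 0 := hφ (Submodule.subset_span ⟨_, rfl⟩)
      rw [LinearMap.pi_apply_eq_sum_univ] at h1
      rw [← h1]
      refine Finset.sum_congr rfl fun j _ => ?_
      rw [mul_comm, smul_eq_mul]
      congr 2
      funext j'
      simp [Pi.single_apply, eq_comm]
    ext j
    simpa using congrFun this j
  obtain ⟨κ', a, ha, hsp, hli⟩ := exists_linearIndependent' k c
  let b := Module.Basis.mk hli (by rw [hsp, hspan])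
  let e : κ' ≃ κ := b.indexEquiv (Pi.basisFun k κ)
  refine ⟨fun j => (a (e.symm j)).1, Subtype.val_injective.comp (ha.comp e.symm.injective),
    fun j => (a (e.symm j)).2, ?_⟩
  have : LinearIndependent k (Matrix.of fun j j' => v j (a (e.symm j')).1).col :=
    hli.comp _ e.symm.injective
  exact ((Matrix.isUnit_iff_isUnit_det _).mp
    (Matrix.linearIndependent_cols_iff_isUnit.mp this)).ne_zero

/-- A monomial in chosen coordinates. -/
noncomputable def mono (ς : ∀ i, P.σ i) (b : P.ι →₀ ℕ) : MvPolynomial P.V k :=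
  rename (fun i => (⟨i, ς i⟩ : P.V)) (monomial b 1)

theorem mono_form (ς : ∀ i, P.σ i) (b : P.ι →₀ ℕ) : IsForm (mono ς b : MvPolynomial P.V k) b := by
  rw [mono, rename_eq_aeval]
  refine wh_aeval (w := fun i => Finsupp.single i 1) (AddMonoidHom.id _) _
    (fun i => IsForm.X (⟨i, ς i⟩ : P.V)) (isWeightedHomogeneous_monomial _ _ _ ?_)
  simp [Finsupp.weight_apply]

theorem aeval_mono {K : Type*} [CommRing K] [Algebra k K] (ς : ∀ i, P.σ i) (b : P.ι →₀ ℕ)
    (x : P.V → K) (hx : ∀ i, x ⟨i, ς i⟩ = 1) : aeval x (mono ς b : MvPolynomial P.V k) = 1 := by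
  simp [mono, aeval_rename, aeval_monomial, hx, Finsupp.prod]

/-- The linear system used for Bertini's theorem. -/
noncomputable def sys (a : P.ι →₀ ℕ) : (∀ i, P.σ i) × Option P.V → MvPolynomial P.V k
  | (ς, none) => mono ς a
  | (ς, some s) => X s * mono ς (a - Finsupp.single s.1 1)

theorem sys_form {a : P.ι →₀ ℕ} (ha : ∀ i, 0 < a i) (τ : (∀ i, P.σ i) × Option P.V) :
    IsForm (sys a τ : MvPolynomial P.V k) a := by
  rcases τ with ⟨ς, _ | s⟩
  · exact mono_form ς a
  · have := (IsForm.X (k := k) s).mul (mono_form ς (a - Finsupp.single s.1 1))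
    rwa [add_tsub_cancel_of_le (Finsupp.single_le_iff.mpr (ha s.1))] at this

theorem chart [Fintype ((∀ i, P.σ i) × Option P.V)] (X : Var k P) {a : P.ι →₀ ℕ}
    (ha : ∀ i, 0 < a i) (x : P.Pt k) (hx : x ∈ X.pts) :
    ∃ (G : MvPolynomial P.V k) (p : MvPolynomial ((∀ i, P.σ i) × Option P.V) k),
      ev x G ≠ 0 ∧ p ≠ 0 ∧ ∀ t, eval t p ≠ 0 → ∀ y ∈ X.pts, ev y G ≠ 0 →
        ev y (∑ τ, C (t τ) * sys a τ) = 0 → ∃ (κ : Type) (g : κ → MvPolynomial P.V k),
          Nat.card κ + X.dim + Nat.card P.ι = Nat.card P.V ∧ LocEq X.pts y g ∧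
          LinearIndependent k fun (o : Option κ) (s : P.V) =>
            ev y (pderiv s (o.elim (∑ τ, C (t τ) * sys a τ) g)) := by
  classical
  obtain ⟨κ, fs, hc, hL⟩ := X.smooth x hx
  have := hL.finite
  let _ := Fintype.ofFinite κ
  let _ := Fintype.ofFinite P.V
  let _ := Fintype.ofFinite P.ι
  choose deg hdeg using hL.1
  obtain ⟨g, b, hg, hgx, hgy⟩ := eventually_iff_form.mp hL.2.1
  have hς : ∀ i, ∃ s, (x i).rep s ≠ 0 := fun i => Function.ne_iff.mp (x i).rep_nonzero
  choose ς hς using hς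
  let ch : P.V → Prop := fun s => s ∈ Set.range fun i => (⟨i, ς i⟩ : P.V)
  obtain ⟨col, hinj, hcol, hdet⟩ := exists_col (fun j s => ev x (pderiv s (fs j))) (fun s => ¬ ch s)
    fun l hl => by
      refine funext (Fintype.linearIndependent_iff.mp hL.2.2 l (funext fun s => ?_))
      simp only [Finset.sum_apply, Pi.smul_apply, smul_eq_mul, Pi.zero_apply]
      by_cases hs : ch s
      · obtain ⟨i, rfl⟩ := hs
        have h1 : ∑ s : P.V, (if s.1 = i then
            rp x s * ∑ j, l j * ev x (pderiv s (fs j)) else 0) = 0 := by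
          have : ∀ j, l j * ∑ s : P.V, (if s.1 = i then
              rp x s * eval (rp x) (pderiv s (fs j)) else 0) = 0 := fun j => by
            rw [(hdeg j).euler, ← ev_eq, hL.ev_eq_zero hx]; simp
          refine Eq.trans ?_ (Finset.sum_eq_zero (s := Finset.univ) fun j _ => this j)
          simp only [Finset.mul_sum]
          rw [Finset.sum_comm]
          refine Finset.sum_congr rfl fun s _ => ?_
          split_ifs
          · exact Finset.sum_congr rfl fun j _ => by rw [ev_eq]; ring
          · simp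
        rw [Finset.sum_eq_single (⟨i, ς i⟩ : P.V) _ (by simp), if_pos rfl] at h1
        · exact (mul_eq_zero.mp h1).resolve_left (hς i)
        · intro s _ hs
          split_ifs with hsi
          · rw [hl s, mul_zero]
            rintro ⟨i', rfl⟩
            subst hsi
            exact hs rfl
          · rfl
      · exact hl s hs
  let β := {s : P.V // ¬ ch s ∧ s ∉ Set.range col}
  have hsp : Special ch (sys (k := k) a) col (Subtype.val : β → P.V)
      (fun o => (ς, o.map Subtype.val)) := by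
    refine ⟨hinj, fun o o' h => Option.map_injective Subtype.val_injective (Prod.mk.inj h).2,
      fun s => ?_, hcol, fun b => b.2.1, fun x hx => ?_⟩
    · by_cases h1 : ch s
      · exact Or.inl h1
      · by_cases h2 : s ∈ Set.range col
        · exact Or.inr (Or.inl h2)
        · exact Or.inr (Or.inr ⟨⟨s, h1, h2⟩, rfl⟩)
    · have h1 : ∀ b, aeval x (mono ς b : MvPolynomial P.V k) = 1 :=
        fun b => aeval_mono ς b x fun i => hx _ ⟨i, rfl⟩
      have h2 : ∀ s b, ¬ ch s → pderiv s (mono ς b : MvPolynomial P.V k) = 0 :=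
        fun s b hs => pderiv_rename_of_notMem _ hs _
      refine ⟨h1 _, ?_, ?_⟩
      · rintro (_ | b) j
        · simp [sys, h2 _ _ (hcol j)]
        · have : b.1 ≠ col j := fun h => b.2.2 ⟨j, h.symm⟩
          simp [sys, h2 _ _ (hcol j), pderiv_X_of_ne this]
      · rintro (_ | b) b'
        · simp [sys, h2 _ _ b'.2.1]
        · by_cases hb : b = b'
          · subst hb; simp [sys, h2 _ _ b.2.1, h1]
          · simp [sys, h2 _ _ b'.2.1, hb, pderiv_X_of_ne (Subtype.val_injective.ne hb)]
  obtain ⟨p, hp0, hp⟩ := elim fs hsp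
  have hj : ∀ v : P.V → k, eval v (jac fs col) =
      (Matrix.of fun j j' => eval v (pderiv (col j') (fs j))).det := fun v => aeval_jac fs col v
  refine ⟨g * jac fs col * ∏ i, MvPolynomial.X ⟨i, ς i⟩, p, ?_, hp0,
    fun t ht y hy hG hf => ⟨κ, fs, hc, ?_⟩⟩
  · rw [ev_mul, ev_mul]
    refine mul_ne_zero (mul_ne_zero hgx (by rw [ev_eq, hj]; exact hdet)) ?_
    rw [ev_eq, map_prod]
    exact Finset.prod_ne_zero_iff.mpr fun i _ => by simpa [rp] using hς i
  · rw [ev_mul, ev_mul, mul_ne_zero_iff, mul_ne_zero_iff, ev_eq y (jac _ _), hj, ev_eq y (∏ i, _),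
      map_prod, Finset.prod_ne_zero_iff] at hG
    obtain ⟨⟨hG1, hG2⟩, hG3⟩ := hG
    replace hG3 : ∀ i, rp y ⟨i, ς i⟩ ≠ 0 := fun i => by simpa using hG3 i (Finset.mem_univ i)
    have hli : LinearIndependent k fun j (s : P.V) => ev y (pderiv s (fs j)) := by
      rw [Fintype.linearIndependent_iff]
      intro l hl
      refine congrFun (Matrix.eq_zero_of_vecMul_eq_zero hG2 (funext fun j' => ?_))
      simpa [Matrix.vecMul, dotProduct, ev_eq] using congrFun hl (col j')
    have hLy : LocEq X.pts y fs := ⟨hL.1, eventually_iff_form.mpr ⟨g, b, hg, hG1, hgy⟩, hli⟩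
    refine ⟨hLy, linearIndependent_option.mpr ⟨hli, fun hmem => ht ?_⟩⟩
    obtain ⟨l, hl⟩ := (Submodule.mem_span_range_iff_exists_fun k).mp hmem
    set f := ∑ τ, C (t τ) * sys a τ with hfdef
    have hff : IsForm f a := IsWeightedHomogeneous.sum _ _ _ fun τ _ => (sys_form ha τ).C_mul _
    let μ : P.ι → k := fun i => (rp y ⟨i, ς i⟩)⁻¹
    have hμ : ∀ i, μ i ≠ 0 := fun i => inv_ne_zero (hG3 i)
    have hae : ∀ (v : P.V → k) q, aeval v q = eval v q := fun _ _ => rfl
    refine hp t (fun s => μ s.1 * rp y s) (fun j => chi μ a * l j / chi μ (deg j)) ?_ ?_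
    · rintro (s | j | _ | s)
      · simp only [rel]
        split_ifs with hs
        · obtain ⟨i, rfl⟩ := hs
          rw [sub_eq_zero]; exact inv_mul_cancel₀ (hG3 i)
        · rfl
      · simp only [rel, hae]
        rw [(hdeg j).eval_scale, ← ev_eq, hLy.ev_eq_zero hy, mul_zero]
      · have := hff.eval_scale μ (rp y)
        rw [← ev_eq, hf, mul_zero, hfdef] at this
        simpa [rel, hae] using this
      · simp only [rel, hae]
        split_ifs with hs
        · rfl
        · have h1 := hff.eval_scale_pderiv μ (rp y) s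
          have h2 : eval (rp y) (pderiv s f) = ∑ j, l j * eval (rp y) (pderiv s (fs j)) := by
            simpa [ev_eq] using (congrFun hl s).symm
          have h3 : eval (fun s => μ s.1 * rp y s) (pderiv s f) =
              ∑ τ, t τ * eval (fun s => μ s.1 * rp y s) (pderiv s (sys a τ)) := by
            simp [hfdef]
          rw [sub_eq_zero, ← h3]
          apply mul_left_cancel₀ (hμ s.1)
          rw [h1, h2, Finset.mul_sum, Finset.mul_sum]
          refine Finset.sum_congr rfl fun j _ => ?_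
          have h4 := (hdeg j).eval_scale_pderiv μ (rp y) s
          have h5 := chi_ne_zero hμ (deg j)
          field_simp
          linear_combination (-(chi μ a * l j)) * h4
    · rw [hae, hj]
      intro h0
      have h1 : (Matrix.of fun j j' => μ (col j').1 * (Matrix.of fun j j' =>
          eval (fun s => μ s.1 * rp y s) (pderiv (col j') (fs j))) j j') =
          Matrix.of fun j j' => chi μ (deg j) *
            (Matrix.of fun j j' => eval (rp y) (pderiv (col j') (fs j))) j j' := by
        ext j j'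
        exact (hdeg j).eval_scale_pderiv μ (rp y) _
      have h2 := congrArg Matrix.det h1
      rw [Matrix.det_mul_row, Matrix.det_mul_column, h0, mul_zero] at h2
      exact mul_ne_zero (Finset.prod_ne_zero_iff.mpr fun j _ => chi_ne_zero hμ _) hG2 h2.symm

/-- Bertini's theorem. -/
theorem bertini [Infinite k] (X : Var k P) {d : ℕ} (hd : d + 1 = X.dim) {a : P.ι →₀ ℕ}
    (ha : ∀ i, 0 < a i) : ∃ W : Var k P, IsSec0 W X a := by
  classical
  let _ := Fintype.ofFinite ((∀ i, P.σ i) × Option P.V)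
  choose G p hG hp H using fun x : X.pts => chart X ha x.1 x.2
  obtain ⟨s, hs, hsp⟩ := (Submodule.fg_span_iff_fg_span_finset_subset (Set.range G)).mp
    (IsNoetherian.noetherian (Submodule.span (MvPolynomial P.V k) (Set.range G)))
  choose z hz using fun q : s => hs q.2
  obtain ⟨t, ht⟩ : ∃ t, eval t (∏ q, p (z q)) ≠ 0 := by
    by_contra h
    push Not at h
    exact Finset.prod_ne_zero_iff.mpr (fun q _ => hp (z q))
      (MvPolynomial.funext fun t => by rw [h t, map_zero])
  rw [map_prod, Finset.prod_ne_zero_iff] at ht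
  set f := ∑ τ, C (t τ) * sys a τ with hfdef
  have hff : IsForm f a := IsWeightedHomogeneous.sum _ _ _ fun τ _ => (sys_form ha τ).C_mul _
  have key : ∀ y ∈ {x ∈ X.pts | ev x f = 0}, ∃ (κ : Type) (g : κ → MvPolynomial P.V k),
      Nat.card κ + X.dim + Nat.card P.ι = Nat.card P.V ∧ LocEq X.pts y g ∧
        LocEq {x ∈ X.pts | ev x f = 0} y fun o : Option κ => o.elim f g := by
    rintro y ⟨hy, hf⟩
    obtain ⟨q, hq⟩ : ∃ q, ev y (G (z q)) ≠ 0 := by
      by_contra h
      push Not at h
      have h1 : G ⟨y, hy⟩ ∈ Submodule.span (MvPolynomial P.V k) (s : Set _) :=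
        hsp ▸ Submodule.subset_span ⟨_, rfl⟩
      have h2 : Submodule.span (MvPolynomial P.V k) (s : Set _) ≤ RingHom.ker (eval (rp y)) :=
        Submodule.span_le.mpr fun q hq => by simpa [hz, ev_eq] using h ⟨q, hq⟩
      exact hG ⟨y, hy⟩ (h2 h1)
    obtain ⟨κ, g, hc, hL, hli⟩ := H (z q) t (ht q (Finset.mem_univ q)) y hy hq hf
    refine ⟨κ, g, hc, hL, ?_, ?_, hli⟩
    · rintro (_ | j)
      exacts [⟨a, hff⟩, hL.1 j]
    · filter_upwards [hL.2.1] with w hw
      simp only [hw, Option.forall, Option.elim]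
      exact and_comm
  refine ⟨⟨{x ∈ X.pts | ev x f = 0}, d, X.closed.inter (isClosed_zero hff), fun y hy => ?_⟩,
    hd, f, hff, rfl, fun y hy => ?_⟩
  · obtain ⟨κ, g, hc, hL, hL'⟩ := key y hy
    have := hL.finite
    exact ⟨Option κ, _, by rw [Finite.card_option]; omega, hL'⟩
  · obtain ⟨κ, g, -, hL, hL'⟩ := key y hy
    exact ⟨κ, g, hL, hL'⟩

end Pool.Agent.Work.MP_ffcd14_ag
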