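import Pool.Agent.Work.MP_ffcd14_ag.Psi

/-! # The abstract even cohomology ring and the key non-vanishing -/

open Matrix Finset Module

namespace Pool.Agent.Work.MP_ffcd14_ag

set_option linter.unusedSectionVars false

/-- An abstract even cohomology ring `B` with graded pieces `G c` and rational classes `A c`. -/
structure Base (K B : Type*) [Field K] [CharZero K] [CommRing B] [Algebra K B] [Algebra ℚ B] where
  d : ℕ
  tr : B →ₗ[K] K
  G : ℕ → Submodule K B
  A : ℕ → Submodule ℚ B
  G_mul : ∀ i j, ∀ x ∈ G i, ∀ y ∈ G j, x * y ∈ G (i + j)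
  tr_G : ∀ i, ∀ x ∈ G i, i ≠ d → tr x = 0
  dual : ∀ i, ∀ x ∈ G i, (∀ j, ∀ y ∈ G j, tr (x * y) = 0) → x = 0
  A_le : ∀ c, ∀ x ∈ A c, x ∈ G c
  A_mul : ∀ i j, ∀ x ∈ A i, ∀ y ∈ A j, x * y ∈ A (i + j)
  A_tr : ∀ c, ∀ x ∈ A c, ∃ q : ℚ, tr x = q

variable {K B : Type*} [Field K] [CharZero K] [CommRing B] [Algebra K B] [Algebra ℚ B]
  [IsScalarTower ℚ K B] [Module.Finite K B] (S : Base K B)

namespace Base

/-- The `K`-span of the rational classes. -/
def V (c : ℕ) : Submodule K B := Submodule.span K (S.A c : Set B)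

theorem V_le (c : ℕ) : S.V c ≤ S.G c := Submodule.span_le.mpr fun x hx => S.A_le c x hx

theorem mem_V {c : ℕ} {x : B} (hx : x ∈ S.A c) : x ∈ S.V c := Submodule.subset_span hx

theorem eq_zero_of_lt {c : ℕ} {x : B} (hx : x ∈ S.G c) (hc : S.d < c) : x = 0 :=
  S.dual c x hx fun j y hy => S.tr_G _ _ (S.G_mul _ _ _ hx _ hy) (by omega)

theorem tr_A {i j : ℕ} {x y : B} (hx : x ∈ S.A i) (hy : y ∈ S.A j) (h : i + j ≠ S.d) :
    S.tr (x * y) = 0 := S.tr_G _ _ (S.A_le _ _ (S.A_mul _ _ _ hx _ hy)) h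

theorem mul_prod_mem {ε : Type*} (u : ε → B) (hu : ∀ l, u l ∈ S.A 1) (s : Finset ε) {c : ℕ} {x : B}
    (hx : x ∈ S.A c) : x * ∏ l ∈ s, u l ∈ S.A (c + s.card) := by
  classical
  induction s using Finset.induction_on with
  | empty => simpa using hx
  | insert a s ha ih =>
    rw [Finset.prod_insert ha, Finset.card_insert_of_notMem ha, mul_comm (u a), ← mul_assoc,
      ← add_assoc]
    exact S.A_mul _ _ _ ih _ (hu a)

theorem dual_bound (ρ : ℕ) (e e' : Fin ρ → B)
    (h : ∀ i j, S.tr (e i * e' j) = if i = j then 1 else 0) : ρ ≤ finrank K B := by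
  have := linInd_of_dual e (fun j => S.tr ∘ₗ LinearMap.mulRight K (e' j)) (by simpa using h)
  simpa using this.fintype_card_le_finrank

theorem exists_V_basis {c c' : ℕ} (hc : c + c' = S.d) :
    ∃ v v' : Fin (finrank K (S.V c)) → B, (∀ j, v j ∈ S.V c) ∧ (∀ j, v' j ∈ S.G c') ∧
      (∀ i j, S.tr (v i * v' j) = if i = j then 1 else 0) ∧
      ∀ x ∈ S.V c, x ∈ Submodule.span K (Set.range v) := by
  obtain ⟨ρ, v, v', hv, hv', hd, hexp⟩ := exists_rank_fact
    ((LinearMap.mul K B).compr₂ S.tr) (S.V c) (S.G c') (finrank K B)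
    (fun ρ e e' _ _ h => S.dual_bound ρ e e' (by simpa using h))
  simp only [LinearMap.compr₂_apply, LinearMap.mul_apply'] at hd hexp
  have hspan : ∀ x ∈ S.V c, x ∈ Submodule.span K (Set.range v) := by
    intro x hx
    have : x - ∑ j, S.tr (x * v' j) • v j = 0 := by
      have hm : x - ∑ j, S.tr (x * v' j) • v j ∈ S.G c :=
        S.V_le c ((S.V c).sub_mem hx ((S.V c).sum_mem fun j _ => (S.V c).smul_mem _ (hv j)))
      refine S.dual c _ hm fun j y hy => ?_
      by_cases hj : j = c'
      · subst hj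
        rw [sub_mul, map_sub, hexp x hx y hy, Finset.sum_mul, map_sum]
        simp
      · exact S.tr_G _ _ (S.G_mul _ _ _ hm _ hy) (by omega)
    rw [sub_eq_zero.mp this]
    exact Submodule.sum_mem _ fun j _ => Submodule.smul_mem _ _ (Submodule.subset_span ⟨j, rfl⟩)
  have hli := linInd_of_dual v (fun j => S.tr ∘ₗ LinearMap.mulRight K (v' j)) (by simpa using hd)
  have hρ : finrank K (S.V c) = ρ := by
    have : S.V c = Submodule.span K (Set.range v) :=
      le_antisymm hspan (Submodule.span_le.mpr (by rintro _ ⟨j, rfl⟩; exact hv j))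
    rw [this, finrank_span_eq_card hli, Fintype.card_fin]
  subst hρ
  exact ⟨v, v', hv, hv', hd, hspan⟩

variable {ρ BR : Type*} [Fintype ρ] [DecidableEq ρ] [CommRing BR] [Algebra K BR]
  (π : ρ → B →ₐ[K] BR)

/-- The multilinear map `x ↦ x₁ × ⋯ × x_R`. -/
noncomputable def ext : MultilinearMap K (fun _ : ρ => B) BR :=
  (MultilinearMap.mkPiAlgebra K ρ BR).compLinearMap fun k => (π k).toLinearMap

theorem ext_apply (x : ρ → B) : ext π x = ∏ k, π k (x k) := by simp [ext]

/-- Span of the products of rational classes, of total degree `j`. -/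
def W (j : ℕ) : Submodule K BR :=
  Submodule.span K {z | ∃ (c : ρ → ℕ) (x : ρ → B), (∀ k, x k ∈ S.A (c k)) ∧ ∑ k, c k = j ∧
    z = ∏ k, π k (x k)}

theorem W_mul {u : B} (hu : u ∈ S.A 1) {j : ℕ} {w : BR} (hw : w ∈ S.W π j) :
    (∑ k, π k u) * w ∈ S.W π (j + 1) := by
  induction hw using Submodule.span_induction with
  | mem z hz =>
    obtain ⟨c, x, hx, hc, rfl⟩ := hz
    rw [Finset.sum_mul]
    refine Submodule.sum_mem _ fun k _ => Submodule.subset_span
      ⟨Function.update c k (1 + c k), Function.update x k (u * x k), fun k' => ?_, ?_, ?_⟩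
    · by_cases h : k' = k
      · subst h; simpa using S.A_mul _ _ _ hu _ (hx k')
      · simpa [Function.update_of_ne h] using hx k'
    · rw [Finset.sum_update_of_mem (Finset.mem_univ k), ← hc,
        ← Finset.add_sum_erase _ _ (Finset.mem_univ k), Finset.sdiff_singleton_eq_erase]
      ring
    · rw [← Finset.mul_prod_erase _ _ (Finset.mem_univ k),
        ← Finset.mul_prod_erase _ _ (Finset.mem_univ k), Function.update_self, map_mul, mul_assoc]
      congr 2
      exact Finset.prod_congr rfl fun k' hk' => by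
        rw [Function.update_of_ne (Finset.ne_of_mem_erase hk')]
  | zero => simp
  | add z w _ _ hz hw => rw [mul_add]; exact Submodule.add_mem _ hz hw
  | smul c z _ hz => rw [mul_smul_comm]; exact Submodule.smul_mem _ _ hz

theorem W_prod {ε : Type*} (u : ε → B) (hu : ∀ l, u l ∈ S.A 1) (s : Finset ε) {j : ℕ} {w : BR}
    (hw : w ∈ S.W π j) : (∏ l ∈ s, ∑ k, π k (u l)) * w ∈ S.W π (j + s.card) := by
  classical
  induction s using Finset.induction_on with
  | empty => simpa using hw
  | insert a s ha ih =>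
    rw [Finset.prod_insert ha, Finset.card_insert_of_notMem ha, mul_assoc, ← add_assoc]
    exact S.W_mul π (hu a) ih

theorem W_finrank (trR : BR →ₗ[K] K) (htr : ∀ x : ρ → B, trR (∏ k, π k (x k)) = ∏ k, S.tr (x k))
    (hV : ∀ c c', c + c' = S.d → finrank K (S.V c) = finrank K (S.V c')) :
    (∀ j, Module.Finite K (S.W π j)) ∧
      ∀ j j', j + j' = Fintype.card ρ * S.d → finrank K (S.W π j) = finrank K (S.W π j') := by
  classical
  have hb := fun c : Fin (S.d + 1) => S.exists_V_basis (c := c) (c' := S.d - c) (by omega)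
  choose v v' hv hv' hd hsp using hb
  let 𝔅 := Σ c : Fin (S.d + 1), Fin (finrank K (S.V c))
  let P : (ρ → 𝔅) → BR := fun β => ∏ k, π k (v (β k).1 (β k).2)
  have hdd : ∀ b b' : 𝔅, S.tr (v b.1 b.2 * v' b'.1 b'.2) = if b = b' then 1 else 0 := by
    rintro ⟨c, i⟩ ⟨c', i'⟩
    by_cases h : c = c'
    · subst h
      rw [hd]
      exact if_congr ⟨fun h => congrArg (Sigma.mk c) h, fun h => eq_of_heq (Sigma.mk.inj h).2⟩ rfl rfl
    · rw [if_neg (fun h' => h (congrArg Sigma.fst h'))]
      refine S.tr_G _ _ (S.G_mul _ _ _ (S.V_le _ (hv c i)) _ (hv' c' i')) ?_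
      have := Fin.val_ne_of_ne h
      omega
  have hP : LinearIndependent K P := by
    refine linInd_of_dual P (fun β => trR ∘ₗ LinearMap.mulRight K
      (∏ k, π k (v' (β k).1 (β k).2))) fun β β' => ?_
    simp only [P, LinearMap.comp_apply, LinearMap.mulRight_apply, ← Finset.prod_mul_distrib,
      ← map_mul, htr, hdd]
    rw [Finset.prod_ite_zero]
    simp [funext_iff]
  have hW : ∀ j, S.W π j = Submodule.span K
      (Set.range fun β : {β : ρ → 𝔅 // ∑ k, ((β k).1 : ℕ) = j} => P β.1) := by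
    intro j
    apply le_antisymm
    · rw [W, Submodule.span_le]
      rintro _ ⟨c, x, hx, hc, rfl⟩
      by_cases h : ∀ k, c k ≤ S.d
      · rw [← ext_apply]
        refine multilinear_mem_span (ext π) (fun k => Set.range (v ⟨c k, by have := h k; omega⟩))
          _ (fun b hb => ?_) x (fun k => hsp ⟨c k, _⟩ _ (S.mem_V (hx k)))
        choose i hi using hb
        refine Submodule.subset_span ⟨⟨fun k => ⟨⟨c k, by have := h k; omega⟩, i k⟩, hc⟩, ?_⟩
        simp only [P, ext_apply, hi]
      · push Not at h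
        obtain ⟨k, hk⟩ := h
        have : ∏ k, π k (x k) = 0 := Finset.prod_eq_zero (Finset.mem_univ k) (by
          rw [S.eq_zero_of_lt (S.A_le _ _ (hx k)) hk, map_zero])
        rw [this]
        exact Submodule.zero_mem _
    · rw [Submodule.span_le]
      rintro _ ⟨⟨β, hβ⟩, rfl⟩
      simp only [P, ← ext_apply]
      refine multilinear_mem_span (ext π) (fun k => S.A (β k).1) _ (fun b hb => ?_) _
        (fun k => hv _ _)
      exact Submodule.subset_span ⟨fun k => (β k).1, b, hb, hβ, ext_apply π b⟩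
  have hfr : ∀ j, finrank K (S.W π j) =
      Fintype.card {β : ρ → 𝔅 // ∑ k, ((β k).1 : ℕ) = j} := fun j => by
    rw [hW]; exact finrank_span_eq_card (hP.comp _ Subtype.val_injective)
  refine ⟨fun j => ?_, fun j j' hj => ?_⟩
  · rw [hW]; exact Module.Finite.span_of_finite K (Set.finite_range _)
  · rw [hfr, hfr]
    let τ : 𝔅 ≃ 𝔅 := Equiv.sigmaCongr Fin.revPerm fun c => finCongr (hV _ _ (by
      simp only [Fin.revPerm_apply, Fin.val_rev]; omega))
    have hτ : ∀ b : 𝔅, ((τ b).1 : ℕ) + b.1 = S.d := by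
      intro b
      change ((Fin.revPerm b.1 : Fin _) : ℕ) + b.1 = _
      simp only [Fin.revPerm_apply, Fin.val_rev]; omega
    refine Fintype.card_congr ((Equiv.arrowCongr (Equiv.refl ρ) τ).subtypeEquiv fun β => ?_)
    have : ∑ k, ((τ (β k)).1 : ℕ) + ∑ k, ((β k).1 : ℕ) = Fintype.card ρ * S.d := by
      rw [← Finset.sum_add_distrib]; simp [hτ]
    simp only [Equiv.arrowCongr_apply, Equiv.refl_symm, Equiv.coe_refl, Function.comp, id]
    omega

/-- The key non-vanishing. -/
theorem Psi_ne_zero {ε : Type*} [Fintype ε] [DecidableEq ε] (trR : BR →ₗ[K] K)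
    (htr : ∀ x : ρ → B, trR (∏ k, π k (x k)) = ∏ k, S.tr (x k))
    (hV : ∀ c c', c + c' = S.d → finrank K (S.V c) = finrank K (S.V c'))
    (n : ℕ) (hn : n ≤ S.d) (deg : ρ → ℕ) (hdeg : ∀ j, deg j ≤ n) (e e' : ρ → B)
    (he' : ∀ j, e' j ∈ S.A (S.d - deg j))
    (hd : ∀ i j, S.tr (e i * e' j) = if i = j then 1 else 0)
    (he : ∀ j, e j ∈ S.A (deg j))
    (hexp : ∀ c ≤ n, ∀ x ∈ S.A c, ∃ a : ρ → ℚ, (∀ j, deg j ≠ c → a j = 0) ∧
      ∀ c', ∀ y ∈ S.A c', S.tr ((x - ∑ j, a j • e j) * y) = 0)
    (u : ε → B) (hu : ∀ l, u l ∈ S.A 1)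
    (hE : 2 * ∑ j, deg j + Fintype.card ε = Fintype.card ρ * S.d)
    (hinj : ∀ w ∈ S.W π (∑ j, deg j), (∏ l, ∑ k, π k (u l)) * w = 0 → w = 0) :
    Psi S.tr e e u ≠ 0 := by
  classical
  intro h0
  set m := ∑ j, deg j with hm
  set cc := ∏ l, ∑ k, π k (u l) with hcc
  set ω := ∑ σ : Equiv.Perm ρ, Equiv.Perm.sign σ • ∏ k, π k (e (σ k)) with hω
  obtain ⟨hfin, hfr⟩ := S.W_finrank π trR htr hV
  let f : S.W π m →ₗ[K] S.W π (m + Fintype.card ε) :=
    (LinearMap.mulLeft K cc).restrict fun w hw => S.W_prod π u hu Finset.univ hw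
  have hf : Function.Injective f := by
    rw [injective_iff_map_eq_zero]
    intro w hw
    exact Subtype.ext (hinj w.1 w.2 (congrArg Subtype.val hw))
  have hsurj := (LinearMap.injective_iff_surjective_of_finrank_eq_finrank
    (hfr m (m + Fintype.card ε) (by omega))).mp hf
  have hy : ∏ k, π k (e' k) ∈ S.W π (m + Fintype.card ε) := by
    refine Submodule.subset_span ⟨fun k => S.d - deg k, e', he', ?_, rfl⟩
    have : ∑ k, (S.d - deg k) + m = Fintype.card ρ * S.d := by
      rw [hm, ← Finset.sum_add_distrib, Finset.sum_congr rfl fun k _ =>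
        Nat.sub_add_cancel ((hdeg k).trans hn)]
      simp
    change ∑ k, (S.d - deg k) = _
    omega
  obtain ⟨w, hw⟩ := hsurj ⟨_, hy⟩
  have hw' : cc * w.1 = ∏ k, π k (e' k) := congrArg Subtype.val hw
  have h1 : trR (ω * cc * w.1) = 1 := by
    rw [mul_assoc, hw']
    have := Psi_formula S.tr π trR htr e e' (Fin.elim0 : Fin 0 → B)
    simp only [Finset.univ_eq_empty, Finset.prod_empty, mul_one] at this
    rw [this, Psi, Fintype.sum_unique]
    simp only [Ug, Finset.univ_eq_empty, Finset.filter_empty, Finset.prod_empty, mul_one, hd]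
    exact Matrix.det_one
  have h2 : ∀ w ∈ S.W π m, trR (ω * cc * w) = 0 := by
    intro w hw
    induction hw using Submodule.span_induction with
    | zero => simp
    | add z w _ _ hz hw => rw [mul_add, map_add, hz, hw, add_zero]
    | smul c z _ hz => rw [mul_smul_comm, map_smul, hz, smul_zero]
    | mem z hz =>
      obtain ⟨c, x, hx, hc, rfl⟩ := hz
      rw [← ext_apply]
      let T : Submodule K BR := LinearMap.ker (trR ∘ₗ LinearMap.mulLeft K (ω * cc))
      change ext π x ∈ T
      refine multilinear_mem_span (ext π) (fun k => {b | (∃ j, deg j = c k ∧ b = e j) ∨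
        (∀ c', ∀ y ∈ S.A c', S.tr (b * y) = 0) ∨ n < c k}) T (fun b hb => ?_) x (fun k => ?_)
      · change trR (ω * cc * ext π b) = 0
        rw [ext_apply, hω, hcc, Psi_formula S.tr π trR htr]
        by_cases hA : ∃ k, ∀ c', ∀ y ∈ S.A c', S.tr (b k * y) = 0
        · obtain ⟨k, hk⟩ := hA
          refine Psi_eq_zero_of_col _ _ _ _ k fun g j => ?_
          rw [mul_comm]
          exact hk _ _ (S.mul_prod_mem u hu _ (he j))
        · have hB : ∀ k, ∃ j, c k ≤ n → deg j = c k ∧ b k = e j := by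
            intro k
            rcases hb k with ⟨j, hj⟩ | h | h
            · exact ⟨j, fun _ => hj⟩
            · exact absurd ⟨k, h⟩ hA
            · exact ⟨k, fun h' => absurd h' (by omega)⟩
          choose j hj using hB
          by_cases hC : ∀ k k', c k ≤ n → c k' ≤ n → j k = j k' → k = k'
          · have hall := count_lemma deg c n hdeg hc j (fun k hk => (hj k hk).1) hC
            have hji : Function.Injective j := fun k k' h => hC k k' (hall k) (hall k') h
            let τ : Equiv.Perm ρ := Equiv.ofBijective j (Finite.injective_iff_bijective.mp hji)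
            have : b = e ∘ τ := funext fun k => (hj k (hall k)).2
            rw [this, Psi_perm, h0, mul_zero]
          · push Not at hC
            obtain ⟨k, k', hk, hk', hjj, hne⟩ := hC
            exact Psi_eq_zero_of_eq _ _ _ _ hne (by rw [(hj k hk).2, (hj k' hk').2, hjj])
      · by_cases hk : c k ≤ n
        · obtain ⟨a, ha, ha'⟩ := hexp (c k) hk (x k) (hx k)
          rw [← sub_add_cancel (x k) (∑ j, a j • e j)]
          refine Submodule.add_mem _ (Submodule.subset_span (Or.inr (Or.inl ha')))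
            (Submodule.sum_mem _ fun j _ => ?_)
          by_cases hj : deg j = c k
          · exact Submodule.smul_of_tower_mem _ _ (Submodule.subset_span (Or.inl ⟨j, hj, rfl⟩))
          · rw [ha j hj, zero_smul]; exact Submodule.zero_mem _
        · exact Submodule.subset_span (Or.inr (Or.inr (by omega)))
  rw [h2 _ w.2] at h1
  exact zero_ne_one h1

end Base

end Pool.Agent.Work.MP_ffcd14_ag
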