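import Mathlib

/-!
# Smooth projective varieties, Weil cohomology and the standard conjecture of Hodge type

Classical language.  The base field `k` is meant to be algebraically closed.  A variety is a
Zariski closed subset of a finite product of projective spaces which is smooth of a given pure
dimension (it may be disconnected or empty).
-/

open MvPolynomial Topology TopologicalSpace

namespace Pool.Agent.Work.MP_ffcd14_ag

universe u v w

/-- The shape of a finite product of projective spaces: factors `ι`, and the homogeneous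
coordinates `σ i` of the factor `i`. -/
structure Amb where
  ι : Type
  σ : ι → Type
  [finι : Finite ι]
  [finσ : ∀ i, Finite (σ i)]

attribute [instance] Amb.finι Amb.finσ

/-- All homogeneous coordinates. -/
abbrev Amb.V (P : Amb) : Type := Σ i, P.σ i

/-- Points of the product of projective spaces. -/
def Amb.Pt (P : Amb) (k : Type u) [Field k] : Type u := ∀ i, Projectivization k (P.σ i → k)

variable {k : Type u} [Field k] {P Q : Amb}

/-- Value of a polynomial at (a chosen representative of) a point. -/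
noncomputable def ev (x : P.Pt k) (f : MvPolynomial P.V k) : k :=
  eval (fun s => (x s.1).rep s.2) f

/-- `f` is multihomogeneous, of degree `a i` in the coordinates of the factor `i`. -/
def IsForm (f : MvPolynomial P.V k) (a : P.ι →₀ ℕ) : Prop :=
  f.IsWeightedHomogeneous (fun s => Finsupp.single s.1 1) a

/-- The Zariski topology. -/
instance zariski : TopologicalSpace (P.Pt k) :=
  generateFrom {U | ∃ f a, IsForm f a ∧ U = {x | ev x f ≠ 0}}

/-- Near `x`, the set `S` is the common zero set of the forms `f j`, whose differentials at `x`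
are linearly independent. -/
def LocEq (S : Set (P.Pt k)) (x : P.Pt k) {κ : Type} (f : κ → MvPolynomial P.V k) : Prop :=
  (∀ j, ∃ a, IsForm (f j) a) ∧ (∀ᶠ y in 𝓝 x, y ∈ S ↔ ∀ j, ev y (f j) = 0) ∧
    LinearIndependent k fun j (s : P.V) => ev x (pderiv s (f j))

/-- A smooth projective variety of pure dimension `dim`. -/
structure Var (k : Type u) [Field k] (P : Amb) where
  pts : Set (P.Pt k)
  dim : ℕ
  closed : IsClosed pts
  smooth : ∀ x ∈ pts, ∃ (κ : Type) (f : κ → MvPolynomial P.V k),
    Nat.card κ + dim + Nat.card P.ι = Nat.card P.V ∧ LocEq pts x f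

/-- A morphism of varieties: each component is locally given by forms of one degree. -/
structure Hom (X : Var k P) (Y : Var k Q) where
  toFun : X.pts → Y.pts
  reg : ∀ x j, ∃ (a : P.ι →₀ ℕ) (F : Q.σ j → MvPolynomial P.V k), (∀ s, IsForm (F s) a) ∧
    ∀ᶠ y in 𝓝 x, ∃ h, (toFun y).1 j = Projectivization.mk k (fun s => ev y.1 (F s)) h

/-- `φ` and `ψ` are mutually inverse. -/
def Inv {X : Var k P} {Y : Var k Q} (φ : Hom X Y) (ψ : Hom Y X) : Prop :=
  (∀ x, ψ.toFun (φ.toFun x) = x) ∧ ∀ y, φ.toFun (ψ.toFun y) = y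

/-- The combination `∑ a i • h i`; for the hyperplane classes `h i` it is the class of `O(a)`. -/
noncomputable def lin {ι : Type} {B : Type w} [Ring B] (h : ι → B) (a : ι →₀ ℕ) : B :=
  a.sum fun i n => n • h i

variable {K : Type v} [Field K] {B : Type w} [Ring B] [Algebra K B]

variable (K) in
/-- `x` lies in the rational span of the classes of the irreducible closed subsets of
codimension `c`. -/
def IsAlg {X : Var k P} (cl : IrreducibleCloseds X.pts → B) (c : ℕ) (x : B) : Prop :=
  x ∈ AddSubgroup.closure {y | ∃ (q : ℚ) (Z : IrreducibleCloseds X.pts),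
    Order.coheight Z = c ∧ y = (q : K) • cl Z}

/-- `B` is a finite-dimensional graded-commutative algebra (`deg i x` says that `x` is homogeneous
of degree `i`) and `tr` is a linear form of degree `2 d` satisfying Poincaré duality. -/
def IsPD (deg : ℕ → B → Prop) (tr : B → K) (d : ℕ) : Prop :=
  Module.Finite K B ∧ IsLinearMap K tr ∧
    (∃ gr : ℕ → Submodule K B, Nonempty (GradedAlgebra gr) ∧ ∀ i x, deg i x ↔ x ∈ gr i) ∧
    (∀ i j x y, deg i x → deg j y → x * y = (-1 : K) ^ (i * j) • (y * x)) ∧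
    (∀ i x, deg i x → i ≠ 2 * d → tr x = 0) ∧ ∀ x, (∀ y, tr (x * y) = 0) → x = 0

/-- A Weil cohomology theory with coefficients in `K`: graded algebras `H X`, pull-backs, trace
maps, cycle classes of irreducible closed subsets and the class `hyp X i` of the hyperplane bundle
of the factor `i`.  Every axiom is one of Kleiman's axioms or an immediate consequence of them.
Neither the Künneth formula nor a Lefschetz theorem is required. -/
structure Weil (k : Type u) (K : Type v) [Field k] [Field K] where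
  H : ∀ {P : Amb}, Var k P → Type w
  [ring : ∀ {P : Amb} (X : Var k P), Ring (H X)]
  [alg : ∀ {P : Amb} (X : Var k P), Algebra K (H X)]
  deg : ∀ {P : Amb} (X : Var k P), ℕ → H X → Prop
  pull : ∀ {P Q : Amb} {X : Var k P} {Y : Var k Q}, Hom X Y → H Y → H X
  tr : ∀ {P : Amb} (X : Var k P), H X → K
  cl : ∀ {P : Amb} (X : Var k P), IrreducibleCloseds X.pts → H X
  hyp : ∀ {P : Amb} (X : Var k P), P.ι → H X
  pd : ∀ {P : Amb} (X : Var k P), IsPD (deg X) (tr X) X.dim
  pull_hom : ∀ {P Q : Amb} {X : Var k P} {Y : Var k Q} (φ : Hom X Y),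
    ∃ f : H Y →ₐ[K] H X, ⇑f = pull φ
  pull_gr : ∀ {P Q : Amb} {X : Var k P} {Y : Var k Q} (φ : Hom X Y) (i : ℕ) (y : H Y),
    deg Y i y → deg X i (pull φ y)
  pull_id : ∀ {P : Amb} {X : Var k P} (φ : Hom X X), (∀ x, φ.toFun x = x) → ∀ y, pull φ y = y
  pull_comp : ∀ {P Q S : Amb} {X : Var k P} {Y : Var k Q} {Z : Var k S} (φ : Hom X Y)
    (ψ : Hom Y Z) (χ : Hom X Z), (∀ x, χ.toFun x = ψ.toFun (φ.toFun x)) →
    ∀ z, pull χ z = pull φ (pull ψ z)
  tr_iso : ∀ {P Q : Amb} {X : Var k P} {Y : Var k Q} (φ : Hom X Y) (ψ : Hom Y X), Inv φ ψ →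
    ∀ y, tr X (pull φ y) = tr Y y
  cl_tr : ∀ {P : Amb} {W X : Var k P} (j : Hom W X) (Z : IrreducibleCloseds X.pts),
    (∀ x, (j.toFun x).1 = x.1) → Set.range j.toFun = Z →
    ∀ x, tr X (cl X Z * x) = tr W (pull j x)
  tr_pt : ∀ {P : Amb} (X : Var k P) (Z : IrreducibleCloseds X.pts), Order.height Z = 0 →
    tr X (cl X Z) = 1
  alg_gr : ∀ {P : Amb} (X : Var k P) (c : ℕ) (x : H X), IsAlg K (cl X) c x → deg X (2 * c) x
  alg_mul : ∀ {P : Amb} (X : Var k P) (c c' : ℕ) (x y : H X), IsAlg K (cl X) c x →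
    IsAlg K (cl X) c' y → IsAlg K (cl X) (c + c') (x * y)
  alg_pull : ∀ {P Q : Amb} {X : Var k P} {Y : Var k Q} (φ : Hom X Y) (c : ℕ) (y : H Y),
    IsAlg K (cl Y) c y → IsAlg K (cl X) c (pull φ y)
  alg_tr : ∀ {P : Amb} (X : Var k P) (c : ℕ) (x : H X), IsAlg K (cl X) c x → ∃ q : ℚ, tr X x = q
  hyp_alg : ∀ {P : Amb} (X : Var k P) (i : P.ι), IsAlg K (cl X) 1 (hyp X i)
  hyp_pull : ∀ {P Q : Amb} {X : Var k P} {Y : Var k Q} (φ : Hom X Y) (j : Q.ι) (a : P.ι →₀ ℕ)
    (F : Q.σ j → MvPolynomial P.V k), (∀ s, IsForm (F s) a) →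
    (∀ x, ∃ h, (φ.toFun x).1 j = Projectivization.mk k (fun s => ev x.1 (F s)) h) →
    pull φ (hyp Y j) = lin (hyp X) a

attribute [instance] Weil.ring Weil.alg

/-- `l` is the class of an ample divisor: a positive multiple of it is the class of `O(a)`, all
`a i > 0`, for some embedding of `X` in a product of projective spaces. -/
def Weil.Ample (C : Weil.{u, v, w} k K) (X : Var k P) (l : C.H X) : Prop :=
  ∃ (m : ℕ) (Q : Amb) (Y : Var k Q) (φ : Hom X Y) (ψ : Hom Y X) (a : Q.ι →₀ ℕ), 0 < m ∧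
    Y.dim = X.dim ∧ Inv φ ψ ∧ (∀ i, 0 < a i) ∧ m • l = C.pull φ (lin (C.hyp Y) a)

/-- `x` is numerically trivial with respect to the classes `A`. -/
def Num0 (tr : B → K) (A : ℕ → AddSubgroup B) (x : B) : Prop :=
  ∀ c, ∀ y ∈ A c, tr (x * y) = 0

/-- The standard conjecture of Hodge type in codimension `n`, modulo numerical equivalence:
`(-1) ^ n ∫ x x l ^ (d - 2 n) > 0` for `x` numerically primitive and numerically non-trivial. -/
def Hdg (tr : B → K) (d : ℕ) (A : ℕ → AddSubgroup B) (l : B) (n : ℕ) : Prop :=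
  ∀ x ∈ A n, Num0 tr A (l ^ (d - 2 * n + 1) * x) → ¬ Num0 tr A x →
    ∃ q : ℚ, 0 < q ∧ (-1) ^ n * tr (x * x * l ^ (d - 2 * n)) = q

end Pool.Agent.Work.MP_ffcd14_ag
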