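import Pool.Agent.Work.MP_ffcd14_ag.Defs

/-! # Weil cohomology theories with the Lefschetz theorems -/

open MvPolynomial Topology TopologicalSpace

namespace Pool.Agent.Work.MP_ffcd14_ag

universe u v w

/-- The product of finitely many ambient spaces. -/
def Amb.pi {R : ℕ} (P : Fin R → Amb) : Amb where
  ι := Σ j, (P j).ι
  σ p := (P p.1).σ p.2

variable {k : Type u} [Field k] {P Q : Amb}

/-- `j` is the inclusion of a transversal (hence smooth) section `W` of `X` by a form of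
degree `a`. -/
def IsSec {W X : Var k P} (j : Hom W X) (a : P.ι →₀ ℕ) : Prop :=
  (∀ x, (j.toFun x).1 = x.1) ∧ W.dim + 1 = X.dim ∧
    ∃ f, IsForm f a ∧ W.pts = {x ∈ X.pts | ev x f = 0} ∧
      ∀ x ∈ W.pts, ∃ (κ : Type) (g : κ → MvPolynomial P.V k),
        LocEq X.pts x g ∧ LocEq W.pts x fun o : Option κ => o.elim f g

/-- A Weil cohomology theory with the product formula for traces and with the weak and the hard
Lefschetz property. -/
structure WeilL (k : Type u) (K : Type v) [Field k] [Field K] extends Weil.{u, v, w} k K where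
  tr_pi : ∀ {R : ℕ} {P : Fin R → Amb} (X : ∀ j, Var k (P j)) (Y : Var k (Amb.pi P))
    (p : ∀ j, Hom Y (X j)), Y.pts = {y | ∀ j, (fun i => y ⟨j, i⟩) ∈ (X j).pts} →
    (∀ j y i, ((p j).toFun y).1 i = y.1 ⟨j, i⟩) → ∀ x : ∀ j, H (X j),
    tr Y (List.ofFn fun j => pull (p j) (x j)).prod = ∏ j, tr (X j) (x j)
  sec_tr : ∀ {P : Amb} {W X : Var k P} (j : Hom W X) (a : P.ι →₀ ℕ), IsSec j a →
    ∀ x, tr X (lin (hyp X) a * x) = tr W (pull j x)
  weak_inj : ∀ {P : Amb} {W X : Var k P} (j : Hom W X) (a : P.ι →₀ ℕ), IsSec j a →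
    (∀ i, 0 < a i) → ∀ i < X.dim, ∀ x, deg X i x → pull j x = 0 → x = 0
  weak_surj : ∀ {P : Amb} {W X : Var k P} (j : Hom W X) (a : P.ι →₀ ℕ), IsSec j a →
    (∀ i, 0 < a i) → ∀ i < W.dim, ∀ y, deg W i y → ∃ x, deg X i x ∧ pull j x = y
  hard : ∀ {P : Amb} (X : Var k P) (a : P.ι →₀ ℕ), (∀ i, 0 < a i) → ∀ i e : ℕ, i + e = X.dim →
    ∀ x, deg X i x → lin (hyp X) a ^ e * x = 0 → x = 0

variable {B : Type w} [Ring B]

/-- The conjecture `A(X, l)` of Lefschetz type: `l ^ (d - 2 i)` maps `A i` onto `A (d - i)`. -/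
def LefA (d : ℕ) (A : ℕ → AddSubgroup B) (l : B) : Prop :=
  ∀ i e : ℕ, 2 * i + e = d → ∀ y ∈ A (i + e), ∃ x ∈ A i, y = l ^ e * x

end Pool.Agent.Work.MP_ffcd14_ag
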