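import Pool.Agent.Work.MP_ffcd14_ag.Split

/-! # Forms, scaling, and the Zariski topology -/

open MvPolynomial Topology TopologicalSpace Filter

namespace Pool.Agent.Work.MP_ffcd14_ag

universe u

variable {k : Type u} [Field k] {P Q : Amb}

theorem wh_aeval {σ τ M M' : Type*} [AddCommMonoid M] [AddCommMonoid M'] {w : σ → M}
    {w' : τ → M'} (θ : M →+ M') (F : σ → MvPolynomial τ k)
    (hF : ∀ s, (F s).IsWeightedHomogeneous w' (θ (w s))) {f : MvPolynomial σ k} {m : M}
    (hf : f.IsWeightedHomogeneous w m) : (aeval F f).IsWeightedHomogeneous w' (θ m) := by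
  induction hf using IsWeightedHomogeneous.induction_on with
  | zero => simpa using isWeightedHomogeneous_zero k w' _
  | add p q _ _ hp hq => rw [map_add]; exact hp.add hq
  | monomial d r hr =>
    rw [aeval_monomial, ← hr, Finsupp.weight_apply, Finsupp.sum, map_sum]
    refine IsWeightedHomogeneous.C_mul ?_ r
    exact IsWeightedHomogeneous.prod _ _ _ fun s _ => by
      rw [map_nsmul]; exact (hF s).pow _

/-- The chosen representative of a point. -/
noncomputable def rp (x : P.Pt k) : P.V → k := fun s => (x s.1).rep s.2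

theorem ev_eq (x : P.Pt k) (f : MvPolynomial P.V k) : ev x f = eval (rp x) f := rfl

theorem ev_mul (x : P.Pt k) (f g : MvPolynomial P.V k) : ev x (f * g) = ev x f * ev x g :=
  map_mul _ _ _

@[simp] theorem ev_X (x : P.Pt k) (s : P.V) : ev x (X s) = (x s.1).rep s.2 := eval_X _

theorem IsForm.X (s : P.V) : IsForm (X s : MvPolynomial P.V k) (Finsupp.single s.1 1) :=
  isWeightedHomogeneous_X k _ s

theorem IsForm.one : IsForm (1 : MvPolynomial P.V k) 0 := isWeightedHomogeneous_one k _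

theorem IsForm.mul {f g : MvPolynomial P.V k} {a b : P.ι →₀ ℕ} (hf : IsForm f a)
    (hg : IsForm g b) : IsForm (f * g) (a + b) := IsWeightedHomogeneous.mul hf hg

theorem IsForm.aeval {F : Q.V → MvPolynomial P.V k} {b : Q.ι → P.ι →₀ ℕ}
    (hF : ∀ s, IsForm (F s) (b s.1)) {f : MvPolynomial Q.V k} {a : Q.ι →₀ ℕ} (hf : IsForm f a) :
    IsForm (aeval F f) (a.sum fun i n => n • b i) :=
  wh_aeval (Finsupp.weight b) F (fun s => by simpa [Finsupp.weight_single, IsForm] using hF s) hf

theorem IsForm.rename {φ : Q.V → P.V} {ψ : Q.ι → P.ι} (h : ∀ s, (φ s).1 = ψ s.1)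
    {f : MvPolynomial Q.V k} {a : Q.ι →₀ ℕ} (hf : IsForm f a) :
    ∃ b, IsForm (rename φ f) b := by
  rw [rename_eq_aeval]
  exact ⟨_, IsForm.aeval (b := fun i => Finsupp.single (ψ i) 1)
    (fun s => by simpa [← h] using IsForm.X (φ s)) hf⟩

/-- The character of the torus attached to a degree. -/
noncomputable def chi (μ : P.ι → k) (a : P.ι →₀ ℕ) : k := a.prod fun i n => μ i ^ n

theorem chi_ne_zero {μ : P.ι → k} (h : ∀ i, μ i ≠ 0) (a : P.ι →₀ ℕ) : chi μ a ≠ 0 :=
  Finset.prod_ne_zero_iff.mpr fun i _ => pow_ne_zero _ (h i)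

theorem chi_weight (μ : P.ι → k) (d : P.V →₀ ℕ) :
    chi μ (Finsupp.weight (fun s : P.V => Finsupp.single s.1 1) d) =
      d.prod fun s n => μ s.1 ^ n := by
  induction d using Finsupp.induction_linear with
  | zero => simp [chi]
  | add f g hf hg =>
    rw [map_add, chi, Finsupp.prod_add_index' (by simp) (by simp [pow_add]),
      Finsupp.prod_add_index' (by simp) (by simp [pow_add]), ← hf, ← hg]
    rfl
  | single s n => simp [chi, Finsupp.weight_single]

theorem IsForm.scale {f : MvPolynomial P.V k} {a : P.ι →₀ ℕ} (hf : IsForm f a) (μ : P.ι → k) :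
    MvPolynomial.aeval (fun s : P.V => C (μ s.1) * MvPolynomial.X s) f = C (chi μ a) * f := by
  induction hf using IsWeightedHomogeneous.induction_on with
  | zero => simp
  | add p q _ _ hp hq => rw [map_add, hp, hq, mul_add]
  | monomial d r hr =>
    rw [aeval_monomial, ← hr, chi_weight, monomial_eq]
    simp only [mul_pow, Finsupp.prod_mul, ← C_pow, algebraMap_eq]
    simp only [Finsupp.prod, ← map_prod]
    ring

theorem eval_scale (μ : P.ι → k) (v : P.V → k) (f : MvPolynomial P.V k) :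
    eval v (MvPolynomial.aeval (fun s : P.V => C (μ s.1) * X s) f) =
      eval (fun s => μ s.1 * v s) f := by
  induction f using MvPolynomial.induction_on with
  | C a => simp
  | add p q hp hq => simp only [map_add, hp, hq]
  | mul_X p s h => simp only [map_mul, h, aeval_X, eval_C, eval_X]

theorem pderiv_scale (μ : P.ι → k) (s : P.V) (f : MvPolynomial P.V k) :
    pderiv s (MvPolynomial.aeval (fun s : P.V => C (μ s.1) * X s) f) =
      C (μ s.1) * MvPolynomial.aeval (fun s : P.V => C (μ s.1) * X s) (pderiv s f) := by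
  classical
  induction f using MvPolynomial.induction_on with
  | C a => simp
  | add p q hp hq => simp only [map_add, hp, hq, mul_add]
  | mul_X p t h =>
    simp only [map_mul, aeval_X, Derivation.leibniz, h, smul_eq_mul, map_add, pderiv_C, pderiv_X]
    by_cases hst : t = s
    · subst hst; simp; ring
    · simp [hst]; ring

theorem IsForm.eval_scale {f : MvPolynomial P.V k} {a : P.ι →₀ ℕ} (hf : IsForm f a) (μ : P.ι → k)
    (v : P.V → k) : eval (fun s => μ s.1 * v s) f = chi μ a * eval v f := by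
  rw [← MP_ffcd14_ag.eval_scale, hf.scale]; simp

theorem IsForm.eval_scale_pderiv {f : MvPolynomial P.V k} {a : P.ι →₀ ℕ} (hf : IsForm f a)
    (μ : P.ι → k) (v : P.V → k) (s : P.V) :
    μ s.1 * eval (fun s => μ s.1 * v s) (pderiv s f) = chi μ a * eval v (pderiv s f) := by
  have := congrArg (eval v) (pderiv_scale μ s f)
  rw [hf.scale, pderiv_C_mul, map_mul, map_mul, eval_C, eval_C, MP_ffcd14_ag.eval_scale] at this
  exact this.symm

open Classical in
theorem IsForm.euler [Fintype P.V] {f : MvPolynomial P.V k} {a : P.ι →₀ ℕ} (hf : IsForm f a)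
    (i : P.ι) (v : P.V → k) :
    ∑ s : P.V, (if s.1 = i then v s * eval v (pderiv s f) else 0) = a i * eval v f := by
  have h1 := wh_aeval (w' := fun s : P.V => if s.1 = i then 1 else 0) (Finsupp.applyAddHom i)
    MvPolynomial.X (fun s => by
      simpa [Finsupp.single_apply] using isWeightedHomogeneous_X k
        (fun s : P.V => if s.1 = i then 1 else 0) s) hf
  rw [aeval_X_left_apply] at h1
  have h2 := congrArg (eval v) h1.sum_weight_X_mul_pderiv
  simpa [map_sum, apply_ite (eval v)] using h2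

theorem mem_nhds_iff_form {x : P.Pt k} {s : Set (P.Pt k)} :
    s ∈ 𝓝 x ↔ ∃ g a, IsForm g a ∧ ev x g ≠ 0 ∧ ∀ y, ev y g ≠ 0 → y ∈ s := by
  have hb := isTopologicalBasis_of_subbasis_of_inter (α := P.Pt k)
    (r := {U | ∃ f a, IsForm f a ∧ U = {x | ev x f ≠ 0}}) rfl (by
      rintro _ ⟨f, a, hf, rfl⟩ _ ⟨g, b, hg, rfl⟩
      exact ⟨f * g, a + b, hf.mul hg, by ext y; simp [ev_mul]⟩)
  rw [hb.mem_nhds_iff]
  constructor
  · rintro ⟨t, ht | ⟨f, a, hf, rfl⟩, hx, hs⟩
    · exact ⟨1, 0, IsForm.one, by simp [ev], fun y _ => hs (ht ▸ Set.mem_univ y)⟩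
    · exact ⟨f, a, hf, hx, fun y hy => hs hy⟩
  · rintro ⟨g, a, hg, hx, hs⟩
    exact ⟨_, Or.inr ⟨g, a, hg, rfl⟩, hx, fun y hy => hs y hy⟩

theorem eventually_iff_form {x : P.Pt k} {p : P.Pt k → Prop} :
    (∀ᶠ y in 𝓝 x, p y) ↔ ∃ g a, IsForm g a ∧ ev x g ≠ 0 ∧ ∀ y, ev y g ≠ 0 → p y :=
  mem_nhds_iff_form

theorem eventually_sub_iff_form {S : Set (P.Pt k)} {x : S} {p : S → Prop} :
    (∀ᶠ y in 𝓝 x, p y) ↔ ∃ g a, IsForm g a ∧ ev x.1 g ≠ 0 ∧ ∀ y : S, ev y.1 g ≠ 0 → p y := by
  rw [nhds_subtype, eventually_comap, eventually_iff_form]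
  simp only [Subtype.forall]
  refine exists_congr fun g => exists_congr fun a => and_congr_right fun _ =>
    and_congr_right fun _ => ⟨fun h y hy hg => h y hg y hy rfl, ?_⟩
  rintro h y hg _ hy rfl
  exact h _ hy hg

theorem isClosed_iff_form {S : Set (P.Pt k)} :
    IsClosed S ↔ ∀ x ∉ S, ∃ g a, IsForm g a ∧ ev x g ≠ 0 ∧ ∀ y ∈ S, ev y g = 0 := by
  rw [← isOpen_compl_iff, isOpen_iff_mem_nhds]
  refine forall_congr' fun x => imp_congr_right fun _ => ?_
  rw [mem_nhds_iff_form]
  refine exists_congr fun g => exists_congr fun a => and_congr_right fun _ =>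
    and_congr_right fun _ => forall_congr' fun y => ?_
  simp only [Set.mem_compl_iff]
  tauto

theorem eventually_ne {x : P.Pt k} {g : MvPolynomial P.V k} {a : P.ι →₀ ℕ} (hg : IsForm g a)
    (hx : ev x g ≠ 0) : ∀ᶠ y in 𝓝 x, ev y g ≠ 0 :=
  eventually_iff_form.mpr ⟨g, a, hg, hx, fun _ h => h⟩

theorem isClosed_zero {g : MvPolynomial P.V k} {a : P.ι →₀ ℕ} (hg : IsForm g a) :
    IsClosed {y : P.Pt k | ev y g = 0} :=
  isClosed_iff_form.mpr fun _ hx => ⟨g, a, hg, hx, fun _ h => h⟩

/-- A map between ambient spaces under which non-vanishing loci of forms pull back to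
neighbourhoods is continuous. -/
theorem continuous_of_form {T : Type*} [TopologicalSpace T] {φ : T → Q.Pt k}
    (h : ∀ x g a, IsForm g a → ev (φ x) g ≠ 0 → ∀ᶠ y in 𝓝 x, ev (φ y) g ≠ 0) : Continuous φ := by
  rw [continuous_iff_continuousAt]
  intro x s hs
  obtain ⟨g, a, hg, hx, hs⟩ := mem_nhds_iff_form.mp hs
  rw [Filter.mem_map]
  filter_upwards [h x g a hg hx] with y hy using hs _ hy

theorem LocEq.finite {S : Set (P.Pt k)} {x : P.Pt k} {κ : Type} {f : κ → MvPolynomial P.V k}
    (h : LocEq S x f) : Finite κ := h.2.2.finite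

theorem LocEq.ev_eq_zero {S : Set (P.Pt k)} {x : P.Pt k} {κ : Type} {f : κ → MvPolynomial P.V k}
    (h : LocEq S x f) (hx : x ∈ S) (j : κ) : ev x (f j) = 0 := h.2.1.self_of_nhds.mp hx j

end Pool.Agent.Work.MP_ffcd14_ag
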