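import Pool.Agent.Work.MP_ffcd14_ag.Maps

/-! # The graph of a morphism -/

open MvPolynomial Topology Filter

namespace Pool.Agent.Work.MP_ffcd14_ag

universe u

variable {k : Type u} [Field k] {P Q S : Amb}

/-- The product of two ambient spaces. -/
def Amb.sum (P Q : Amb) : Amb where
  ι := P.ι ⊕ Q.ι
  σ := Sum.elim P.σ Q.σ
  finσ := by
    rintro (i | i)
    · exact P.finσ i
    · exact Q.finσ i

/-- First projection. -/
def Blk.inl (P Q : Amb) : Blk k P (P.sum Q) where
  ε s := ⟨Sum.inl s.1, s.2⟩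
  ψ := Sum.inl
  fst _ := rfl
  inj := by
    rintro ⟨i, s⟩ ⟨i', s'⟩ h
    obtain ⟨h1, h2⟩ := Sigma.mk.inj h
    obtain rfl := Sum.inl.inj h1
    obtain rfl := eq_of_heq h2
    rfl
  pr y i := y (Sum.inl i)
  rp_pr _ _ := rfl

/-- Second projection. -/
def Blk.inr (P Q : Amb) : Blk k Q (P.sum Q) where
  ε s := ⟨Sum.inr s.1, s.2⟩
  ψ := Sum.inr
  fst _ := rfl
  inj := by
    rintro ⟨i, s⟩ ⟨i', s'⟩ h
    obtain ⟨h1, h2⟩ := Sigma.mk.inj h
    obtain rfl := Sum.inr.inj h1
    obtain rfl := eq_of_heq h2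
    rfl
  pr y i := y (Sum.inr i)
  rp_pr _ _ := rfl

theorem eq_mk_of_minors {V : Type} (p : Projectivization k (V → k)) {v : V → k} {s₀ : V}
    (h0 : v s₀ ≠ 0) (h : ∀ s, v s₀ * p.rep s = v s * p.rep s₀) (hv : v ≠ 0) :
    p = Projectivization.mk k v hv := by
  rw [← p.mk_rep, Projectivization.mk_eq_mk_iff']
  refine ⟨p.rep s₀ / v s₀, funext fun s => ?_⟩
  simp only [Pi.smul_apply, smul_eq_mul]
  field_simp
  linear_combination -h s

theorem minors_of_eq_mk {V : Type} {p : Projectivization k (V → k)} {v : V → k} {hv : v ≠ 0}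
    (h : p = Projectivization.mk k v hv) (s s' : V) : v s * p.rep s' = v s' * p.rep s := by
  obtain ⟨c, -, hc⟩ := exists_rep_eq h
  rw [hc, hc]; ring

/-- The minors cutting out the graph. -/
noncomputable def minor {j : Q.ι} (F : Q.σ j → MvPolynomial P.V k) (s s' : Q.σ j) :
    MvPolynomial (P.sum Q).V k :=
  rename (Blk.inl (k := k) P Q).ε (F s) * X ((Blk.inr (k := k) P Q).ε ⟨j, s'⟩) -
    rename (Blk.inl (k := k) P Q).ε (F s') * X ((Blk.inr (k := k) P Q).ε ⟨j, s⟩)

theorem minor_form {j : Q.ι} {F : Q.σ j → MvPolynomial P.V k} {a : P.ι →₀ ℕ}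
    (hF : ∀ s, IsForm (F s) a) (s s' : Q.σ j) : ∃ b, IsForm (minor F s s') b :=
  ⟨_, IsWeightedHomogeneous.sub (((Blk.inl P Q).form (hF s)).mul (IsForm.X _))
    (((Blk.inl P Q).form (hF s')).mul (IsForm.X ((Blk.inr (k := k) P Q).ε ⟨j, s⟩)))⟩

theorem ev_minor {j : Q.ι} (F : Q.σ j → MvPolynomial P.V k) (s s' : Q.σ j) (z : (P.sum Q).Pt k) :
    ev z (minor F s s') = ev ((Blk.inl P Q).pr z) (F s) * ((Blk.inr P Q).pr z j).rep s' -
      ev ((Blk.inl P Q).pr z) (F s') * ((Blk.inr P Q).pr z j).rep s := by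
  rw [← Blk.ev_rename, ← Blk.ev_rename]
  simp only [minor, ev_eq, map_sub, map_mul, eval_X]
  rfl

open Classical in
theorem ev_pderiv_minor {j : Q.ι} (F : Q.σ j → MvPolynomial P.V k) (s s' : Q.σ j)
    (z : (P.sum Q).Pt k) (t : Q.V) :
    ev z (pderiv ((Blk.inr (k := k) P Q).ε t) (minor F s s')) =
      (if ⟨j, s'⟩ = t then ev ((Blk.inl P Q).pr z) (F s) else 0) -
        if ⟨j, s⟩ = t then ev ((Blk.inl P Q).pr z) (F s') else 0 := by
  have h0 : ∀ f : MvPolynomial P.V k,
      pderiv ((Blk.inr (k := k) P Q).ε t) (rename (Blk.inl (k := k) P Q).ε f) = 0 := fun f =>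
    pderiv_rename_of_notMem _ (by
      rintro ⟨s, hs⟩
      exact Sum.inl_ne_inr (congrArg Sigma.fst hs)) f
  rw [← Blk.ev_rename, ← Blk.ev_rename]
  simp only [minor, map_sub, Derivation.leibniz, h0, add_zero, pderiv_X, smul_eq_mul,
    Pi.single_apply, (Blk.inr (k := k) P Q).inj.eq_iff, ev_eq, mul_ite, mul_one, mul_zero,
    apply_ite (eval (rp z)), map_zero]

/-- The graph of a morphism. -/
def Hom.graph {X : Var k P} {Y : Var k Q} (θ : Hom X Y) : Var k (P.sum Q) where
  pts := {z | ∃ h : (Blk.inl P Q).pr z ∈ X.pts, (θ.toFun ⟨_, h⟩).1 = (Blk.inr P Q).pr z}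
  dim := X.dim
  closed := by
    rw [isClosed_iff_form]
    intro z hz
    by_cases hx : (Blk.inl P Q).pr z ∈ X.pts
    · obtain ⟨j, hj⟩ := Function.ne_iff.mp fun h => hz ⟨hx, h⟩
      obtain ⟨a, F, hF, h⟩ := θ.reg ⟨_, hx⟩ j
      obtain ⟨g, b, hg, hgx, hgy⟩ := eventually_sub_iff_form.mp h
      obtain ⟨hv, hv'⟩ := hgy ⟨_, hx⟩ hgx
      obtain ⟨s₀, hs₀⟩ := Function.ne_iff.mp hv
      obtain ⟨s, hs⟩ : ∃ s, ev z (minor F s₀ s) ≠ 0 := by
        by_contra h0
        push Not at h0
        refine hj (hv'.trans (eq_mk_of_minors _ hs₀ (fun s => ?_) hv).symm)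
        have := h0 s
        rwa [ev_minor, sub_eq_zero] at this
      obtain ⟨c, hc⟩ := minor_form hF s₀ s
      refine ⟨_, _, ((Blk.inl P Q).form hg).mul hc, ?_, ?_⟩
      · rw [ev_mul, Blk.ev_rename]; exact mul_ne_zero hgx hs
      · rintro w ⟨hw, hw'⟩
        rw [ev_mul, Blk.ev_rename, mul_eq_zero, or_iff_not_imp_left]
        intro hgw
        obtain ⟨h1, h2⟩ := hgy ⟨_, hw⟩ hgw
        rw [hw'] at h2
        rw [ev_minor, sub_eq_zero]
        exact minors_of_eq_mk h2 s₀ s
    · obtain ⟨g, a, hg, hgx, hgy⟩ := isClosed_iff_form.mp X.closed _ hx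
      refine ⟨_, _, (Blk.inl P Q).form hg, by rwa [Blk.ev_rename], ?_⟩
      rintro w ⟨hw, -⟩
      rw [Blk.ev_rename]; exact hgy _ hw
  smooth := by
    classical
    rintro z ⟨hx, hz⟩
    obtain ⟨κ, f, hc, hL⟩ := X.smooth _ hx
    have := hL.finite
    choose a F hF h using θ.reg ⟨_, hx⟩
    choose g b hg hgx hgy using fun j => eventually_sub_iff_form.mp (h j)
    choose s₀ hs₀ using fun j => Function.ne_iff.mp (hgy j ⟨_, hx⟩ (hgx j)).choose
    let _ := Fintype.ofFinite κ
    let _ := Fintype.ofFinite Q.ι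
    let _ := fun j => Fintype.ofFinite (Q.σ j)
    refine ⟨κ ⊕ Σ j, {s // s ≠ s₀ j}, Sum.elim (fun c => rename (Blk.inl (k := k) P Q).ε (f c))
      fun c => minor (F c.1) (s₀ c.1) c.2.1, ?_, ?_, ?_, ?_⟩
    · have h1 : Nat.card (P.sum Q).V = Nat.card P.V + Nat.card Q.V := by
        rw [← Nat.card_sum]
        exact Nat.card_congr (Equiv.sumSigmaDistrib (P.sum Q).σ)
      have h2 : Nat.card (P.sum Q).ι = Nat.card P.ι + Nat.card Q.ι := Nat.card_sum
      have h3 : Nat.card (Σ j, {s // s ≠ s₀ j}) + Nat.card Q.ι = Nat.card Q.V := by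
        rw [Nat.card_sigma, Nat.card_sigma, Nat.card_eq_fintype_card, ← Finset.card_univ,
          Finset.card_eq_sum_ones, ← Finset.sum_add_distrib]
        refine Finset.sum_congr rfl fun j _ => ?_
        rw [← Finite.card_option]
        exact Nat.card_congr (Equiv.optionSubtypeNe (s₀ j))
      rw [h1, h2, Nat.card_sum]
      omega
    · rintro (c | c)
      · obtain ⟨a, ha⟩ := hL.1 c
        exact ⟨_, (Blk.inl P Q).form ha⟩
      · exact minor_form (hF c.1) _ _
    · have hcont := (Blk.inl (k := k) P Q).continuous.continuousAt (x := z)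
      filter_upwards [hcont.eventually hL.2.1,
        hcont.eventually (eventually_all.mpr fun j => eventually_ne (hg j) (hgx j)),
        hcont.eventually (eventually_all.mpr fun j => eventually_ne (hF j (s₀ j)) (hs₀ j))]
        with w h1 h2 h3
      simp only [Sum.forall, Sum.elim_inl, Sum.elim_inr, Blk.ev_rename, ← h1, ev_minor,
        sub_eq_zero]
      constructor
      · rintro ⟨hw, hw'⟩
        refine ⟨hw, fun c => ?_⟩
        obtain ⟨h4, h5⟩ := hgy c.1 ⟨_, hw⟩ (h2 c.1)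
        rw [hw'] at h5
        exact minors_of_eq_mk h5 _ _
      · rintro ⟨hw, hw'⟩
        refine ⟨hw, funext fun j => ?_⟩
        obtain ⟨h4, h5⟩ := hgy j ⟨_, hw⟩ (h2 j)
        refine h5.trans (eq_mk_of_minors _ (h3 j) (fun s => ?_) h4).symm
        by_cases hs : s = s₀ j
        · rw [hs]
        · exact hw' ⟨j, s, hs⟩
    · rw [Fintype.linearIndependent_iff]
      intro l hl
      have hr : ∀ c, l (Sum.inr c) = 0 := by
        rintro ⟨j, s, hs⟩
        have := congrFun hl ((Blk.inr (k := k) P Q).ε ⟨j, s⟩)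
        simp only [Finset.sum_apply, Pi.smul_apply, Pi.zero_apply, Fintype.sum_sum_type,
          Sum.elim_inl, Sum.elim_inr, ev_pderiv_minor] at this
        rw [Finset.sum_eq_zero, zero_add,
          Finset.sum_eq_single (⟨j, s, hs⟩ : Σ j, {s // s ≠ s₀ j}), if_pos rfl, if_neg,
          sub_zero, smul_eq_mul] at this
        · exact (mul_eq_zero.mp this).resolve_right (hs₀ j)
        · exact fun h => hs (eq_of_heq (Sigma.mk.inj h).2).symm
        · rintro ⟨j', s', hs'⟩ _ hne
          rw [if_neg, if_neg, sub_zero, smul_zero]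
          · intro h
            obtain ⟨rfl, h2⟩ := Sigma.mk.inj h
            exact hs (eq_of_heq h2).symm
          · intro h
            obtain ⟨rfl, h2⟩ := Sigma.mk.inj h
            obtain rfl := eq_of_heq h2
            exact hne rfl
        · simp
        · intro c _
          rw [pderiv_rename_of_notMem]
          · simp [ev]
          · rintro ⟨s, hs⟩
            exact Sum.inl_ne_inr (congrArg Sigma.fst hs)
      rintro (c | c)
      · refine Fintype.linearIndependent_iff.mp hL.2.2 (fun c => l (Sum.inl c))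
          (funext fun s => ?_) c
        have := congrFun hl ((Blk.inl (k := k) P Q).ε s)
        simpa only [Finset.sum_apply, Pi.smul_apply, Pi.zero_apply, Fintype.sum_sum_type,
          Sum.elim_inl, hr, zero_smul, Finset.sum_const_zero, add_zero, Blk.ev_pderiv] using this
      · exact hr c

/-- The projection of the graph to the source. -/
def Hom.graphFst {X : Var k P} {Y : Var k Q} (θ : Hom X Y) : Hom θ.graph X where
  toFun z := ⟨(Blk.inl P Q).pr z.1, z.2.choose⟩
  reg _ i := ⟨Finsupp.single (Sum.inl i) 1, fun s => MvPolynomial.X ⟨Sum.inl i, s⟩,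
    fun s => IsForm.X (P := P.sum Q) ⟨Sum.inl i, s⟩,
    Eventually.of_forall fun y => blk_mk y.1 (Sum.inl i : (P.sum Q).ι)⟩

/-- The projection of the graph to the target. -/
def Hom.graphSnd {X : Var k P} {Y : Var k Q} (θ : Hom X Y) : Hom θ.graph Y where
  toFun z := ⟨(Blk.inr P Q).pr z.1, z.2.choose_spec ▸ (θ.toFun _).2⟩
  reg _ i := ⟨Finsupp.single (Sum.inr i) 1, fun s => MvPolynomial.X ⟨Sum.inr i, s⟩,
    fun s => IsForm.X (P := P.sum Q) ⟨Sum.inr i, s⟩,
    Eventually.of_forall fun y => blk_mk y.1 (Sum.inr i : (P.sum Q).ι)⟩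

/-- The inverse of the first projection of the graph. -/
def Hom.graphInv {X : Var k P} {Y : Var k Q} (θ : Hom X Y) : Hom X θ.graph where
  toFun x := ⟨Sum.rec (motive := fun j => Projectivization k ((P.sum Q).σ j → k)) x.1
    (θ.toFun x).1, x.2, rfl⟩
  reg x := by
    rintro (i | j)
    · exact ⟨Finsupp.single i 1, fun s => MvPolynomial.X ⟨i, s⟩, fun s => IsForm.X ⟨i, s⟩,
        Eventually.of_forall fun y => blk_mk y.1 i⟩
    · exact θ.reg x j

theorem Hom.graphInv_fst {X : Var k P} {Y : Var k Q} (θ : Hom X Y) (z : θ.graph.pts) :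
    θ.graphInv.toFun (θ.graphFst.toFun z) = z := by
  refine Subtype.ext (funext ?_)
  rintro (i | j)
  · rfl
  · exact congrFun z.2.choose_spec j

theorem Hom.graphSnd_eq {X : Var k P} {Y : Var k Q} (θ : Hom X Y) (z : θ.graph.pts) :
    θ.graphSnd.toFun z = θ.toFun (θ.graphFst.toFun z) :=
  Subtype.ext z.2.choose_spec.symm

end Pool.Agent.Work.MP_ffcd14_ag
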