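import Pool.Agent.Work.MP_ffcd14_ag.Real

/-! # Independence of the polarisation, abstract form -/

open Matrix Finset Module TensorProduct

namespace Pool.Agent.Work.MP_ffcd14_ag

set_option linter.unusedSectionVars false

universe w

variable {K : Type*} {B : Type w} [Field K] [CharZero K] [CommRing B] [Algebra K B] [Algebra ℚ B]
  [IsScalarTower ℚ K B] [Module.Finite K B] (S : Base K B)

namespace Base

/-- Hard Lefschetz for `l`. -/
def HL (l : B) : Prop := ∀ i e : ℕ, 2 * i + e = S.d → ∀ x ∈ S.G i, l ^ e * x = 0 → x = 0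

/-- Numerical triviality. -/
def N0 (x : B) : Prop := ∀ c, ∀ y ∈ S.A c, S.tr (x * y) = 0

/-- The Hodge-Riemann positivity in degree `n`. -/
def HR (l : B) (n E : ℕ) : Prop :=
  ∀ x ∈ S.A n, S.N0 (l ^ (E + 1) * x) → ¬ S.N0 x →
    ∃ q : ℚ, 0 < q ∧ (-1) ^ n * S.tr (x * x * l ^ E) = q

theorem V_mul_pow {l : B} (hl : l ∈ S.A 1) (i e : ℕ) : ∀ x ∈ S.V i, l ^ e * x ∈ S.V (i + e) := by
  intro x hx
  induction hx using Submodule.span_induction with
  | mem x hx => rw [mul_comm]; exact S.mem_V (S.mul_pow_mem hl e hx)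
  | zero => simp
  | add x y _ _ hx hy => rw [mul_add]; exact Submodule.add_mem _ hx hy
  | smul c x _ hx => rw [mul_smul_comm]; exact Submodule.smul_mem _ _ hx

theorem finrank_V {l : B} (hl : l ∈ S.A 1) (h : S.HL l)
    (hA : ∀ i e : ℕ, 2 * i + e = S.d → ∀ y ∈ S.A (i + e), ∃ x ∈ S.A i, y = l ^ e * x) :
    ∀ c c', c + c' = S.d → finrank K (S.V c) = finrank K (S.V c') := by
  have key : ∀ i e, 2 * i + e = S.d → finrank K (S.V i) = finrank K (S.V (i + e)) := by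
    intro i e hie
    let f : S.V i →ₗ[K] S.V (i + e) :=
      (LinearMap.mulLeft K (l ^ e)).restrict (S.V_mul_pow hl i e)
    refine (LinearEquiv.ofBijective f ⟨?_, ?_⟩).finrank_eq
    · rw [injective_iff_map_eq_zero]
      intro x hx
      exact Subtype.ext (h i e hie _ (S.V_le _ x.2) (congrArg Subtype.val hx))
    · rintro ⟨y, hy⟩
      have : ∃ x ∈ S.V i, l ^ e * x = y := by
        induction hy using Submodule.span_induction with
        | mem y hy => obtain ⟨x, hx, rfl⟩ := hA i e hie y hy; exact ⟨x, S.mem_V hx, rfl⟩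
        | zero => exact ⟨0, Submodule.zero_mem _, mul_zero _⟩
        | add y z _ _ hy hz =>
          obtain ⟨x, hx, rfl⟩ := hy
          obtain ⟨x', hx', rfl⟩ := hz
          exact ⟨x + x', Submodule.add_mem _ hx hx', mul_add _ _ _⟩
        | smul c y _ hy =>
          obtain ⟨x, hx, rfl⟩ := hy
          exact ⟨c • x, Submodule.smul_mem _ _ hx, mul_smul_comm _ _ _⟩
      obtain ⟨x, hx, rfl⟩ := this
      exact ⟨⟨x, hx⟩, rfl⟩
  intro c c' hc
  rcases le_total c c' with h1 | h1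
  · obtain ⟨e, rfl⟩ := Nat.exists_eq_add_of_le h1
    exact key c e (by omega)
  · obtain ⟨e, rfl⟩ := Nat.exists_eq_add_of_le h1
    exact (key c' e (by omega)).symm

theorem rat_HL (hV : ∀ c c', c + c' = S.d → finrank K (S.V c) = finrank K (S.V c'))
    {l : B} (hl : l ∈ S.A 1) (h : S.HL l) {n E : ℕ} (hn : 2 * n + E = S.d) :
    ∀ z ∈ S.A n, (∀ w ∈ S.A n, S.t (z * w * l ^ E) = 0) → ∀ w ∈ S.A (n + E), S.t (z * w) = 0 := by
  intro z hz H w hw
  let f : S.V n →ₗ[K] S.V (n + E) :=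
    (LinearMap.mulLeft K (l ^ E)).restrict (S.V_mul_pow hl n E)
  have hf : Function.Injective f := by
    rw [injective_iff_map_eq_zero]
    intro x hx
    exact Subtype.ext (h n E hn _ (S.V_le _ x.2) (congrArg Subtype.val hx))
  obtain ⟨⟨x, hx⟩, hx'⟩ := (LinearMap.injective_iff_surjective_of_finrank_eq_finrank
    (hV n (n + E) (by omega))).mp hf ⟨w, S.mem_V hw⟩
  have hx'' : l ^ E * x = w := congrArg Subtype.val hx'
  rw [S.t_eq_zero_iff (S.A_mul _ _ _ hz _ hw), ← hx'']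
  clear hx' hx''
  induction hx using Submodule.span_induction with
  | mem x hx =>
    rw [mul_comm (l ^ E), ← mul_assoc,
      ← S.t_eq_zero_iff (S.mul_pow_mem hl E (S.A_mul _ _ _ hz _ hx))]
    exact H x hx
  | zero => simp
  | add x y _ _ hx hy => rw [mul_add, mul_add, map_add, hx, hy, add_zero]
  | smul c x _ hx => rw [mul_smul_comm, mul_smul_comm, map_smul, hx, smul_zero]

/-- The segment from `l` to `l'`. -/
noncomputable def seg (l l' : B) (s : Set.Icc (0 : ℝ) 1) : ℝ ⊗[ℚ] B :=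
  (1 - s.1) • jj B l + s.1 • jj B l'

theorem seg_mem {l l' : B} (hl : l ∈ S.A 1) (hl' : l' ∈ S.A 1) (s : Set.Icc (0 : ℝ) 1) :
    seg l l' s ∈ S.A' 1 :=
  (S.A' 1).add_mem ((S.A' 1).smul_mem _ (S.mem_A' hl)) ((S.A' 1).smul_mem _ (S.mem_A' hl'))

theorem seg_continuous (l l' : B) (E : ℕ) (z : ℝ ⊗[ℚ] B) :
    Continuous fun s => S.t' (z * seg l l' s ^ E) := by
  induction E generalizing z with
  | zero => simpa using continuous_const
  | succ E ih =>
    have : (fun s => S.t' (z * seg l l' s ^ (E + 1))) = fun s =>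
        (1 - s.1) * S.t' (z * jj B l * seg l l' s ^ E) +
          s.1 * S.t' (z * jj B l' * seg l l' s ^ E) := by
      funext s
      rw [pow_succ', ← mul_assoc]
      conv_lhs => rw [seg]
      simp only [mul_add, add_mul, mul_smul_comm, smul_mul_assoc, map_add, map_smul, smul_eq_mul]
      rfl
    rw [this]
    exact ((continuous_const.sub continuous_subtype_val).mul (ih _)).add
      (continuous_subtype_val.mul (ih _))

theorem mat_continuous {I J : Type*} (l l' : B) (E : ℕ) (x : I → ℝ ⊗[ℚ] B) (y : J → ℝ ⊗[ℚ] B) :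
    Continuous fun s => mat S.t' x y (seg l l' s ^ E) :=
  continuous_matrix fun _ _ => S.seg_continuous l l' E _

theorem seg_det (hV : ∀ c c', c + c' = S.d → finrank K (S.V c) = finrank K (S.V c'))
    {l l' : B} (hl : l ∈ S.A 1) (hl' : l' ∈ S.A 1) (h : S.HL l) (h' : S.HL l')
    (hP : S.Power l l') {n E : ℕ} (hn : 2 * n + E = S.d) {J : Type*} [Fintype J] [DecidableEq J]
    {e e' : J → B} (hb : IsNB S.t (S.A n) (S.A (n + E)) e e') (s : Set.Icc (0 : ℝ) 1) :
    (mat S.t' (jj B ∘ e) (jj B ∘ e) (seg l l' s ^ E)).det ≠ 0 := by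
  have hend : ∀ l ∈ S.A 1, S.HL l → (mat S.t' (jj B ∘ e) (jj B ∘ e) (jj B l ^ E)).det ≠ 0 := by
    intro l hl h
    rw [← map_pow, mat_jj]
    have := hb.det_ne_zero (l ^ E) (fun x hx => S.mul_pow_mem hl E hx) (S.rat_HL hV hl h hn)
    have h2 := RingHom.map_det (Rat.castHom ℝ) (mat S.t e e (l ^ E))
    rw [RingHom.mapMatrix_apply] at h2
    rw [← h2]
    simpa using this
  obtain ⟨s, h0, h1⟩ := s
  rcases h0.eq_or_lt with rfl | h0'
  · simpa [seg] using hend l hl h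
  rcases h1.eq_or_lt with rfl | h1'
  · simpa [seg] using hend l' hl' h'
  exact (S.NB' hb).det_ne_zero _ (fun x hx => S.mul_pow_mem' (S.seg_mem hl hl' _) E hx)
    (S.real_HL hV hl hl' hP hn (sub_pos.mpr h1') h0')

theorem exists_low (hV : ∀ c c', c + c' = S.d → finrank K (S.V c) = finrank K (S.V c'))
    {l l' : B} (hl : l ∈ S.A 1) (hl' : l' ∈ S.A 1) (h : S.HL l) (h' : S.HL l')
    (hP : S.Power l l') {n E : ℕ} (hn : 2 * n + E = S.d) :
    ∃ (ρ : ℕ) (f : Fin ρ → B), (∀ a, ∃ c, c + 1 = n ∧ f a ∈ S.A c) ∧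
      (∀ z ∈ S.A (n + (E + 1)), (∀ a, S.t (f a * z) = 0) → S.N0 z) ∧
      ∀ s, (mat S.t' (jj B ∘ f) (jj B ∘ f) (seg l l' s ^ (E + 2))).det ≠ 0 := by
  rcases n with _ | n
  · refine ⟨0, Fin.elim0, fun a => a.elim0, fun z hz _ c y hy => S.tr_A hz hy (by omega),
      fun s => by simp⟩
  · obtain ⟨ρ, f, f', hf⟩ := S.exists_NB n (n + (E + 2))
    refine ⟨ρ, f, fun a => ⟨n, rfl, hf.mem a⟩, fun z hz H c y hy => ?_,
      S.seg_det hV hl hl' h h' hP (by omega) hf⟩
    by_cases hc : c = n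
    · subst hc
      rw [← S.t_eq_zero_iff (S.A_mul _ _ _ hz _ hy), mul_comm,
        hf.exp y hy z (by rwa [show c + (E + 2) = c + 1 + (E + 1) by omega])]
      simp [H]
    · exact S.tr_A hz hy (by omega)

/-- Independence of the polarisation. -/
theorem HR_of_HR (hV : ∀ c c', c + c' = S.d → finrank K (S.V c) = finrank K (S.V c'))
    {l l' : B} (hl : l ∈ S.A 1) (hl' : l' ∈ S.A 1) (h : S.HL l) (h' : S.HL l')
    (hP : S.Power l l') {n E : ℕ} (hn : 2 * n + E = S.d) (H : S.HR l n E) : S.HR l' n E := by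
  classical
  obtain ⟨ρ, e, e', hb⟩ := S.exists_NB n (n + E)
  obtain ⟨ρ', f, hf, hprim, hdet⟩ := S.exists_low hV hl hl' h h' hP hn
  have hf1 : ∀ u ∈ S.A 1, ∀ a, f a * u ∈ S.A n := fun u hu a => by
    obtain ⟨c, rfl, hc⟩ := hf a; exact S.A_mul _ _ _ hc _ hu
  have hf2 : ∀ u ∈ S.A 1, ∀ a, f a * u ^ (E + 1) ∈ S.A (n + E) := fun u hu a => by
    rw [pow_succ', ← mul_assoc]; exact S.mul_pow_mem hu E (hf1 u hu a)
  have hf1' : ∀ u ∈ S.A' 1, ∀ a, (jj B ∘ f) a * u ∈ S.A' n := fun u hu a => by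
    obtain ⟨c, rfl, hc⟩ := hf a; exact S.A'_mul _ (S.mem_A' hc) _ hu
  have hf2' : ∀ u ∈ S.A' 1, ∀ a, (jj B ∘ f) a * u ^ (E + 1) ∈ S.A' (n + E) := fun u hu a => by
    rw [pow_succ', ← mul_assoc]; exact S.mul_pow_mem' hu E (hf1' u hu a)
  let M : Set.Icc (0 : ℝ) 1 → Matrix (Fin ρ) (Fin ρ) ℝ := fun s =>
    Mt ((-1) ^ n) (mat S.t' (jj B ∘ e) (jj B ∘ e) (seg l l' s ^ E))
      (mat S.t' (jj B ∘ f) (jj B ∘ f) (seg l l' s ^ (E + 2)))
      (mat S.t' (jj B ∘ f) (jj B ∘ e) (seg l l' s ^ (E + 1)))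
  let M₀ : B → Matrix (Fin ρ) (Fin ρ) ℚ := fun u =>
    Mt ((-1) ^ n) (mat S.t e e (u ^ E)) (mat S.t f f (u ^ (E + 2))) (mat S.t f e (u ^ (E + 1)))
  have hM : ∀ s u, seg l l' s = jj B u → M s = (M₀ u).map (Rat.castHom ℝ) := by
    intro s u hs
    simp only [M, M₀, hs, ← map_pow, mat_jj, Mt_map]
    simp
  have hM0 := hM ⟨0, by simp⟩ l (by simp [seg])
  have hM1 := hM ⟨1, by simp⟩ l' (by simp [seg])
  have hpos := pos_of_deform (M := M)
    (Mt_continuous _ (S.mat_continuous _ _ _ _ _) (S.mat_continuous _ _ _ _ _)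
      (S.mat_continuous _ _ _ _ _))
    (fun s => Mt_symm _ _ (mat_transpose _ _ _ _) (mat_transpose _ _ _ _))
    (fun s => Mt_ker (Λ := mat S.t' (jj B ∘ e') (jj B ∘ f) (seg l l' s))
      (pow_ne_zero _ (by norm_num)) (mat_transpose _ _ _ _) (mat_transpose _ _ _ _)
      (by
        rw [(S.NB' hb).mul_lam (jj B ∘ e) _ _ _ (hf1' _ (S.seg_mem hl hl' s)) fun i =>
          S.mul_pow_mem' (S.seg_mem hl hl' s) E (S.mem_A' (hb.mem i)), mat_transpose, pow_succ])
      (by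
        rw [(S.NB' hb).mul_lam _ _ _ _ (hf1' _ (S.seg_mem hl hl' s))
          (hf2' _ (S.seg_mem hl hl' s)), ← pow_succ])
      (S.seg_det hV hl hl' h h' hP hn hb s) (hdet s))
    ⟨0, by simp⟩ ⟨1, by simp⟩ (by
      rw [hM0]
      refine nonneg_real_of_rat _ fun x => ?_
      obtain ⟨h1, h2⟩ := Mt_quad ((-1) ^ n) (Q := mat S.t e e (l ^ E))
        (Q' := mat S.t f f (l ^ (E + 2))) (Φ := mat S.t f e (l ^ (E + 1)))
        (Λ := mat S.t e' f l) (mat_transpose _ _ _ _) (mat_transpose _ _ _ _)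
        (by rw [hb.mul_lam _ _ _ _ (hf1 _ hl) fun i => S.mul_pow_mem hl E (hb.mem i),
          mat_transpose, pow_succ])
        (by rw [hb.mul_lam _ _ _ _ (hf1 _ hl) (hf2 _ hl), ← pow_succ]) x
      simp only [M₀]
      rw [h2]
      refine add_nonneg ?_ (Finset.sum_nonneg fun a _ => mul_self_nonneg _)
      generalize (mat S.t f f (l ^ (E + 2))).det • x - _ = x' at h1 ⊢
      rw [mat_mulVec] at h1
      rw [dot_mat]
      set α := ∑ j, x' j • e j with hα
      have hαm : α ∈ S.A n := (S.A n).sum_mem fun j _ => (S.A n).smul_mem _ (hb.mem j)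
      have hm2 : α * α * l ^ E ∈ S.A (n + n + E) := S.mul_pow_mem hl E (S.A_mul _ _ _ hαm _ hαm)
      by_cases hN : S.N0 α
      · rw [(S.t_eq_zero_iff hm2).mpr (by
          rw [mul_assoc]; exact hN _ _ (S.mul_pow_mem hl E hαm)), mul_zero]
      · obtain ⟨q, hq, hq'⟩ := H α hαm (by
          rw [mul_comm]
          exact hprim _ (S.mul_pow_mem hl _ hαm) fun a => by
            rw [← mul_assoc]; exact congrFun h1 a) hN
        rw [← S.t_cast hm2] at hq'
        have : (-1) ^ n * S.t (α * α * l ^ E) = q := by exact_mod_cast hq'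
        rw [this]; exact hq.le)
  intro α hα hp hN
  have hm2 : α * α * l' ^ E ∈ S.A (n + n + E) := S.mul_pow_mem hl' E (S.A_mul _ _ _ hα _ hα)
  refine ⟨(-1) ^ n * S.t (α * α * l' ^ E), ?_, by rw [← S.t_cast hm2]; push_cast; rfl⟩
  let ξ : Fin ρ → ℚ := fun j => S.t (α * e' j)
  have hξ : (fun j => (ξ j : ℝ)) ≠ 0 := by
    intro h0
    refine hN fun c y hy => ?_
    by_cases hc : c = n + E
    · subst hc
      rw [← S.t_eq_zero_iff (S.A_mul _ _ _ hα _ hy), hb.exp α hα y hy]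
      refine Finset.sum_eq_zero fun j _ => ?_
      have : ξ j = 0 := by simpa using congrFun h0 j
      rw [show S.t (α * e' j) = 0 from this, zero_mul]
    · exact S.tr_A hα hy (by omega)
  have h1 := hpos _ hξ
  rw [hM1] at h1
  have h2 : ((ξ ⬝ᵥ M₀ l' *ᵥ ξ : ℚ) : ℝ) =
      (fun j => (ξ j : ℝ)) ⬝ᵥ ((M₀ l').map (Rat.castHom ℝ)) *ᵥ fun j => (ξ j : ℝ) := by
    simp [dotProduct, mulVec]
  rw [← h2] at h1
  have h3 : 0 < ξ ⬝ᵥ M₀ l' *ᵥ ξ := by exact_mod_cast h1
  have h4 : mat S.t f e (l' ^ (E + 1)) *ᵥ ξ = 0 := by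
    rw [hb.mulVec_coord _ _ (hf2 _ hl') hα]
    funext a
    obtain ⟨c, -, hc⟩ := hf a
    rw [Pi.zero_apply, S.t_eq_zero_iff (S.A_mul _ _ _ hα _ (hf2 _ hl' a)),
      show α * (f a * l' ^ (E + 1)) = l' ^ (E + 1) * α * f a by ring]
    exact hp c _ hc
  have h5 : ξ ⬝ᵥ mat S.t e e (l' ^ E) *ᵥ ξ = S.t (α * α * l' ^ E) := by
    rw [hb.mulVec_coord _ _ (fun i => S.mul_pow_mem hl' E (hb.mem i)) hα, mul_assoc,
      hb.exp α hα _ (S.mul_pow_mem hl' E hα)]
    refine Finset.sum_congr rfl fun j _ => ?_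
    simp only [ξ]
    congr 2; ring
  simp only [M₀] at h3
  rw [Mt_quad_prim _ _ _ h4, h5] at h3
  by_contra hneg
  push Not at hneg
  nlinarith [sq_nonneg (mat S.t f f (l' ^ (E + 2))).det]

end Base

end Pool.Agent.Work.MP_ffcd14_ag
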