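import Mathlib

/-! # Linear algebra lemmas -/

open Matrix Finset

namespace Pool.Agent.Work.MP_ffcd14_ag

/-- Rank factorisation of a bilinear pairing of bounded rank. -/
theorem exists_rank_fact {F M : Type*} [Field F] [AddCommGroup M] [Module F M]
    (β : M →ₗ[F] M →ₗ[F] F) (U U' : Submodule F M) (N : ℕ)
    (hN : ∀ (ρ : ℕ) (e e' : Fin ρ → M), (∀ j, e j ∈ U) → (∀ j, e' j ∈ U') →
      (∀ i j, β (e i) (e' j) = if i = j then 1 else 0) → ρ ≤ N) :
    ∃ (ρ : ℕ) (e e' : Fin ρ → M), (∀ j, e j ∈ U) ∧ (∀ j, e' j ∈ U') ∧
      (∀ i j, β (e i) (e' j) = if i = j then 1 else 0) ∧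
      ∀ x ∈ U, ∀ y ∈ U', β x y = ∑ j, β x (e' j) * β (e j) y := by
  classical
  let p : ℕ → Prop := fun ρ => ∃ e e' : Fin ρ → M, (∀ j, e j ∈ U) ∧ (∀ j, e' j ∈ U') ∧
      (∀ i j, β (e i) (e' j) = if i = j then 1 else 0)
  have h0 : p 0 := ⟨Fin.elim0, Fin.elim0, fun j => j.elim0, fun j => j.elim0, fun j => j.elim0⟩
  have hp : p (Nat.findGreatest p N) := Nat.findGreatest_spec (Nat.zero_le N) h0
  set ρ := Nat.findGreatest p N with hρ
  obtain ⟨e, e', he, he', hd⟩ := hp
  refine ⟨ρ, e, e', he, he', hd, ?_⟩
  by_contra hcon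
  push Not at hcon
  obtain ⟨x, hx, y, hy, hxy⟩ := hcon
  set r := β x y - ∑ j, β x (e' j) * β (e j) y with hr
  have hr0 : r ≠ 0 := sub_ne_zero.mpr hxy
  set x' := x - ∑ j, β x (e' j) • e j with hx'
  set y' := r⁻¹ • (y - ∑ j, β (e j) y • e' j) with hy'
  have h1 : ∀ j, β x' (e' j) = 0 := by
    intro j
    simp [hx', hd]
  have h2 : ∀ j, β (e j) y' = 0 := by
    intro j
    simp [hy', hd]
  have h3 : β x' y' = 1 := by
    have : β x' (y - ∑ j, β (e j) y • e' j) = r := by
      rw [map_sub, map_sum]
      simp only [map_smul, h1, smul_zero, Finset.sum_const_zero, sub_zero]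
      simp [hx', hr]
    rw [hy', map_smul, this, smul_eq_mul, inv_mul_cancel₀ hr0]
  have hp' : p (ρ + 1) := by
    refine ⟨Fin.cons x' e, Fin.cons y' e', ?_, ?_, ?_⟩
    · intro j
      refine Fin.cases ?_ (fun j => ?_) j
      · exact U.sub_mem hx (U.sum_mem fun j _ => U.smul_mem _ (he j))
      · exact he j
    · intro j
      refine Fin.cases ?_ (fun j => ?_) j
      · exact U'.smul_mem _ (U'.sub_mem hy (U'.sum_mem fun j _ => U'.smul_mem _ (he' j)))
      · exact he' j
    · intro i j
      refine Fin.cases ?_ (fun i => ?_) i <;> refine Fin.cases ?_ (fun j => ?_) j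
      · simpa using h3
      · simpa [(Fin.succ_ne_zero j).symm] using h1 j
      · simpa using h2 i
      · simpa using hd i j
  have hle : ρ + 1 ≤ N := by
    obtain ⟨f, f', hf, hf', hfd⟩ := hp'
    exact hN _ f f' hf hf' hfd
  have := Nat.le_findGreatest hle hp'
  omega

/-- A family with a dual family is linearly independent. -/
theorem linInd_of_dual {F M ι : Type*} [Field F] [AddCommGroup M] [Module F M] [DecidableEq ι]
    (v : ι → M) (φ : ι → M →ₗ[F] F) (h : ∀ i j, φ j (v i) = if i = j then 1 else 0) :
    LinearIndependent F v := by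
  rw [linearIndependent_iff']
  intro s g hg i hi
  have := congrArg (φ i) hg
  simpa [map_sum, h, hi] using this

/-- A multilinear map that does not vanish at a point of a product of spans does not vanish at
some tuple of generators. -/
theorem multilinear_mem_span {F M N ι : Type*} [Field F] [AddCommGroup M] [Module F M]
    [AddCommGroup N] [Module F N] [Fintype ι] [DecidableEq ι]
    (Ψ : MultilinearMap F (fun _ : ι => M) N) (S : ι → Set M) (T : Submodule F N)
    (hT : ∀ b : ι → M, (∀ k, b k ∈ S k) → Ψ b ∈ T) (y : ι → M)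
    (hy : ∀ k, y k ∈ Submodule.span F (S k)) : Ψ y ∈ T := by
  have key : ∀ s : Finset ι, ∀ y : ι → M, (∀ k, y k ∈ Submodule.span F (S k)) →
      (∀ k, k ∉ s → y k ∈ S k) → Ψ y ∈ T := by
    intro s
    induction s using Finset.induction_on with
    | empty => intro y _ h; exact hT y fun k => h k (by simp)
    | insert a s ha ih =>
      intro y hy h
      have : ∀ z ∈ Submodule.span F (S a), Ψ (Function.update y a z) ∈ T := by
        intro z hz
        induction hz using Submodule.span_induction with
        | mem z hz =>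
          apply ih
          · intro k
            by_cases hk : k = a
            · subst hk; simpa using Submodule.subset_span hz
            · simpa [Function.update_of_ne hk] using hy k
          · intro k hk
            by_cases hka : k = a
            · subst hka; simpa using hz
            · rw [Function.update_of_ne hka]; exact h k (by simp [hka, hk])
        | zero => rw [Ψ.map_update_zero]; exact T.zero_mem
        | add z w _ _ hz hw => rw [Ψ.map_update_add]; exact T.add_mem hz hw
        | smul c z _ hz => rw [Ψ.map_update_smul]; exact T.smul_mem c hz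
      simpa using this (y a) (hy a)
  exact key Finset.univ y hy (by simp)

/-- One slot: a linear form positive at positive rational points is positive at positive real
points. -/
theorem pos_of_pos_rat (α β : ℝ) (h : ∀ p q : ℚ, 0 < p → 0 < q → 0 < (p : ℝ) * α + q * β)
    (x y : ℝ) (hx : 0 < x) (hy : 0 < y) : 0 < x * α + y * β := by
  have key : ∀ α β : ℝ, (∀ p q : ℚ, 0 < p → 0 < q → 0 < (p : ℝ) * α + q * β) → 0 ≤ α := by
    intro α β h
    by_contra hα
    push Not at hα
    obtain ⟨q, hq0, hq⟩ := exists_pos_rat_lt (x := -α / (|β| + 1)) (by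
      apply div_pos <;> [linarith; positivity])
    have h1 := h 1 q one_pos hq0
    have hq0' : (0 : ℝ) < q := by exact_mod_cast hq0
    rw [lt_div_iff₀ (by positivity)] at hq
    have := le_abs_self β
    push_cast at h1
    nlinarith
  have hα := key α β h
  have hβ := key β α fun p q hp hq => by have := h q p hq hp; linarith
  have h1 := h 1 1 one_pos one_pos
  push_cast at h1
  rcases hα.eq_or_lt with h0 | h0
  · have : 0 < β := by linarith
    rw [← h0]; positivity
  · positivity

/-- A function of `E` pairs of reals, linear in each pair, with non-zero rational values at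
positive rational tuples, does not vanish at positive real tuples. -/
theorem ne_zero_of_rat {ι : Type*} [Fintype ι] [DecidableEq ι] (Φ : (ι → ℝ × ℝ) → ℝ)
    (hlin : ∀ x l, ∃ α β : ℝ, ∀ z : ℝ × ℝ, Φ (Function.update x l z) = z.1 * α + z.2 * β)
    (hrat : ∀ a : ι → ℚ × ℚ, (∀ l, 0 < (a l).1 ∧ 0 < (a l).2) →
      ∃ q : ℚ, q ≠ 0 ∧ Φ (fun l => (((a l).1 : ℝ), ((a l).2 : ℝ))) = q)
    (x : ι → ℝ × ℝ) (hx : ∀ l, 0 < (x l).1 ∧ 0 < (x l).2) : Φ x ≠ 0 := by
  let c : (ι → ℚ × ℚ) → ι → ℝ × ℝ := fun a l => (((a l).1 : ℝ), ((a l).2 : ℝ))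
  have hc : ∀ a l z, c (Function.update a l z) = Function.update (c a) l ((z.1 : ℝ), (z.2 : ℝ)) := by
    intro a l z
    funext l'
    by_cases h : l' = l
    · subst h; simp [c]
    · simp [c, Function.update_of_ne h]
  let a₀ : ι → ℚ × ℚ := fun _ => (1, 1)
  set ε := Φ (c a₀) with hε
  have hε0 : ε ≠ 0 := by
    obtain ⟨q, hq, h⟩ := hrat a₀ (by simp [a₀])
    rw [hε]; change Φ (c a₀) = q at h; rw [h]; exact_mod_cast hq
  -- step A
  have hA : ∀ s : Finset ι, ∀ a : ι → ℚ × ℚ, (∀ l, 0 < (a l).1 ∧ 0 < (a l).2) →
      (∀ l, l ∉ s → a l = (1, 1)) → 0 < ε * Φ (c a) := by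
    intro s
    induction s using Finset.induction_on with
    | empty =>
      intro a _ h
      have : a = a₀ := funext fun l => h l (by simp)
      rw [this, ← hε]; exact mul_self_pos.mpr hε0
    | insert l s hl ih =>
      intro a ha h
      have hpos : ∀ z : ℚ × ℚ, 0 < z.1 → 0 < z.2 →
          ∀ l', 0 < (Function.update a l z l').1 ∧ 0 < (Function.update a l z l').2 := by
        intro z h1 h2 l'
        by_cases h : l' = l
        · subst h; simp [h1, h2]
        · simpa [Function.update_of_ne h] using ha l'
      have h1 := ih (Function.update a l (1, 1)) (hpos _ one_pos one_pos) (by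
        intro l' hl'
        by_cases h' : l' = l
        · subst h'; simp
        · rw [Function.update_of_ne h']; exact h l' (by simp [h', hl']))
      obtain ⟨α, β, hαβ⟩ := hlin (c a) l
      obtain ⟨p, hp0, hp⟩ := hrat _ (hpos (1, 1) one_pos one_pos)
      obtain ⟨p', hp0', hp'⟩ := hrat a ha
      change Φ (c _) = p at hp
      change Φ (c _) = p' at hp'
      rw [hp] at h1
      rw [hp']
      by_contra hneg
      push Not at hneg
      have hpp : p * p' < 0 := by
        have h2 : (p' : ℝ) ≠ 0 := by exact_mod_cast hp0'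
        have h3 : ε * p' < 0 := lt_of_le_of_ne hneg (mul_ne_zero hε0 h2)
        have h4 : (p : ℝ) * p' < 0 := by
          have h5 := mul_neg_of_pos_of_neg h1 h3
          have h6 : 0 < ε * ε := mul_self_pos.mpr hε0
          by_contra h7
          push Not at h7
          nlinarith
        exact_mod_cast h4
      have e1 : α + β = p := by
        rw [hc, hαβ] at hp
        simpa using hp
      have e2 : ((a l).1 : ℝ) * α + (a l).2 * β = p' := by
        have := hαβ (((a l).1 : ℝ), ((a l).2 : ℝ))
        rw [← hc, Function.update_eq_self, hp'] at this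
        exact this.symm
      obtain ⟨q, hq0, hq⟩ := hrat _ (hpos (|p'| + |p| * (a l).1, |p'| + |p| * (a l).2)
        (by have := (ha l).1; positivity) (by have := (ha l).2; positivity))
      change Φ (c _) = q at hq
      rw [hc, hαβ] at hq
      have e3 : (|p'| * p + |p| * p' : ℚ) = 0 := by
        rcases lt_or_gt_of_ne hp0 with h | h
        · have : 0 < p' := by nlinarith
          rw [abs_of_pos this, abs_of_neg h]; ring
        · have : p' < 0 := by nlinarith
          rw [abs_of_pos h, abs_of_neg this]; ring
      have e4 : (q : ℝ) = ((|p'| * p + |p| * p' : ℚ) : ℝ) := by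
        rw [← hq]; push_cast; rw [← e1, ← e2]; ring
      rw [e3] at e4
      exact hq0 (by exact_mod_cast e4)
  -- step B
  have hB : ∀ s : Finset ι, ∀ x : ι → ℝ × ℝ, (∀ l, 0 < (x l).1 ∧ 0 < (x l).2) →
      (∀ l, l ∉ s → ∃ z : ℚ × ℚ, x l = ((z.1 : ℝ), (z.2 : ℝ))) → 0 < ε * Φ x := by
    intro s
    induction s using Finset.induction_on with
    | empty =>
      intro x hx h
      choose a ha using fun l => h l (by simp)
      have hxa : x = c a := funext ha
      rw [hxa]
      refine hA Finset.univ a (fun l => ?_) (by simp)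
      have := hx l
      rw [ha l] at this
      simpa using this
    | insert l s hl ih =>
      intro x hx h
      obtain ⟨α, β, hαβ⟩ := hlin x l
      have := pos_of_pos_rat (ε * α) (ε * β) (fun p q hp hq => by
        have := ih (Function.update x l ((p : ℝ), (q : ℝ))) (by
          intro l'
          by_cases h : l' = l
          · subst h; simp [hp, hq]
          · simpa [Function.update_of_ne h] using hx l') (by
          intro l' hl'
          by_cases h' : l' = l
          · subst h'; exact ⟨(p, q), by simp⟩
          · rw [Function.update_of_ne h']; exact h l' (by simp [h', hl']))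
        rw [hαβ] at this
        linarith) _ _ (hx l).1 (hx l).2
      have h2 := hαβ (x l)
      rw [Function.update_eq_self] at h2
      rw [h2]; linarith
  intro h0
  have := hB Finset.univ x hx (by simp)
  rw [h0] at this
  simp at this

end Pool.Agent.Work.MP_ffcd14_ag
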