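import Pool.Agent.Work.MP_ffcd14_ag.Mixed
import Pool.Agent.Work.MP_ffcd14_ag.Indep

/-! # From a Weil cohomology to the abstract setting -/

open MvPolynomial

namespace Pool.Agent.Work.MP_ffcd14_ag

set_option linter.unusedSectionVars false

universe u v w

variable {k : Type u} [Field k] {K : Type v} [Field K] {C : Coh.{u, v, w} k K} {P Q : Amb}

/-- The even part of the cohomology ring. -/
def Coh.evenSub (C : Coh.{u, v, w} k K) (X : Var k P) : Subalgebra K (C.H X) :=
  Submodule.toSubalgebra (⨆ c, C.gr X (2 * c))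
    (Submodule.mem_iSup_of_mem 0 (SetLike.one_mem_graded (C.gr X))) (by
      intro x y hx hy
      induction hx using Submodule.iSup_induction' with
      | zero => simp
      | add x x' _ _ h h' => rw [add_mul]; exact Submodule.add_mem _ h h'
      | mem c x hx =>
        induction hy using Submodule.iSup_induction' with
        | zero => simp
        | add y y' _ _ h h' => rw [mul_add]; exact Submodule.add_mem _ h h'
        | mem c' y hy =>
          refine Submodule.mem_iSup_of_mem (c + c') ?_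
          rw [mul_add]
          exact SetLike.GradedMul.mul_mem hx hy)

/-- The even part of the cohomology ring, as a type. -/
def Ev (_ : C.IsWeil) (X : Var k P) : Type w := C.evenSub X

variable (hC : C.IsWeil)

instance (X : Var k P) : CommRing (Ev hC X) :=
  { (inferInstance : Ring (C.evenSub X)) with
    mul_comm := by
      rintro ⟨x, hx⟩ ⟨y, hy⟩
      refine Subtype.ext ?_
      change x * y = y * x
      induction hx using Submodule.iSup_induction' with
      | zero => simp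
      | add x x' _ _ h h' => rw [add_mul, mul_add, h, h']
      | mem c x hx => exact hC.even_comm X hx y }

instance (X : Var k P) : Algebra K (Ev hC X) := inferInstanceAs (Algebra K (C.evenSub X))

/-- The inclusion of the even part. -/
def Ev.val (X : Var k P) : Ev hC X →ₐ[K] C.H X := (C.evenSub X).val

theorem Ev.val_inj (X : Var k P) : Function.Injective (Ev.val hC X) := Subtype.val_injective

/-- An even class as an element of the even part. -/
def Ev.mk {X : Var k P} {c : ℕ} (x : C.H X) (hx : x ∈ C.gr X (2 * c)) : Ev hC X :=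
  ⟨x, Submodule.mem_iSup_of_mem (p := fun c => C.gr X (2 * c)) c hx⟩

@[simp] theorem Ev.val_mk {X : Var k P} {c : ℕ} (x : C.H X) (hx : x ∈ C.gr X (2 * c)) :
    Ev.val hC X (Ev.mk hC x hx) = x := rfl

instance (X : Var k P) : Module.Finite K (Ev hC X) :=
  have := hC.fin X
  Module.Finite.of_injective (Ev.val hC X).toLinearMap (Ev.val_inj hC X)

/-- Pull-back on even parts. -/
def Ev.pull {X : Var k P} {Y : Var k Q} (φ : Hom X Y) : Ev hC Y →ₐ[K] Ev hC X :=
  ((C.pull φ).comp (Ev.val hC Y)).codRestrict (C.evenSub X) (by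
    rintro ⟨y, hy⟩
    change C.pull φ y ∈ C.evenSub X
    induction hy using Submodule.iSup_induction' with
    | zero => simp
    | add x x' _ _ h h' => rw [map_add]; exact add_mem h h'
    | mem c x hx =>
      exact Submodule.mem_iSup_of_mem (p := fun c => C.gr X (2 * c)) c (hC.pull_gr φ _ x hx))

theorem Ev.val_pull {X : Var k P} {Y : Var k Q} (φ : Hom X Y) (y : Ev hC Y) :
    Ev.val hC X (Ev.pull hC φ y) = C.pull φ (Ev.val hC Y y) := rfl

theorem Ev.val_prod {X : Var k P} {R : ℕ} (x : Fin R → Ev hC X) :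
    Ev.val hC X (∏ j, x j) = (List.ofFn fun j => Ev.val hC X (x j)).prod := by
  rw [← List.prod_ofFn, map_list_prod, List.map_ofFn]; rfl

variable [CharZero K]

noncomputable instance (X : Var k P) : Algebra ℚ (Ev hC X) :=
  ((algebraMap K (Ev hC X)).comp (algebraMap ℚ K)).toAlgebra

instance (X : Var k P) : IsScalarTower ℚ K (Ev hC X) := IsScalarTower.of_algebraMap_eq' rfl

theorem Ev.val_qsmul {X : Var k P} (q : ℚ) (x : Ev hC X) :
    Ev.val hC X (q • x) = (q : K) • Ev.val hC X x := by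
  rw [← map_smul, Rat.cast_smul_eq_qsmul]

/-- The abstract data attached to `X`. -/
noncomputable def base (X : Var k P) (A : ℕ → AddSubgroup (C.H X)) (hA : ∀ c, A c ≤ C.Alg X c)
    (hmul : ∀ c c', ∀ x ∈ A c, ∀ y ∈ A c', x * y ∈ A (c + c'))
    (hq : ∀ c (q : ℚ), ∀ x ∈ A c, (q : K) • x ∈ A c) : Base K (Ev hC X) where
  d := X.dim
  tr := C.tr X ∘ₗ (Ev.val hC X).toLinearMap
  G c := (C.gr X (2 * c)).comap (Ev.val hC X).toLinearMap
  A c :=
    { carrier := {x | Ev.val hC X x ∈ A c}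
      add_mem' := fun hx hy => by simpa using (A c).add_mem hx hy
      zero_mem' := by simp
      smul_mem' := fun q x hx => by simpa [Ev.val_qsmul] using hq c q _ hx }
  G_mul i j x hx y hy := by
    have := SetLike.GradedMul.mul_mem (A := C.gr X) hx hy
    rw [← mul_add] at this
    simpa using this
  tr_G i x hx hi := hC.tr_gr X _ _ hx (by omega)
  dual i x hx h := by
    refine Ev.val_inj hC X ((hC.duality' X _ fun j y hy => ?_).trans (map_zero _).symm)
    obtain ⟨c, rfl | rfl⟩ := Nat.even_or_odd' j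
    · simpa using h c (Ev.mk hC y hy) hy
    · exact hC.tr_gr X _ _ (SetLike.GradedMul.mul_mem (A := C.gr X) hx hy) (by omega)
  A_le c x hx := hC.alg_gr X c _ (hA c hx)
  A_mul i j x hx y hy := by simpa using hmul i j _ hx _ hy
  A_tr c x hx := hC.alg_tr X c _ (hA c hx)

@[simp] theorem base_tr (X : Var k P) (A : ℕ → AddSubgroup (C.H X)) (hA : ∀ c, A c ≤ C.Alg X c)
    (hmul : ∀ c c', ∀ x ∈ A c, ∀ y ∈ A c', x * y ∈ A (c + c'))
    (hq : ∀ c (q : ℚ), ∀ x ∈ A c, (q : K) • x ∈ A c) (x : Ev hC X) :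
    (base hC X A hA hmul hq).tr x = C.tr X (Ev.val hC X x) := rfl

include hC in
theorem Coh.IsWeil.hard_ample {X : Var k P} {l : C.H X} (hl : C.Ample X l) (i e : ℕ)
    (hie : i + e = X.dim) (x : C.H X) (hx : x ∈ C.gr X i) (h0 : l ^ e * x = 0) : x = 0 := by
  obtain ⟨m, Q, Y, φ, ψ, a, -, hd, h1, h2, ha, hm⟩ := hl
  have e1 : ∀ y, C.pull ψ (C.pull φ y) = y := fun y => by
    rw [← hC.pull_comp ψ φ (φ.comp ψ) (fun _ => rfl), hC.pull_id (φ.comp ψ) h2]
  have e2 : ∀ y, C.pull φ (C.pull ψ y) = y := fun y => by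
    rw [← hC.pull_comp φ ψ (ψ.comp φ) (fun _ => rfl), hC.pull_id (ψ.comp φ) h1]
  have := hC.hard Y a ha i e (by omega) _ (hC.pull_gr ψ i x hx) (by
    rw [← e1 (C.L Y a), ← hm, ← map_pow, ← map_mul, smul_pow, smul_mul_assoc, h0, smul_zero,
      map_zero])
  rw [← e2 x, this, map_zero]

theorem Coh.L_lin (X : Var k P) (n n' : ℕ) (a a' : P.ι →₀ ℕ) :
    C.L X (n • a + n' • a') = n • C.L X a + n' • C.L X a' := by
  simp only [Coh.L_eq, map_add, map_nsmul]

theorem power [Infinite k] (X : Var k P) (A : ℕ → AddSubgroup (C.H X)) (hA : ∀ c, A c ≤ C.Alg X c)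
    (hmul : ∀ c c', ∀ x ∈ A c, ∀ y ∈ A c', x * y ∈ A (c + c'))
    (hq : ∀ c (q : ℚ), ∀ x ∈ A c, (q : K) • x ∈ A c) (l l' : Ev hC X)
    (hl : C.Ample X (Ev.val hC X l)) (hl' : C.Ample X (Ev.val hC X l')) :
    (base hC X A hA hmul hq).Power l l' := by
  intro R
  obtain ⟨m, Q, Y, φ, ψ, a, hm0, hd, h1, h2, ha, hm⟩ := hl
  obtain ⟨m', Q', Y', φ', ψ', a', hm0', -, -, -, ha', hm'⟩ := hl'
  let θ := φ'.comp ψ
  let ρ : Hom θ.graph X := ψ.comp θ.graphFst
  let Z := Var.pi fun _ : Fin R => θ.graph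
  let p : Fin R → Hom Z θ.graph := Hom.proj fun _ : Fin R => θ.graph
  let π : Fin R → Ev hC X →ₐ[K] Ev hC Z := fun j => (Ev.pull hC (p j)).comp (Ev.pull hC ρ)
  refine ⟨Ev hC Z, inferInstance, inferInstance, π, C.tr Z ∘ₗ (Ev.val hC Z).toLinearMap,
    fun x => ?_, fun E n b hb hE w hw h0 => ?_⟩
  · have := hC.tr_pi (fun _ : Fin R => θ.graph) Z p rfl (fun _ _ _ => rfl)
      fun j => C.pull ρ (Ev.val hC X (x j))
    simp only [hC.tr_iso ρ (θ.graphInv.comp φ) (fun z => by
      change θ.graphInv.toFun (φ.toFun (ψ.toFun _)) = z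
      rw [h2, θ.graphInv_fst]) h1] at this
    simp only [LinearMap.comp_apply, AlgHom.toLinearMap_apply, Ev.val_prod]
    exact this
  · have e1 : C.pull ρ (m • Ev.val hC X l) = C.L θ.graph (a.mapDomain Sum.inl) := by
      rw [hm, ← hC.pull_comp ρ φ θ.graphFst (fun z => (h2 _).symm)]
      exact Coh.pull_L θ.graphFst (Sum.inl : Q.ι → (Q.sum Q').ι) (fun j =>
        hC.pull_hyp θ.graphFst j (Sum.inl j : (Q.sum Q').ι) (fun s => s)
        fun x => blk_mk x.1 (Sum.inl j : (Q.sum Q').ι)) a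
    have e2 : C.pull ρ (m' • Ev.val hC X l') = C.L θ.graph (a'.mapDomain Sum.inr) := by
      rw [hm', ← hC.pull_comp ρ φ' θ.graphSnd θ.graphSnd_eq]
      exact Coh.pull_L θ.graphSnd (Sum.inr : Q'.ι → (Q.sum Q').ι) (fun j =>
        hC.pull_hyp θ.graphSnd j (Sum.inr j : (Q.sum Q').ι) (fun s => s)
        fun x => blk_mk x.1 (Sum.inr j : (Q.sum Q').ι)) a'
    have e3 : ∀ j c, C.pull (p j) (C.L θ.graph c) = C.L Z (c.mapDomain (Sigma.mk j)) :=
      fun j c => Coh.pull_L (p j) (Sigma.mk j : _ → (Amb.pi fun _ : Fin R => Q.sum Q').ι)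
        (fun i => hC.pull_hyp (p j) i (⟨j, i⟩ : (Amb.pi fun _ : Fin R => Q.sum Q').ι) (fun s => s)
        fun x => blk_mk x.1 (⟨j, i⟩ : (Amb.pi fun _ : Fin R => Q.sum Q').ι)) c
    have key : ∀ i, ∃ (N : ℕ) (c : (Amb.pi fun _ : Fin R => Q.sum Q').ι →₀ ℕ), 0 < N ∧
        (∀ s, 0 < c s) ∧ Ev.val hC Z (N • ∑ j, π j ((b i).1 • l + (b i).2 • l')) = C.L Z c := by
      intro i
      obtain ⟨h1, h2⟩ := hb i
      generalize (b i).1 = q at h1
      generalize (b i).2 = q' at h2
      let c₀ : (Q.sum Q').ι →₀ ℕ := (q.num.natAbs * q'.den * m') • a.mapDomain Sum.inl +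
        (q'.num.natAbs * q.den * m) • a'.mapDomain Sum.inr
      have hn : 0 < q.num.natAbs := Int.natAbs_pos.mpr (Rat.num_pos.mpr h1).ne'
      have hn' : 0 < q'.num.natAbs := Int.natAbs_pos.mpr (Rat.num_pos.mpr h2).ne'
      have hc₀ : ∀ s, 0 < c₀ s := by
        have := q.den_pos
        have := q'.den_pos
        rintro (s | s)
        · refine Nat.add_pos_left ?_ _
          rw [Finsupp.smul_apply, Finsupp.mapDomain_apply Sum.inl_injective]
          have := ha s
          positivity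
        · refine Nat.add_pos_right _ ?_
          rw [Finsupp.smul_apply, Finsupp.mapDomain_apply Sum.inr_injective]
          have := ha' s
          positivity
      refine ⟨q.den * q'.den * m * m', ∑ j, c₀.mapDomain (Sigma.mk j), ?_, ?_, ?_⟩
      · have := q.den_pos
        have := q'.den_pos
        positivity
      · rintro ⟨j, s⟩
        rw [Finsupp.finsetSum_apply]
        refine lt_of_lt_of_le ?_ (Finset.single_le_sum (fun _ _ => Nat.zero_le _)
          (Finset.mem_univ j))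
        exact lt_of_lt_of_eq (hc₀ s) (Finsupp.mapDomain_apply
          (sigma_mk_injective (β := fun _ : Fin R => (Q.sum Q').ι) (i := j)) c₀ s).symm
      · have e4 : (q.den * q'.den * m * m') • (q • l + q' • l') =
            (q.num.natAbs * q'.den * m') • m • l + (q'.num.natAbs * q.den * m) • m' • l' := by
          have f1 : (q.num.natAbs : ℚ) = q * q.den := by
            rw [Rat.mul_den_eq_num, ← Int.cast_natCast,
              Int.natAbs_of_nonneg (Rat.num_pos.mpr h1).le]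
          have f2 : (q'.num.natAbs : ℚ) = q' * q'.den := by
            rw [Rat.mul_den_eq_num, ← Int.cast_natCast,
              Int.natAbs_of_nonneg (Rat.num_pos.mpr h2).le]
          simp only [← Nat.cast_smul_eq_nsmul ℚ, smul_add, smul_smul, Nat.cast_mul, f1, f2]
          congr 2 <;> ring
        rw [Finset.smul_sum, map_sum, Coh.L_eq, map_sum]
        refine Finset.sum_congr rfl fun j _ => ?_
        rw [← map_nsmul, e4, ← Coh.L_eq, ← e3]
        change C.pull (p j) (C.pull ρ (Ev.val hC X _)) = _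
        congr 1
        simp only [map_add, map_nsmul] at e1 e2 ⊢
        rw [e1, e2]
        exact (Coh.L_lin θ.graph _ _ _ _).symm
    choose N c hN hc hc' using key
    have hwg : Ev.val hC Z w ∈ C.gr Z (2 * n) := by
      clear h0
      induction hw using Submodule.span_induction with
      | zero => simp
      | add x y _ _ hx hy => rw [map_add]; exact Submodule.add_mem _ hx hy
      | smul r x _ hx => rw [map_smul]; exact Submodule.smul_mem _ _ hx
      | mem z hz =>
        obtain ⟨d, x, hx, rfl, rfl⟩ := hz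
        induction (Finset.univ : Finset (Fin R)) using Finset.induction_on with
        | empty => simpa using SetLike.one_mem_graded (C.gr Z)
        | insert j s hj ih =>
          rw [Finset.prod_insert hj, Finset.sum_insert hj, map_mul, mul_add]
          exact SetLike.GradedMul.mul_mem (hC.pull_gr _ _ _ (hC.pull_gr _ _ _
            (hC.alg_gr X _ _ (hA _ (hx j))))) ih
    refine Ev.val_inj hC Z ((hC.mixed (List.ofFn c) (by simpa using hc) Z (2 * n) ?_ _ hwg ?_).trans
      (map_zero _).symm)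
    · change _ = ∑ _ : Fin R, Y.dim
      change 2 * n + E = R * X.dim at hE
      simp [hd, hE]
    · rw [List.map_ofFn]
      have : (C.L Z ∘ c) = fun i =>
          Ev.val hC Z (N i • ∑ j, π j ((b i).1 • l + (b i).2 • l')) := funext fun i => (hc' i).symm
      rw [this, ← Ev.val_prod, ← map_mul, Finset.prod_smul, smul_mul_assoc, h0, smul_zero,
        map_zero]

theorem hdg_iff (X : Var k P) (A : ℕ → AddSubgroup (C.H X)) (hA : ∀ c, A c ≤ C.Alg X c)
    (hmul : ∀ c c', ∀ x ∈ A c, ∀ y ∈ A c', x * y ∈ A (c + c'))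
    (hq : ∀ c (q : ℚ), ∀ x ∈ A c, (q : K) • x ∈ A c) (l : Ev hC X) (n : ℕ) :
    Coh.Hdg A (Ev.val hC X l) n ↔ (base hC X A hA hmul hq).HR l n (X.dim - 2 * n) := by
  have hN : ∀ x, (base hC X A hA hmul hq).N0 x ↔ Coh.Num0 A (Ev.val hC X x) := fun x =>
    ⟨fun h c y hy => by simpa using h c (Ev.mk hC y (hC.alg_gr X c _ (hA c hy))) hy,
      fun h c y hy => by simpa using h c _ hy⟩
  constructor
  · intro H x hx h1 h2
    rw [hN] at h1 h2
    simpa using H _ hx (by simpa using h1) h2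
  · intro H x hx h1 h2
    simpa using H (Ev.mk hC x (hC.alg_gr X n _ (hA n hx))) hx
      ((hN _).mpr (by simpa using h1)) (mt (hN _).mp h2)

include hC in
theorem main [Infinite k] (X : Var k P) (A : ℕ → AddSubgroup (C.H X)) (hA : ∀ c, A c ≤ C.Alg X c)
    (hmul : ∀ c c', ∀ x ∈ A c, ∀ y ∈ A c', x * y ∈ A (c + c'))
    (hq : ∀ c (q : ℚ), ∀ x ∈ A c, (q : K) • x ∈ A c) (l l' : C.H X) (hl : C.Ample X l)
    (hl' : C.Ample X l') (h1 : l ∈ A 1) (h1' : l' ∈ A 1) (hL : Coh.LefA A l) (n : ℕ)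
    (hn : 2 * n ≤ X.dim) : Coh.Hdg A l n ↔ Coh.Hdg A l' n := by
  let S := base hC X A hA hmul hq
  let L := Ev.mk hC l (hC.alg_gr X 1 _ (hA 1 h1))
  let L' := Ev.mk hC l' (hC.alg_gr X 1 _ (hA 1 h1'))
  have hH : ∀ l : Ev hC X, C.Ample X (Ev.val hC X l) → S.HL l := fun l hl i e hie x hx h0 =>
    Ev.val_inj hC X ((hC.hard_ample hl _ e hie (Ev.val hC X x) hx (by
      rw [← map_pow, ← map_mul, h0, map_zero])).trans (map_zero _).symm)
  have hV := S.finrank_V (l := L) h1 (hH L hl) fun i e hie y hy => by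
    obtain ⟨x, hx, hxy⟩ := hL i e hie _ hy
    exact ⟨Ev.mk hC x (hC.alg_gr X i _ (hA i hx)), hx, Ev.val_inj hC X (by simpa [L] using hxy)⟩
  have hd : 2 * n + (X.dim - 2 * n) = S.d := Nat.add_sub_cancel' hn
  refine (hdg_iff hC X A hA hmul hq L n).trans (Iff.trans ⟨?_, ?_⟩
    (hdg_iff hC X A hA hmul hq L' n).symm)
  · exact S.HR_of_HR hV h1 h1' (hH L hl) (hH L' hl') (power hC X A hA hmul hq L L' hl hl') hd
  · exact S.HR_of_HR hV h1' h1 (hH L' hl') (hH L hl) (power hC X A hA hmul hq L' L hl' hl) hd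

omit [CharZero K] in
/-- The data of a Weil cohomology. -/
noncomputable def Weil.toCoh (C : Weil.{u, v, w} k K) : Coh.{u, v, w} k K where
  H := C.H
  gr X := (C.pd X).2.2.1.choose
  graded X := (C.pd X).2.2.1.choose_spec.1.some
  pull φ := (C.pull_hom φ).choose
  tr X := (C.pd X).2.1.mk' _
  cl := C.cl
  hyp := C.hyp

omit [CharZero K] in
theorem Weil.gr_iff (C : Weil.{u, v, w} k K) (X : Var k P) (i : ℕ) (x : C.H X) :
    x ∈ C.toCoh.gr X i ↔ C.deg X i x := ((C.pd X).2.2.1.choose_spec.2 i x).symm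

omit [CharZero K] in
theorem Weil.pull_eq (C : Weil.{u, v, w} k K) {X : Var k P} {Y : Var k Q} (φ : Hom X Y)
    (y : C.H Y) : C.toCoh.pull φ y = C.pull φ y := congrFun (C.pull_hom φ).choose_spec y

omit [CharZero K] in
theorem WeilL.isWeil (C : WeilL.{u, v, w} k K) : C.toCoh.IsWeil where
  fin X := (C.pd X).1
  comm X i j x hx y hy :=
    (C.pd X).2.2.2.1 i j x y ((C.gr_iff X i x).1 hx) ((C.gr_iff X j y).1 hy)
  pull_gr φ i y hy := by
    rw [C.pull_eq]; exact (C.gr_iff _ i _).2 (C.pull_gr φ i y ((C.gr_iff _ i y).1 hy))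
  pull_id φ h y := by rw [C.pull_eq]; exact C.pull_id φ h y
  pull_comp φ ψ χ h z := by rw [C.pull_eq, C.pull_eq, C.pull_eq]; exact C.pull_comp φ ψ χ h z
  tr_gr X i x hx := (C.pd X).2.2.2.2.1 i x ((C.gr_iff X i x).1 hx)
  duality X := (C.pd X).2.2.2.2.2
  tr_iso φ ψ h1 h2 y := by rw [C.pull_eq]; exact C.tr_iso φ ψ ⟨h1, h2⟩ y
  tr_pi X Y p h1 h2 x := by
    have := C.tr_pi X Y p h1 h2 x
    simp only [← C.pull_eq] at this
    exact this
  cl_tr j Z h1 h2 x := by rw [C.pull_eq]; exact C.cl_tr j Z h1 h2 x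
  alg_gr X c x hx := (C.gr_iff X _ x).2 (C.alg_gr X c x hx)
  alg_mul X c c' x hx y hy := C.alg_mul X c c' x y hx hy
  alg_pull φ c y hy := by rw [C.pull_eq]; exact C.alg_pull φ c y hy
  alg_tr := C.alg_tr
  hyp_alg := C.hyp_alg
  hyp_pull φ j a F h1 h2 := by rw [C.pull_eq]; exact C.hyp_pull φ j a F h1 h2
  sec_tr j a h1 h2 x := by rw [C.pull_eq]; exact C.sec_tr j a ⟨h1, h2⟩ x
  weak_inj j a h1 h2 ha i hi x hx h0 :=
    C.weak_inj j a ⟨h1, h2⟩ ha i hi x ((C.gr_iff _ i x).1 hx) ((C.pull_eq j x).symm.trans h0)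
  weak_surj j a h1 h2 ha i hi y hy := by
    obtain ⟨x, hx, e⟩ := C.weak_surj j a ⟨h1, h2⟩ ha i hi y ((C.gr_iff _ i y).1 hy)
    exact ⟨x, (C.gr_iff _ i x).2 hx, (C.pull_eq j x).trans e⟩
  hard X a ha i e h x hx := C.hard X a ha i e h x ((C.gr_iff X i x).1 hx)

omit [CharZero K] in
theorem Weil.ample (C : Weil.{u, v, w} k K) {X : Var k P} {l : C.H X} (h : C.Ample X l) :
    C.toCoh.Ample X l := by
  obtain ⟨m, Q, Y, φ, ψ, a, h1, h2, h3, h4, h5⟩ := h
  exact ⟨m, Q, Y, φ, ψ, a, h1, h2, h3.1, h3.2, h4, h5.trans (C.pull_eq φ _).symm⟩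

end Pool.Agent.Work.MP_ffcd14_ag
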