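import Pool.Agent.Work.MP_ffcd14_ag.Bertini

/-! # Inclusions, compositions and products -/

open MvPolynomial Topology Filter

namespace Pool.Agent.Work.MP_ffcd14_ag

universe u

variable {k : Type u} [Field k] {P Q S : Amb}

theorem blk_mk (y : P.Pt k) (i : P.ι) :
    ∃ h, y i = Projectivization.mk k (fun s => ev y (X (⟨i, s⟩ : P.V))) h := by
  simp only [ev_X]
  exact ⟨(y i).rep_nonzero, (Projectivization.mk_rep _).symm⟩

/-- The inclusion of a subvariety. -/
def Hom.incl {W X : Var k P} (h : W.pts ⊆ X.pts) : Hom W X where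
  toFun x := ⟨x.1, h x.2⟩
  reg _ j := ⟨Finsupp.single j 1, fun s => MvPolynomial.X ⟨j, s⟩, fun s => IsForm.X ⟨j, s⟩,
    Eventually.of_forall fun y => blk_mk y.1 j⟩

theorem exists_rep_eq {V : Type} {p : Projectivization k (V → k)} {v : V → k} {h : v ≠ 0}
    (hp : p = Projectivization.mk k v h) : ∃ c : k, c ≠ 0 ∧ ∀ s, p.rep s = c * v s := by
  obtain ⟨c, hc⟩ := Projectivization.exists_smul_eq_mk_rep k v h
  exact ⟨c, c.ne_zero, fun s => by rw [hp, ← hc]; rfl⟩

theorem Hom.loc {X : Var k P} {Y : Var k Q} (φ : Hom X Y) (x : X.pts) :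
    ∃ (b : Q.ι → P.ι →₀ ℕ) (F : Q.V → MvPolynomial P.V k), (∀ s, IsForm (F s) (b s.1)) ∧
      ∀ᶠ y in 𝓝 x, ∃ μ : Q.ι → k, (∀ j, μ j ≠ 0) ∧ ∀ g a, IsForm g a →
        ev (φ.toFun y).1 g = chi μ a * ev y.1 (aeval F g) := by
  choose b F hF h using φ.reg x
  refine ⟨b, fun s => F s.1 s.2, fun s => hF s.1 s.2, ?_⟩
  filter_upwards [eventually_all.mpr h] with y hy
  choose μ hμ hμ' using fun j => exists_rep_eq (hy j).choose_spec
  refine ⟨μ, hμ, fun g a hg => ?_⟩
  have h1 : rp (φ.toFun y).1 = fun s => μ s.1 * ev y.1 (F s.1 s.2) :=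
    funext fun s => hμ' s.1 s.2
  rw [ev_eq, h1, hg.eval_scale, ev_eq y.1 (aeval _ _)]
  congr 1
  exact (eval₂Hom_bind₁ (RingHom.id k) (rp y.1) _ g).symm

theorem Hom.continuous {X : Var k P} {Y : Var k Q} (φ : Hom X Y) : Continuous φ.toFun := by
  refine Continuous.subtype_mk (f := fun x => (φ.toFun x).1)
    (continuous_of_form fun x g a hg hx => ?_) _
  obtain ⟨b, F, hF, h⟩ := φ.loc x
  have h1 : ev x.1 (aeval F g) ≠ 0 := by
    obtain ⟨μ, -, hμ⟩ := h.self_of_nhds
    rw [hμ g a hg] at hx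
    exact right_ne_zero_of_mul hx
  filter_upwards [h, continuous_subtype_val.continuousAt.eventually
    (eventually_ne (hg.aeval hF) h1)] with y ⟨μ, hμ, hμ'⟩ hy
  rw [hμ' g a hg]
  exact mul_ne_zero (chi_ne_zero hμ a) hy

/-- Composition of morphisms. -/
def Hom.comp {X : Var k P} {Y : Var k Q} {Z : Var k S} (ψ : Hom Y Z) (φ : Hom X Y) : Hom X Z where
  toFun x := ψ.toFun (φ.toFun x)
  reg x j := by
    obtain ⟨b, F, hF, h⟩ := φ.loc x
    obtain ⟨a, G, hG, h'⟩ := ψ.reg (φ.toFun x) j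
    refine ⟨_, fun s => aeval F (G s), fun s => (hG s).aeval hF, ?_⟩
    filter_upwards [h, φ.continuous.continuousAt.eventually h'] with y ⟨μ, hμ, hμ'⟩ ⟨h1, h2⟩
    have h3 : chi μ a • (fun s => ev y.1 (aeval F (G s))) = fun s => ev (φ.toFun y).1 (G s) :=
      funext fun s => (hμ' _ _ (hG s)).symm
    refine ⟨fun h0 => h1 (by rw [← h3, h0, smul_zero]), ?_⟩
    rw [h2, Projectivization.mk_eq_mk_iff']
    exact ⟨_, h3⟩

/-- A projection of an ambient space onto some of its factors. -/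
structure Blk (k : Type u) [Field k] (P P' : Amb) where
  ε : P.V → P'.V
  ψ : P.ι → P'.ι
  fst : ∀ s, (ε s).1 = ψ s.1
  inj : Function.Injective ε
  pr : P'.Pt k → P.Pt k
  rp_pr : ∀ y s, rp (pr y) s = rp y (ε s)

namespace Blk

variable {P' : Amb} (β : Blk k P P')

theorem ev_rename (y : P'.Pt k) (f : MvPolynomial P.V k) :
    ev y (rename β.ε f) = ev (β.pr y) f := by
  rw [ev_eq, ev_eq, eval_rename]
  exact congrArg (fun v => eval v f) (funext fun s => (β.rp_pr y s).symm)

theorem form {f : MvPolynomial P.V k} {a : P.ι →₀ ℕ} (hf : IsForm f a) :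
    IsForm (rename β.ε f) (a.sum fun i n => n • Finsupp.single (β.ψ i) 1) := by
  rw [rename_eq_aeval]
  exact IsForm.aeval (b := fun i => Finsupp.single (β.ψ i) 1)
    (fun s => by simpa [← β.fst] using IsForm.X (β.ε s)) hf

theorem continuous : Continuous β.pr :=
  continuous_of_form fun x g a hg hx => by
    simpa only [β.ev_rename] using eventually_ne (x := x) (β.form hg) (by rwa [β.ev_rename])

theorem ev_pderiv (y : P'.Pt k) (f : MvPolynomial P.V k) (s : P.V) :
    ev y (pderiv (β.ε s) (rename β.ε f)) = ev (β.pr y) (pderiv s f) := by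
  rw [pderiv_rename β.inj, ev_rename]

end Blk

/-- The projection of a product onto a factor. -/
def Blk.pi {R : ℕ} (P : Fin R → Amb) (j : Fin R) : Blk k (P j) (Amb.pi P) where
  ε s := ⟨⟨j, s.1⟩, s.2⟩
  ψ i := ⟨j, i⟩
  fst _ := rfl
  inj := by
    rintro ⟨i, s⟩ ⟨i', s'⟩ h
    obtain ⟨h1, h2⟩ := Sigma.mk.inj h
    obtain rfl := eq_of_heq (Sigma.mk.inj h1).2
    obtain rfl := eq_of_heq h2
    rfl
  pr y i := y ⟨j, i⟩
  rp_pr _ _ := rfl

/-- The product of finitely many varieties. -/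
def Var.pi {R : ℕ} {P : Fin R → Amb} (X : ∀ j, Var k (P j)) : Var k (Amb.pi P) where
  pts := {y | ∀ j, (fun i => y ⟨j, i⟩) ∈ (X j).pts}
  dim := ∑ j, (X j).dim
  closed := by
    rw [Set.ofPred_forall]
    exact isClosed_iInter fun j => (X j).closed.preimage (Blk.pi P j).continuous
  smooth y hy := by
    classical
    choose κ f hc hL using fun j => (X j).smooth _ (hy j)
    have := fun j => (hL j).finite
    refine ⟨Σ j, κ j, fun c => rename (Blk.pi (k := k) P c.1).ε (f c.1 c.2), ?_, fun c => ?_, ?_, ?_⟩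
    · have h1 : Nat.card (Amb.pi P).V = ∑ j, Nat.card (P j).V := by
        rw [← Nat.card_sigma]
        exact Nat.card_congr (Equiv.sigmaAssoc fun j i => (P j).σ i)
      have h2 : Nat.card (Amb.pi P).ι = ∑ j, Nat.card (P j).ι := Nat.card_sigma
      rw [h1, h2, Nat.card_sigma, ← Finset.sum_add_distrib, ← Finset.sum_add_distrib]
      exact Finset.sum_congr rfl fun j _ => hc j
    · obtain ⟨a, ha⟩ := (hL c.1).1 c.2
      exact ⟨_, (Blk.pi P c.1).form ha⟩
    · filter_upwards [eventually_all.mpr fun j =>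
        ((Blk.pi P j).continuous.continuousAt (x := y)).eventually (hL j).2.1] with z hz
      simp only [Blk.ev_rename, Sigma.forall]
      exact forall_congr' hz
    · let _ := fun j => Fintype.ofFinite (κ j)
      rw [Fintype.linearIndependent_iff]
      rintro l hl ⟨j, c⟩
      refine Fintype.linearIndependent_iff.mp (hL j).2.2 (fun c => l ⟨j, c⟩) (funext fun s => ?_) c
      have := congrFun hl ((Blk.pi (k := k) P j).ε s)
      simp only [Finset.sum_apply, Pi.smul_apply, Pi.zero_apply] at this ⊢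
      rw [Fintype.sum_sigma, Finset.sum_eq_single j] at this
      · simp only [Blk.ev_pderiv] at this
        exact this
      · intro j' _ hj
        refine Finset.sum_eq_zero fun c _ => ?_
        rw [pderiv_rename_of_notMem]
        · simp [ev]
        · rintro ⟨s', hs'⟩
          exact hj (congrArg (fun v : (Amb.pi P).V => v.1.1) hs')
      · simp

/-- The projection of a product of varieties onto a factor. -/
def Hom.proj {R : ℕ} {P : Fin R → Amb} (X : ∀ j, Var k (P j)) (j : Fin R) :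
    Hom (Var.pi X) (X j) where
  toFun y := ⟨fun i => y.1 ⟨j, i⟩, y.2 j⟩
  reg _ i := ⟨Finsupp.single ⟨j, i⟩ 1, fun s => MvPolynomial.X ⟨⟨j, i⟩, s⟩,
    fun s => IsForm.X (P := Amb.pi P) ⟨⟨j, i⟩, s⟩,
    Eventually.of_forall fun y => blk_mk y.1 (⟨j, i⟩ : (Amb.pi P).ι)⟩

end Pool.Agent.Work.MP_ffcd14_ag
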