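import Mathlib

/-! # Matrix lemmas: deforming a non-degenerate form on a moving primitive subspace -/

open Matrix Finset Topology

namespace Pool.Agent.Work.MP_ffcd14_ag

set_option linter.unusedSectionVars false

variable {J J' : Type*} [Fintype J] [DecidableEq J] [Fintype J'] [DecidableEq J']

/-- The auxiliary matrix: `s Q` on the kernel of `Φ`, positive on a complement. -/
def Mt {F : Type*} [CommRing F] (s : F) (Q : Matrix J J F) (Q' : Matrix J' J' F)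
    (Φ : Matrix J' J F) : Matrix J J F :=
  s • (Q'.det ^ 2 • Q - Q'.det • (Φᵀ * Q'.adjugate * Φ)) + Φᵀ * Φ

theorem Mt_map {F G : Type*} [CommRing F] [CommRing G] (f : F →+* G) (s : F) (Q : Matrix J J F)
    (Q' : Matrix J' J' F) (Φ : Matrix J' J F) :
    (Mt s Q Q' Φ).map f = Mt (f s) (Q.map f) (Q'.map f) (Φ.map f) := by
  have h1 : (Q'.map f).det = f Q'.det := (RingHom.map_det f Q').symm
  have h2 : (Q'.map f).adjugate = Q'.adjugate.map f := (RingHom.map_adjugate f Q').symm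
  ext i j
  simp [Mt, h1, h2, Matrix.mul_apply]

theorem Mt_symm {F : Type*} [CommRing F] (s : F) {Q : Matrix J J F} {Q' : Matrix J' J' F}
    (Φ : Matrix J' J F) (hQ : Qᵀ = Q) (hQ' : Q'ᵀ = Q') : (Mt s Q Q' Φ)ᵀ = Mt s Q Q' Φ := by
  simp [Mt, transpose_add, transpose_sub, transpose_smul, transpose_mul, hQ, adjugate_transpose,
    hQ', Matrix.mul_assoc]

theorem Mt_quad {F : Type*} [CommRing F] (s : F) {Q : Matrix J J F} {Q' : Matrix J' J' F}
    {Φ : Matrix J' J F} {Λ : Matrix J J' F} (hQ : Qᵀ = Q) (hQ' : Q'ᵀ = Q') (h1 : Q * Λ = Φᵀ)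
    (h2 : Φ * Λ = Q') (x : J → F) :
    Φ *ᵥ (Q'.det • x - Λ *ᵥ (Q'.adjugate *ᵥ (Φ *ᵥ x))) = 0 ∧
      x ⬝ᵥ Mt s Q Q' Φ *ᵥ x =
        s * ((Q'.det • x - Λ *ᵥ (Q'.adjugate *ᵥ (Φ *ᵥ x))) ⬝ᵥ
          Q *ᵥ (Q'.det • x - Λ *ᵥ (Q'.adjugate *ᵥ (Φ *ᵥ x)))) + (Φ *ᵥ x) ⬝ᵥ (Φ *ᵥ x) := by
  set y := Φ *ᵥ x with hy
  set z := Q'.adjugate *ᵥ y with hz
  have hQz : Q' *ᵥ z = Q'.det • y := by
    rw [hz, mulVec_mulVec, mul_adjugate, smul_mulVec, one_mulVec]
  have hA : Φ *ᵥ (Q'.det • x - Λ *ᵥ z) = 0 := by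
    rw [mulVec_sub, mulVec_smul, mulVec_mulVec, h2, hQz, sub_self]
  refine ⟨hA, ?_⟩
  have hT : ∀ w : J' → F, x ⬝ᵥ Φᵀ *ᵥ w = y ⬝ᵥ w := by
    intro w
    rw [dotProduct_mulVec, vecMul_transpose]
  have hL : ∀ (w : J' → F) (v : J → F), (Λ *ᵥ w) ⬝ᵥ Q *ᵥ v = w ⬝ᵥ Φ *ᵥ v := by
    intro w v
    rw [dotProduct_mulVec, ← hQ, vecMul_transpose, mulVec_mulVec, h1, mulVec_transpose,
      dotProduct_mulVec]
  have e1 : x ⬝ᵥ Mt s Q Q' Φ *ᵥ x =
      s * (Q'.det ^ 2 * (x ⬝ᵥ Q *ᵥ x) - Q'.det * (y ⬝ᵥ z)) + y ⬝ᵥ y := by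
    rw [Mt, add_mulVec, smul_mulVec, sub_mulVec, smul_mulVec, smul_mulVec, dotProduct_add,
      dotProduct_smul, dotProduct_sub, dotProduct_smul, dotProduct_smul, ← mulVec_mulVec,
      ← mulVec_mulVec, ← mulVec_mulVec, hT, hT]
    simp only [smul_eq_mul]
    rfl
  rw [e1, sub_dotProduct, hL, hA, dotProduct_zero, sub_zero, smul_dotProduct, mulVec_sub,
    dotProduct_sub, mulVec_smul, dotProduct_smul, mulVec_mulVec, h1, hT]
  simp only [smul_eq_mul]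
  ring

theorem Mt_quad_prim {F : Type*} [CommRing F] (s : F) (Q : Matrix J J F) (Q' : Matrix J' J' F)
    {Φ : Matrix J' J F} {x : J → F} (hx : Φ *ᵥ x = 0) :
    x ⬝ᵥ Mt s Q Q' Φ *ᵥ x = s * Q'.det ^ 2 * (x ⬝ᵥ Q *ᵥ x) := by
  rw [Mt, add_mulVec, smul_mulVec, sub_mulVec, smul_mulVec, smul_mulVec, ← mulVec_mulVec,
    ← mulVec_mulVec, ← mulVec_mulVec, hx]
  simp [mul_assoc]

theorem Mt_ker {F : Type*} [Field F] {s : F} (hs : s ≠ 0) {Q : Matrix J J F} {Q' : Matrix J' J' F}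
    {Φ : Matrix J' J F} {Λ : Matrix J J' F} (hQ : Qᵀ = Q) (hQ' : Q'ᵀ = Q') (h1 : Q * Λ = Φᵀ)
    (h2 : Φ * Λ = Q') (hd : Q.det ≠ 0) (hd' : Q'.det ≠ 0) (x : J → F)
    (hx : Mt s Q Q' Φ *ᵥ x = 0) : x = 0 := by
  have h3 : Λᵀ * Q = Φ := by
    have := congrArg transpose h1
    rwa [transpose_mul, hQ, transpose_transpose] at this
  have h4 : Λᵀ * Φᵀ = Q' := by rw [← transpose_mul, h2, hQ']
  have h5 : Λᵀ * Mt s Q Q' Φ = Q' * Φ := by
    rw [Mt, Matrix.mul_add, Matrix.mul_smul, Matrix.mul_sub, Matrix.mul_smul, Matrix.mul_smul, h3,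
      ← Matrix.mul_assoc, ← Matrix.mul_assoc, ← Matrix.mul_assoc, h4, mul_adjugate]
    simp [smul_smul, sq]
  have h6 : Φ *ᵥ x = 0 := by
    apply Matrix.eq_zero_of_mulVec_eq_zero hd'
    rw [mulVec_mulVec, ← h5, ← mulVec_mulVec, hx, mulVec_zero]
  rw [Mt, add_mulVec, smul_mulVec, sub_mulVec, smul_mulVec, smul_mulVec, ← mulVec_mulVec,
    ← mulVec_mulVec, ← mulVec_mulVec, h6] at hx
  simp only [mulVec_zero, smul_zero, sub_zero, add_zero, smul_eq_zero, hs, false_or,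
    pow_eq_zero_iff (two_ne_zero), hd'] at hx
  exact Matrix.eq_zero_of_mulVec_eq_zero hd hx

theorem Mt_continuous {T : Type*} [TopologicalSpace T] (s : ℝ) {Q : T → Matrix J J ℝ}
    {Q' : T → Matrix J' J' ℝ} {Φ : T → Matrix J' J ℝ} (hQ : Continuous Q) (hQ' : Continuous Q')
    (hΦ : Continuous Φ) : Continuous fun t => Mt s (Q t) (Q' t) (Φ t) := by
  unfold Mt
  have h1 := hQ'.matrix_det
  have h2 := hQ'.matrix_adjugate
  have h3 := hΦ.matrix_transpose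
  exact (((h1.pow 2).smul hQ).sub (h1.smul ((h3.matrix_mul h2).matrix_mul hΦ))).const_smul s
    |>.add (h3.matrix_mul hΦ)

omit [DecidableEq J] in
/-- A symmetric positive semidefinite matrix with trivial kernel is positive definite. -/
theorem pos_of_nonneg_of_ker {M : Matrix J J ℝ} (hs : Mᵀ = M) (hk : ∀ x, M *ᵥ x = 0 → x = 0)
    (h : ∀ x, 0 ≤ x ⬝ᵥ M *ᵥ x) (x : J → ℝ) (hx : x ≠ 0) : 0 < x ⬝ᵥ M *ᵥ x := by
  classical
  have hP : M.PosSemidef := by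
    refine Matrix.PosSemidef.of_dotProduct_mulVec_nonneg ?_ (fun x => by simpa using h x)
    rw [Matrix.IsHermitian, conjTranspose_eq_transpose_of_trivial, hs]
  refine lt_of_le_of_ne (h x) fun h0 => hx (hk x ?_)
  exact (hP.dotProduct_mulVec_zero_iff x).mp (by simpa using h0.symm)

omit [DecidableEq J] in
/-- Positivity persists along a connected family of non-degenerate symmetric matrices. -/
theorem pos_of_deform {T : Type*} [TopologicalSpace T] [PreconnectedSpace T]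
    {M : T → Matrix J J ℝ} (hM : Continuous M) (hs : ∀ t, (M t)ᵀ = M t)
    (hk : ∀ t x, M t *ᵥ x = 0 → x = 0) (t₀ t₁ : T) (h : ∀ x, 0 ≤ x ⬝ᵥ M t₀ *ᵥ x)
    (x : J → ℝ) (hx : x ≠ 0) : 0 < x ⬝ᵥ M t₁ *ᵥ x := by
  let S : Set T := {t | ∀ x, 0 ≤ x ⬝ᵥ M t *ᵥ x}
  have hc : Continuous fun p : T × (J → ℝ) => p.2 ⬝ᵥ M p.1 *ᵥ p.2 :=
    continuous_snd.dotProduct ((hM.comp continuous_fst).matrix_mulVec continuous_snd)
  have hcl : IsClosed S := by
    have : S = ⋂ x, {t | 0 ≤ x ⬝ᵥ M t *ᵥ x} := by ext t; simp [S]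
    rw [this]
    exact isClosed_iInter fun x => isClosed_le continuous_const
      (hc.comp (continuous_id.prodMk continuous_const))
  have hop : IsOpen S := by
    rw [isOpen_iff_eventually]
    intro t ht
    have h1 : ∀ᶠ t' in 𝓝 t, ∀ y ∈ Metric.sphere (0 : J → ℝ) 1, 0 < y ⬝ᵥ M t' *ᵥ y := by
      apply (isCompact_sphere (0 : J → ℝ) 1).eventually_forall_of_forall_eventually
      intro y hy
      have hy0 : y ≠ 0 := by rintro rfl; simp at hy
      exact (hc.tendsto (t, y)).eventually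
        (lt_mem_nhds (pos_of_nonneg_of_ker (hs t) (hk t) ht y hy0))
    filter_upwards [h1] with t' ht' y
    by_cases hy : y = 0
    · simp [hy]
    · have hn : 0 < ‖y‖ := norm_pos_iff.mpr hy
      have := ht' (‖y‖⁻¹ • y) (by simp [norm_smul, hn.ne'])
      rw [mulVec_smul, dotProduct_smul, smul_dotProduct, smul_eq_mul, smul_eq_mul] at this
      have h2 : 0 < ‖y‖⁻¹ := inv_pos.mpr hn
      exact (pos_of_mul_pos_of_pos (pos_of_mul_pos_of_pos this h2) h2).le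
  have : S = Set.univ := (isClopen_iff.mp ⟨hcl, hop⟩).resolve_left
    (Set.nonempty_iff_ne_empty.mp ⟨t₀, h⟩)
  have h1 : t₁ ∈ S := this ▸ Set.mem_univ _
  exact pos_of_nonneg_of_ker (hs t₁) (hk t₁) h1 x hx
where
  pos_of_mul_pos_of_pos {a b : ℝ} (h : 0 < a * b) (ha : 0 < a) : 0 < b :=
    pos_of_mul_pos_left_aux h ha
  pos_of_mul_pos_left_aux {a b : ℝ} (h : 0 < a * b) (ha : 0 < a) : 0 < b :=
    (mul_pos_iff_of_pos_left ha).mp h

omit [DecidableEq J] in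
/-- A rational matrix which is nonnegative on rational vectors is nonnegative on real vectors. -/
theorem nonneg_real_of_rat (M : Matrix J J ℚ) (h : ∀ x, 0 ≤ x ⬝ᵥ M *ᵥ x) (x : J → ℝ) :
    0 ≤ x ⬝ᵥ (M.map (Rat.castHom ℝ)) *ᵥ x := by
  have hd : DenseRange (fun (y : J → ℚ) (j : J) => (y j : ℝ)) :=
    DenseRange.piMap fun _ => Rat.denseRange_cast
  refine hd.induction_on x ?_ ?_
  · exact isClosed_le continuous_const
      (continuous_id.dotProduct (continuous_const.matrix_mulVec continuous_id))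
  · intro y
    have : ((y ⬝ᵥ M *ᵥ y : ℚ) : ℝ) =
        (fun j => (y j : ℝ)) ⬝ᵥ (M.map (Rat.castHom ℝ)) *ᵥ fun j => (y j : ℝ) := by
      simp [dotProduct, mulVec]
    rw [← this]
    exact_mod_cast h y

end Pool.Agent.Work.MP_ffcd14_ag
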