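import Pool.Agent.Work.MP_ffcd14_ag.Graph

/-! # The mixed hard Lefschetz theorem for a Weil cohomology -/

open MvPolynomial

namespace Pool.Agent.Work.MP_ffcd14_ag

universe u v w

variable {k : Type u} [Field k] {K : Type v} [Field K] {C : Coh.{u, v, w} k K} {P Q : Amb}

theorem Coh.L_eq (X : Var k P) (a : P.ι →₀ ℕ) : C.L X a = Finsupp.weight (C.hyp X) a := rfl

theorem Coh.pull_L {X : Var k P} {Y : Var k Q} (φ : Hom X Y) (ψ : Q.ι → P.ι)
    (h : ∀ j, C.pull φ (C.hyp Y j) = C.hyp X (ψ j)) (a : Q.ι →₀ ℕ) :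
    C.pull φ (C.L Y a) = C.L X (a.mapDomain ψ) := by
  rw [Coh.L, Coh.L, Finsupp.sum_mapDomain_index (by simp) (by simp [add_smul]), map_finsuppSum]
  simp only [map_nsmul, h]

namespace Coh.IsWeil

variable (hC : C.IsWeil)
include hC

theorem L_alg (X : Var k P) (a : P.ι →₀ ℕ) : C.L X a ∈ C.Alg X 1 :=
  AddSubgroup.sum_mem _ fun i _ => AddSubgroup.nsmul_mem _ (hC.hyp_alg X i) _

theorem L_gr (X : Var k P) (a : P.ι →₀ ℕ) : C.L X a ∈ C.gr X 2 := hC.alg_gr X 1 _ (hC.L_alg X a)

theorem pull_hyp {X : Var k P} {Y : Var k Q} (φ : Hom X Y) (j : Q.ι) (i : P.ι)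
    (e : Q.σ j → P.σ i) (h : ∀ x, ∃ h, (φ.toFun x).1 j =
      Projectivization.mk k (fun s => ev x.1 (MvPolynomial.X ⟨i, e s⟩)) h) :
    C.pull φ (C.hyp Y j) = C.hyp X i := by
  rw [hC.hyp_pull φ j (Finsupp.single i 1) (fun s => MvPolynomial.X ⟨i, e s⟩)
    (fun s => IsForm.X ⟨i, e s⟩) h]
  simp [Coh.L]

theorem duality' (X : Var k P) (x : C.H X)
    (h : ∀ j, ∀ y ∈ C.gr X j, C.tr X (x * y) = 0) : x = 0 := by
  refine hC.duality X x fun y => ?_
  induction y using DirectSum.Decomposition.inductionOn (C.gr X) with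
  | zero => simp
  | homogeneous y => exact h _ y.1 y.2
  | add y z hy hz => rw [mul_add, map_add, hy, hz, add_zero]

theorem prod_L_gr (X : Var k P) (as : List (P.ι →₀ ℕ)) :
    (as.map (C.L X)).prod ∈ C.gr X (2 * as.length) := by
  induction as with
  | nil => exact SetLike.one_mem_graded (C.gr X)
  | cons a as ih =>
    have := SetLike.GradedMul.mul_mem (hC.L_gr X a) ih
    rwa [show 2 + 2 * as.length = 2 * (a :: as).length by simp; ring] at this

/-- Mixed hard Lefschetz. -/
theorem mixed [Infinite k] (as : List (P.ι →₀ ℕ)) (ha : ∀ a ∈ as, ∀ i, 0 < a i) (X : Var k P)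
    (i : ℕ) (hi : i + as.length = X.dim) (x : C.H X) (hx : x ∈ C.gr X i)
    (h0 : (as.map (C.L X)).prod * x = 0) : x = 0 := by
  induction as generalizing X with
  | nil => simpa using h0
  | cons a as ih =>
    have haa := ha a (by simp)
    rcases as with _ | ⟨b, as⟩
    · exact hC.hard X a haa i 1 hi x hx (by simpa using h0)
    · simp only [List.length_cons] at hi
      obtain ⟨W, hW⟩ := bertini X (d := i + (as.length + 1)) (by omega) haa
      have hd := hW.1
      have hsub : W.pts ⊆ X.pts := by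
        obtain ⟨-, f, -, hf, -⟩ := hW
        rw [hf]; exact Set.sep_subset _ _
      let j := Hom.incl hsub
      have hL : ∀ c, C.pull j (C.L X c) = C.L W c := fun c => by
        rw [Coh.pull_L j id fun i => hC.pull_hyp j i i id fun x => blk_mk x.1 i,
          Finsupp.mapDomain_id]
      have hp : C.pull j ((b :: as).map (C.L X)).prod = ((b :: as).map (C.L W)).prod := by
        rw [map_list_prod, List.map_map]
        exact congrArg (fun f => ((b :: as).map f).prod) (funext hL)
      refine hC.weak_inj j a (fun _ => rfl) hW haa i (by omega) x hx ?_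
      refine ih (fun c hc => ha c (List.mem_cons_of_mem _ hc)) W (by simp; omega) _
        (hC.pull_gr j i x hx) (hC.duality' W _ fun i' y hy => ?_)
      by_cases h : i' = i
      · subst h
        obtain ⟨z, -, rfl⟩ := hC.weak_surj j a (fun _ => rfl) hW haa i' (by omega) y hy
        rw [← hp, ← map_mul, ← map_mul, ← hC.sec_tr j a (fun _ => rfl) hW, ← mul_assoc,
          ← mul_assoc]
        rw [List.map_cons, List.prod_cons] at h0
        rw [h0, zero_mul, map_zero]
      · refine hC.tr_gr W _ _ (SetLike.GradedMul.mul_mem (SetLike.GradedMul.mul_mem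
          (hC.prod_L_gr W (b :: as)) (hC.pull_gr j i x hx)) hy) ?_
        simp only [List.length_cons]
        omega

theorem even_comm (X : Var k P) {c : ℕ} {x : C.H X} (hx : x ∈ C.gr X (2 * c)) (y : C.H X) :
    x * y = y * x := by
  induction y using DirectSum.Decomposition.inductionOn (C.gr X) with
  | zero => simp
  | homogeneous y => rw [hC.comm X _ _ x hx y.1 y.2]; simp [mul_assoc, pow_mul]
  | add y z hy hz => rw [mul_add, add_mul, hy, hz]

end Coh.IsWeil

end Pool.Agent.Work.MP_ffcd14_ag
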