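import Pool.Agent.Work.MP_ffcd14_ag.Lin

/-! # The alternating multilinear expression -/

open Matrix Finset

namespace Pool.Agent.Work.MP_ffcd14_ag

set_option linter.unusedSectionVars false

variable {F B ρ ε : Type*} [CommRing F] [CommRing B] [Algebra F B] [Fintype ρ] [DecidableEq ρ]
  [Fintype ε] [DecidableEq ε]

/-- The product of the `u l` sent to the slot `k` by `g`. -/
def Ug (u : ε → B) (g : ε → ρ) (k : ρ) : B := ∏ l ∈ univ.filter fun l => g l = k, u l

/-- The number `∫ (e₁ ∧ ⋯ ∧ e_R) · u₁ ⋯ u_E · (y₁ × ⋯ × y_R)` on the `R`-th power. -/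
def Psi (tr : B →ₗ[F] F) (e y : ρ → B) (u : ε → B) : F :=
  ∑ g : ε → ρ, (Matrix.of fun j k => tr (e j * Ug u g k * y k)).det

theorem Psi_formula {BR : Type*} [CommRing BR] [Algebra F BR] (tr : B →ₗ[F] F)
    (π : ρ → B →ₐ[F] BR) (trR : BR →ₗ[F] F)
    (h : ∀ x : ρ → B, trR (∏ k, π k (x k)) = ∏ k, tr (x k)) (e y : ρ → B) (u : ε → B) :
    trR ((∑ σ : Equiv.Perm ρ, Equiv.Perm.sign σ • ∏ k, π k (e (σ k))) * (∏ l, ∑ k, π k (u l)) *
      ∏ k, π k (y k)) = Psi tr e y u := by
  have h1 : (∏ l, ∑ k, π k (u l)) = ∑ g : ε → ρ, ∏ k, π k (Ug u g k) := by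
    rw [Finset.prod_univ_sum]
    simp only [Fintype.piFinset_univ]
    refine Finset.sum_congr rfl fun g _ => ?_
    simp only [Ug, map_prod]
    rw [← Finset.prod_fiberwise (s := univ) (g := g) (f := fun l => π (g l) (u l))]
    refine Finset.prod_congr rfl fun k _ => Finset.prod_congr rfl fun l hl => ?_
    rw [(Finset.mem_filter.mp hl).2]
  rw [h1, Finset.mul_sum, Finset.sum_mul, map_sum, Psi]
  refine Finset.sum_congr rfl fun g _ => ?_
  rw [Matrix.det_apply, Finset.sum_mul, Finset.sum_mul, map_sum]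
  refine Finset.sum_congr rfl fun σ _ => ?_
  rw [smul_mul_assoc, smul_mul_assoc, Units.smul_def, Units.smul_def, map_zsmul,
    ← Finset.prod_mul_distrib, ← Finset.prod_mul_distrib]
  simp only [← map_mul]
  rw [h]
  rfl

theorem Psi_perm (tr : B →ₗ[F] F) (e y : ρ → B) (u : ε → B) (τ : Equiv.Perm ρ) :
    Psi tr e (y ∘ τ) u = (Equiv.Perm.sign τ : ℤ) * Psi tr e y u := by
  rw [Psi, Psi, Finset.mul_sum]
  symm
  refine Fintype.sum_equiv (Equiv.arrowCongr (Equiv.refl ε) τ.symm) _ _ fun g => ?_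
  rw [← Matrix.det_permute']
  congr 1
  ext j k
  simp [Ug, Equiv.arrowCongr, Equiv.symm_apply_eq]

theorem Psi_eq_zero_of_eq [NoZeroDivisors F] [CharZero F] (tr : B →ₗ[F] F) (e y : ρ → B)
    (u : ε → B) {k k' : ρ} (hk : k ≠ k') (h : y k = y k') : Psi tr e y u = 0 := by
  have h1 := Psi_perm tr e y u (Equiv.swap k k')
  have h2 : y ∘ Equiv.swap k k' = y := by
    funext a
    simp only [Function.comp, Equiv.swap_apply_def]
    split_ifs with h1 h2
    · rw [h1, h]
    · rw [h2, h]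
    · rfl
  rw [h2, Equiv.Perm.sign_swap hk] at h1
  have h3 : (2 : F) * Psi tr e y u = 0 := by
    simp only [Units.val_neg, Units.val_one, Int.cast_neg, Int.cast_one] at h1
    linear_combination h1
  exact (mul_eq_zero.mp h3).resolve_left two_ne_zero

theorem Psi_eq_zero_of_col (tr : B →ₗ[F] F) (e y : ρ → B) (u : ε → B) (k : ρ)
    (h : ∀ (g : ε → ρ) j, tr (e j * Ug u g k * y k) = 0) : Psi tr e y u = 0 :=
  Finset.sum_eq_zero fun g _ => Matrix.det_eq_zero_of_column_eq_zero k fun j => h g j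

theorem Psi_eq_zero_of_row [IsDomain F] (tr : B →ₗ[F] F) (e y : ρ → B) (u : ε → B) (ξ : ρ → F)
    (hξ : ξ ≠ 0) (h : ∀ (g : ε → ρ) k, ∑ j, ξ j * tr (e j * Ug u g k * y k) = 0) :
    Psi tr e y u = 0 :=
  Finset.sum_eq_zero fun g _ => Matrix.exists_vecMul_eq_zero_iff.mp
    ⟨ξ, hξ, funext fun k => by simpa [vecMul, dotProduct] using h g k⟩

theorem Psi_update (tr : B →ₗ[F] F) (e y : ρ → B) (u : ε → B) (l : ε) (p q : B) :
    ∃ α β : F, ∀ a b : F, Psi tr e y (Function.update u l (a • p + b • q)) = a * α + b * β := by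
  let M : (ε → ρ) → Matrix ρ ρ F := fun g => Matrix.of fun j k => tr (e j * Ug u g k * y k)
  let col : (ε → ρ) → B → ρ → F := fun g z j =>
    tr (e j * (z * ∏ l' ∈ (univ.filter fun l' => g l' = g l).erase l, u l') * y (g l))
  have key : ∀ g z, (Matrix.of fun j k => tr (e j * Ug (Function.update u l z) g k * y k)) =
      (M g).updateCol (g l) (col g z) := by
    intro g z
    ext j k
    rw [Matrix.updateCol_apply]
    split_ifs with hk
    · subst hk
      simp only [Matrix.of_apply, col, Ug]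
      rw [Finset.prod_update_of_mem (by simp), Finset.sdiff_singleton_eq_erase]
    · simp only [Matrix.of_apply, M, Ug]
      rw [Finset.prod_update_of_notMem (by simpa using fun h => hk h.symm)]
  refine ⟨∑ g, ((M g).updateCol (g l) (col g p)).det,
    ∑ g, ((M g).updateCol (g l) (col g q)).det, fun a b => ?_⟩
  rw [Psi, Finset.mul_sum, Finset.mul_sum, ← Finset.sum_add_distrib]
  refine Finset.sum_congr rfl fun g _ => ?_
  have : col g (a • p + b • q) = a • col g p + b • col g q := by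
    funext j
    simp [col, add_mul, mul_add]
  rw [key, this, Matrix.det_updateCol_add, Matrix.det_updateCol_smul, Matrix.det_updateCol_smul]

theorem Psi_map {F' B' : Type*} [CommRing F'] [CommRing B'] [Algebra F' B'] (tr : B →ₗ[F] F)
    (tr' : B' →ₗ[F'] F') (f : F →+* F') (j : B →+* B') (e y : ρ → B) (u : ε → B)
    (h : ∀ (g : ε → ρ) a k, tr' (j (e a * Ug u g k * y k)) = f (tr (e a * Ug u g k * y k))) :
    Psi tr' (j ∘ e) (j ∘ y) (j ∘ u) = f (Psi tr e y u) := by
  rw [Psi, Psi, map_sum]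
  refine Finset.sum_congr rfl fun g _ => ?_
  rw [RingHom.map_det]
  congr 1
  ext a k
  simp only [Matrix.of_apply, RingHom.mapMatrix_apply, Matrix.map_apply]
  rw [← h]
  simp only [map_mul, Ug, map_prod, Function.comp]

theorem count_lemma (deg c : ρ → ℕ) (n : ℕ) (hdeg : ∀ j, deg j ≤ n) (hs : ∑ k, c k = ∑ j, deg j)
    (j : ρ → ρ) (hj : ∀ k, c k ≤ n → deg (j k) = c k)
    (hinj : ∀ k k', c k ≤ n → c k' ≤ n → j k = j k' → k = k') (k : ρ) : c k ≤ n := by
  set S := univ.filter fun k => c k ≤ n with hS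
  have hinj' : Set.InjOn j S := fun a ha b hb hab =>
    hinj a b (by simpa [hS] using ha) (by simpa [hS] using hb) hab
  have h1 : ∑ k ∈ S, c k = ∑ a ∈ S.image j, deg a := by
    rw [Finset.sum_image hinj']
    exact Finset.sum_congr rfl fun k hk => (hj k (by simpa [hS] using hk)).symm
  have h2 : (S.image j)ᶜ.card = Sᶜ.card := by
    rw [Finset.card_compl, Finset.card_compl, Finset.card_image_of_injOn hinj']
  have h3 : ∑ a ∈ (S.image j)ᶜ, deg a ≤ Sᶜ.card * n := by
    rw [← h2, ← smul_eq_mul]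
    exact Finset.sum_le_card_nsmul _ _ _ fun a _ => hdeg a
  have h4 : Sᶜ.card * (n + 1) ≤ ∑ k ∈ Sᶜ, c k := by
    rw [← smul_eq_mul]
    exact Finset.card_nsmul_le_sum _ _ _ fun a ha => by
      have : ¬ c a ≤ n := by simpa [hS] using ha
      omega
  rw [← Finset.sum_add_sum_compl S, ← Finset.sum_add_sum_compl (S.image j)] at hs
  have h5 : Sᶜ.card = 0 := by
    rw [Nat.mul_succ] at h4
    omega
  by_contra hk
  have : k ∈ Sᶜ := by simpa [hS] using hk
  rw [Finset.card_eq_zero] at h5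
  simp [h5] at this

end Pool.Agent.Work.MP_ffcd14_ag
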