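import Pool.Agent.Work.MP_ffcd14_ag.Core
import Pool.Agent.Work.MP_ffcd14_ag.Mat

/-! # Numerical hard Lefschetz for real classes, and independence of the polarisation -/

open Matrix Finset Module TensorProduct

namespace Pool.Agent.Work.MP_ffcd14_ag

set_option linter.unusedSectionVars false

universe w

section Generic

variable {F B : Type*} [Field F] [CommRing B] [Algebra F B]

/-- The matrix `t (x i * y j * z)`. -/
def mat {I J : Type*} (t : B →ₗ[F] F) (x : I → B) (y : J → B) (z : B) : Matrix I J F :=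
  Matrix.of fun i j => t (x i * y j * z)

theorem mat_transpose {I J : Type*} (t : B →ₗ[F] F) (x : I → B) (y : J → B) (z : B) :
    (mat t x y z)ᵀ = mat t y x z := by
  ext i j; simp [mat, mul_comm]

theorem mat_mulVec {I J : Type*} [Fintype J] (t : B →ₗ[F] F) (x : I → B) (y : J → B) (z : B)
    (ξ : J → F) : mat t x y z *ᵥ ξ = fun i => t (x i * (∑ j, ξ j • y j) * z) := by
  ext i; simp [mat, mulVec, dotProduct, Finset.mul_sum, mul_comm]

theorem dot_mat {J : Type*} [Fintype J] (t : B →ₗ[F] F) (y : J → B) (z : B) (ξ : J → F) :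
    ξ ⬝ᵥ mat t y y z *ᵥ ξ = t ((∑ j, ξ j • y j) * (∑ j, ξ j • y j) * z) := by
  rw [mat_mulVec, mul_assoc, Finset.sum_mul]
  simp [dotProduct, mul_assoc]

/-- `e, e'` are dual numerical bases for the pair of subspaces `U, U'`. -/
structure IsNB {J : Type*} [Fintype J] [DecidableEq J] (t : B →ₗ[F] F) (U U' : Submodule F B)
    (e e' : J → B) : Prop where
  mem : ∀ j, e j ∈ U
  mem' : ∀ j, e' j ∈ U'
  dual : ∀ i j, t (e i * e' j) = if i = j then 1 else 0
  exp : ∀ x ∈ U, ∀ y ∈ U', t (x * y) = ∑ j, t (x * e' j) * t (e j * y)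

variable {J J' : Type*} [Fintype J] [DecidableEq J] [Fintype J'] [DecidableEq J']
  {t : B →ₗ[F] F} {U U' : Submodule F B} {e e' : J → B}

theorem IsNB.mul_lam (h : IsNB t U U' e e') {I : Type*} (x : I → B) (f : J' → B) (u z : B)
    (hf : ∀ a, f a * u ∈ U) (hx : ∀ i, x i * z ∈ U') :
    mat t x e z * mat t e' f u = mat t x f (z * u) := by
  ext i a
  have := h.exp _ (hf a) _ (hx i)
  simp only [mat, Matrix.mul_apply, Matrix.of_apply]
  rw [show x i * f a * (z * u) = f a * u * (x i * z) by ring, this]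
  refine Finset.sum_congr rfl fun j _ => ?_
  rw [mul_comm]
  congr 2 <;> ring

theorem IsNB.mulVec_coord (h : IsNB t U U' e e') {I : Type*} (x : I → B) (z : B)
    (hx : ∀ i, x i * z ∈ U') {α : B} (hα : α ∈ U) :
    mat t x e z *ᵥ (fun j => t (α * e' j)) = fun i => t (α * (x i * z)) := by
  ext i
  rw [h.exp _ hα _ (hx i)]
  simp only [mat, mulVec, dotProduct, Matrix.of_apply]
  refine Finset.sum_congr rfl fun j _ => ?_
  rw [mul_comm]
  congr 2; ring

theorem IsNB.det_ne_zero (h : IsNB t U U' e e') (z : B) (hz : ∀ x ∈ U, x * z ∈ U')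
    (H : ∀ x ∈ U, (∀ w ∈ U, t (x * w * z) = 0) → ∀ w ∈ U', t (x * w) = 0) :
    (mat t e e z).det ≠ 0 := by
  intro h0
  obtain ⟨ξ, hξ, hξ'⟩ := Matrix.exists_mulVec_eq_zero_iff.mpr h0
  rw [mat_mulVec] at hξ'
  have hm : ∑ j, ξ j • e j ∈ U := U.sum_mem fun j _ => U.smul_mem _ (h.mem j)
  have := H _ hm fun w hw => by
    rw [show (∑ j, ξ j • e j) * w * z = w * ((∑ j, ξ j • e j) * z) by ring,
      h.exp _ hw _ (hz _ hm)]
    refine Finset.sum_eq_zero fun j _ => ?_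
    rw [← mul_assoc, show t (e j * (∑ j, ξ j • e j) * z) = 0 from congrFun hξ' j, mul_zero]
  apply hξ
  funext k
  have h1 := this _ (h.mem' k)
  simpa [Finset.sum_mul, h.dual] using h1

end Generic

variable {K : Type*} {B : Type w} [Field K] [CharZero K] [CommRing B] [Algebra K B] [Algebra ℚ B]
  [IsScalarTower ℚ K B] [Module.Finite K B] (S : Base K B)

namespace Base

theorem exists_t : ∃ t : B →ₗ[ℚ] ℚ, ∀ c, ∀ x ∈ S.A c, (t x : K) = S.tr x := by
  obtain ⟨r, hr⟩ := LinearMap.exists_leftInverse_of_injective (Algebra.linearMap ℚ K)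
    (LinearMap.ker_eq_bot.mpr (algebraMap ℚ K).injective)
  refine ⟨r ∘ₗ S.tr.restrictScalars ℚ, fun c x hx => ?_⟩
  obtain ⟨q, hq⟩ := S.A_tr c x hx
  have := LinearMap.congr_fun hr q
  simp only [LinearMap.comp_apply, Algebra.linearMap_apply, eq_ratCast, LinearMap.id_apply] at this
  simp [hq, this]

/-- The rational trace. -/
noncomputable def t : B →ₗ[ℚ] ℚ := S.exists_t.choose

theorem t_cast {c : ℕ} {x : B} (hx : x ∈ S.A c) : (S.t x : K) = S.tr x :=
  S.exists_t.choose_spec c x hx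

theorem t_eq_zero_iff {c : ℕ} {x : B} (hx : x ∈ S.A c) : S.t x = 0 ↔ S.tr x = 0 := by
  rw [← S.t_cast hx, Rat.cast_eq_zero]

theorem t_A {i j : ℕ} {x y : B} (hx : x ∈ S.A i) (hy : y ∈ S.A j) (h : i + j ≠ S.d) :
    S.t (x * y) = 0 := (S.t_eq_zero_iff (S.A_mul _ _ _ hx _ hy)).mpr (S.tr_A hx hy h)

theorem exists_NB (c c' : ℕ) : ∃ (ρ : ℕ) (e e' : Fin ρ → B), IsNB S.t (S.A c) (S.A c') e e' := by
  obtain ⟨ρ, v, v', hv, hv', hd, hexp⟩ := exists_rank_fact
    ((LinearMap.mul ℚ B).compr₂ S.t) (S.A c) (S.A c') (finrank K B)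
    (fun ρ e e' he he' h => S.dual_bound ρ e e' fun i j => by
      rw [← S.t_cast (S.A_mul _ _ _ (he i) _ (he' j))]
      have := h i j
      simp only [LinearMap.compr₂_apply, LinearMap.mul_apply'] at this
      rw [this]; split_ifs <;> simp)
  exact ⟨ρ, v, v', hv, hv', by simpa using hd, by simpa using hexp⟩

theorem mul_pow_mem {u : B} (hu : u ∈ S.A 1) (p : ℕ) {c : ℕ} {x : B} (hx : x ∈ S.A c) :
    x * u ^ p ∈ S.A (c + p) := by
  simpa using S.mul_prod_mem (fun _ : Fin p => u) (fun _ => hu) Finset.univ hx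

/-- The real trace. -/
noncomputable def t' : ℝ ⊗[ℚ] B →ₗ[ℝ] ℝ :=
  (AlgebraTensorModule.rid ℚ ℝ ℝ).toLinearMap ∘ₗ S.t.baseChange ℝ

/-- The inclusion in the real algebra. -/
noncomputable def jj (B : Type w) [CommRing B] [Algebra ℚ B] : B →+* ℝ ⊗[ℚ] B :=
  (Algebra.TensorProduct.includeRight : B →ₐ[ℚ] ℝ ⊗[ℚ] B).toRingHom

theorem t'_jj (x : B) : S.t' (jj B x) = Rat.castHom ℝ (S.t x) := by
  simp [t', jj, Rat.smul_one_eq_cast]

theorem jj_smul (q : ℚ) (x : B) : jj B (q • x) = (q : ℝ) • jj B x := by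
  simp [jj, Rat.cast_smul_eq_qsmul]

/-- Real classes. -/
noncomputable def A' (c : ℕ) : Submodule ℝ (ℝ ⊗[ℚ] B) := Submodule.span ℝ (jj B '' S.A c)

theorem mem_A' {c : ℕ} {x : B} (hx : x ∈ S.A c) : jj B x ∈ S.A' c :=
  Submodule.subset_span ⟨x, hx, rfl⟩

theorem A'_ind {M : Type*} [AddCommGroup M] [Module ℝ M]
    (β : ℝ ⊗[ℚ] B →ₗ[ℝ] ℝ ⊗[ℚ] B →ₗ[ℝ] M) (T : Submodule ℝ M) {i j : ℕ}
    (h : ∀ x ∈ S.A i, ∀ y ∈ S.A j, β (jj B x) (jj B y) ∈ T) :
    ∀ x ∈ S.A' i, ∀ y ∈ S.A' j, β x y ∈ T := by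
  intro x hx y hy
  refine Submodule.span_induction₂ (p := fun x y _ _ => β x y ∈ T) ?_ ?_ ?_ ?_ ?_ ?_ ?_ hx hy
  · rintro _ _ ⟨x, hx, rfl⟩ ⟨y, hy, rfl⟩; exact h x hx y hy
  · simp
  · simp
  · intro x y z _ _ _ h1 h2; simpa using T.add_mem h1 h2
  · intro x y z _ _ _ h1 h2; simpa using T.add_mem h1 h2
  · intro r x y _ _ h1; simpa using T.smul_mem r h1
  · intro r x y _ _ h1; simpa using T.smul_mem r h1

theorem A'_mul {i j : ℕ} : ∀ x ∈ S.A' i, ∀ y ∈ S.A' j, x * y ∈ S.A' (i + j) :=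
  S.A'_ind (LinearMap.mul ℝ _) _ fun x hx y hy => by
    simpa [← map_mul] using S.mem_A' (S.A_mul _ _ _ hx _ hy)

theorem t'_A' {i j : ℕ} (h : i + j ≠ S.d) : ∀ x ∈ S.A' i, ∀ y ∈ S.A' j, S.t' (x * y) = 0 :=
  S.A'_ind ((LinearMap.mul ℝ _).compr₂ S.t') ⊥ fun x hx y hy => by
    simp [← map_mul, t'_jj, S.t_A hx hy h]

theorem exp' {J : Type*} [Fintype J] (e e' : J → B) {i j : ℕ}
    (h : ∀ x ∈ S.A i, ∀ y ∈ S.A j, S.t (x * y) = ∑ a, S.t (x * e' a) * S.t (e a * y)) :
    ∀ x ∈ S.A' i, ∀ y ∈ S.A' j,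
      S.t' (x * y) = ∑ a, S.t' (x * jj B (e' a)) * S.t' (jj B (e a) * y) := by
  intro x hx y hy
  have := S.A'_ind ((LinearMap.mul ℝ _).compr₂ S.t' - ∑ a, (LinearMap.mul ℝ ℝ).compl₁₂
    (S.t' ∘ₗ LinearMap.mulRight ℝ (jj B (e' a))) (S.t' ∘ₗ LinearMap.mulLeft ℝ (jj B (e a)))) ⊥
    (fun x hx y hy => by
      simp [← map_mul, t'_jj, h x hx y hy]) x hx y hy
  simpa [sub_eq_zero] using this

theorem NB' {J : Type*} [Fintype J] [DecidableEq J] {e e' : J → B} {i j : ℕ}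
    (h : IsNB S.t (S.A i) (S.A j) e e') :
    IsNB S.t' (S.A' i) (S.A' j) (jj B ∘ e) (jj B ∘ e') where
  mem a := S.mem_A' (h.mem a)
  mem' a := S.mem_A' (h.mem' a)
  dual a b := by
    simp only [Function.comp, ← map_mul, t'_jj, h.dual]
    split_ifs <;> simp
  exp := S.exp' e e' h.exp

theorem mul_pow_mem' {u : ℝ ⊗[ℚ] B} (hu : u ∈ S.A' 1) (p : ℕ) {c : ℕ} {x : ℝ ⊗[ℚ] B}
    (hx : x ∈ S.A' c) : x * u ^ p ∈ S.A' (c + p) := by
  induction p with
  | zero => simpa using hx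
  | succ p ih => rw [pow_succ, ← mul_assoc, ← add_assoc]; exact S.A'_mul _ ih _ hu

theorem mat_jj {I J : Type*} (x : I → B) (y : J → B) (z : B) :
    mat S.t' (jj B ∘ x) (jj B ∘ y) (jj B z) = (mat S.t x y z).map (Rat.castHom ℝ) := by
  ext i j
  simp only [mat, Function.comp, ← map_mul, t'_jj, Matrix.of_apply, Matrix.map_apply]

/-- The mixed hard Lefschetz property on all powers, for positive rational combinations of `l`
and `l'`. -/
def Power (l l' : B) : Prop :=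
  ∀ R : ℕ, ∃ (BR : Type w) (_ : CommRing BR) (_ : Algebra K BR) (π : Fin R → B →ₐ[K] BR)
    (trR : BR →ₗ[K] K), (∀ x : Fin R → B, trR (∏ k, π k (x k)) = ∏ k, S.tr (x k)) ∧
    ∀ (E m : ℕ) (a : Fin E → ℚ × ℚ), (∀ i, 0 < (a i).1 ∧ 0 < (a i).2) → 2 * m + E = R * S.d →
      ∀ w ∈ S.W π m, (∏ i, ∑ k, π k ((a i).1 • l + (a i).2 • l')) * w = 0 → w = 0

theorem exists_family (n : ℕ) (hn : n ≤ S.d) : ∃ (R : ℕ) (deg : Fin R → ℕ) (e e' : Fin R → B),
    (∀ j, deg j ≤ n) ∧ (∀ j, e j ∈ S.A (deg j)) ∧ (∀ j, e' j ∈ S.A (S.d - deg j)) ∧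
    (∀ i j, S.t (e i * e' j) = if i = j then 1 else 0) ∧
    ∀ c ≤ n, ∀ c', ∀ x ∈ S.A c, ∀ y ∈ S.A c',
      S.t (x * y) = ∑ j, S.t (x * e' j) * S.t (e j * y) := by
  classical
  choose ρ v v' hv using fun c : Fin (n + 1) => S.exists_NB c (S.d - c)
  let J := Σ c : Fin (n + 1), Fin (ρ c)
  let φ : Fin (Fintype.card J) ≃ J := (Fintype.equivFin J).symm
  refine ⟨Fintype.card J, fun j => (φ j).1, fun j => v (φ j).1 (φ j).2,
    fun j => v' (φ j).1 (φ j).2, fun j => Nat.lt_succ_iff.mp (φ j).1.2, fun j => (hv _).mem _,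
    fun j => (hv _).mem' _, fun i j => ?_, fun c hc c' x hx y hy => ?_⟩
  · have hdd : ∀ b b' : J, S.t (v b.1 b.2 * v' b'.1 b'.2) = if b = b' then 1 else 0 := by
      rintro ⟨c, i⟩ ⟨c', i'⟩
      by_cases h : c = c'
      · subst h
        rw [(hv c).dual]
        exact if_congr ⟨fun h => congrArg (Sigma.mk c) h, fun h => eq_of_heq (Sigma.mk.inj h).2⟩
          rfl rfl
      · rw [if_neg (fun h' => h (congrArg Sigma.fst h'))]
        refine S.t_A ((hv c).mem i) ((hv c').mem' i') ?_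
        have := Fin.val_ne_of_ne h
        omega
    rw [hdd]
    simp
  · rw [φ.sum_comp (fun b => S.t (x * v' b.1 b.2) * S.t (v b.1 b.2 * y)), Fintype.sum_sigma,
      Finset.sum_eq_single (⟨c, by omega⟩ : Fin (n + 1))]
    · by_cases h : c' = S.d - c
      · subst h
        exact (hv ⟨c, _⟩).exp x hx y hy
      · rw [S.t_A hx hy (by omega)]
        refine (Finset.sum_eq_zero fun i _ => ?_).symm
        rw [S.t_A ((hv _).mem i) hy (by simp only; omega), mul_zero]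
    · intro b _ hb
      refine Finset.sum_eq_zero fun i _ => ?_
      have : (b : ℕ) ≠ c := fun h => hb (Fin.ext h)
      rw [S.t_A hx ((hv _).mem' i) (by omega), zero_mul]
    · simp

/-- Numerical hard Lefschetz for real positive combinations of `l` and `l'`. -/
theorem real_HL (hV : ∀ c c', c + c' = S.d → finrank K (S.V c) = finrank K (S.V c'))
    {l l' : B} (hl : l ∈ S.A 1) (hl' : l' ∈ S.A 1) (hP : S.Power l l') {n E : ℕ}
    (hn : 2 * n + E = S.d) {x y : ℝ} (hx : 0 < x) (hy : 0 < y) :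
    ∀ z ∈ S.A' n, (∀ w ∈ S.A' n, S.t' (z * w * (x • jj B l + y • jj B l') ^ E) = 0) →
      ∀ w ∈ S.A' (n + E), S.t' (z * w) = 0 := by
  classical
  obtain ⟨R, deg, e, e', hdeg, he, he', hd, hexp⟩ := S.exists_family n (by omega)
  obtain ⟨BR, _, _, π, trR, htr, hinj⟩ := hP R
  have hle : 2 * ∑ j, deg j ≤ R * S.d := by
    have : ∑ j, deg j ≤ R * n := by
      simpa using Finset.sum_le_card_nsmul Finset.univ deg n fun j _ => hdeg j
    nlinarith
  obtain ⟨N, hN⟩ := Nat.exists_eq_add_of_le hle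
  let Φ : (Fin N → ℝ × ℝ) → ℝ := fun p =>
    Psi S.t' (jj B ∘ e) (jj B ∘ e) fun i => (p i).1 • jj B l + (p i).2 • jj B l'
  have hΦ : Φ (fun _ => (x, y)) ≠ 0 := by
    refine ne_zero_of_rat Φ (fun p i => ?_) (fun a ha => ?_) _ (fun _ => ⟨hx, hy⟩)
    · obtain ⟨α, β, h⟩ := Psi_update S.t' (jj B ∘ e) (jj B ∘ e)
        (fun i => (p i).1 • jj B l + (p i).2 • jj B l') i (jj B l) (jj B l')
      refine ⟨α, β, fun z => ?_⟩
      rw [← h]
      simp only [Φ]
      congr 1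
      funext i'
      by_cases hi : i' = i
      · subst hi; simp
      · simp [Function.update_of_ne hi]
    · let u : Fin N → B := fun i => (a i).1 • l + (a i).2 • l'
      have hu : ∀ i, u i ∈ S.A 1 := fun i =>
        (S.A 1).add_mem ((S.A 1).smul_mem _ hl) ((S.A 1).smul_mem _ hl')
      refine ⟨Psi S.t e e u, fun h0 => ?_, ?_⟩
      · refine S.Psi_ne_zero π trR htr hV n (by omega) deg hdeg e e' he' (fun i j => ?_) he
          (fun c hc z hz => ⟨fun j => S.t (z * e' j), fun j hj => ?_, fun c' w hw => ?_⟩) u hu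
          (by simp; omega) (hinj N _ a ha hN.symm) ?_
        · rw [← S.t_cast (S.A_mul _ _ _ (he i) _ (he' j)), hd]; split_ifs <;> simp
        · exact S.t_A hz (he' j) (by have := hdeg j; omega)
        · rw [sub_mul, map_sub, ← S.t_cast (S.A_mul _ _ _ hz _ hw), hexp c hc c' z hz w hw,
            Finset.sum_mul, map_sum, sub_eq_zero]
          push_cast
          refine Finset.sum_congr rfl fun j _ => ?_
          rw [smul_mul_assoc, LinearMap.map_smul_of_tower, S.t_cast (S.A_mul _ _ _ (he j) _ hw),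
            Rat.smul_def]
        · have := Psi_map S.t S.tr (Rat.castHom K) (RingHom.id B) e e u fun g a k =>
            (S.t_cast (S.A_mul _ _ _ (S.mul_prod_mem u hu _ (he a)) _ (he k))).symm
          rw [h0, map_zero] at this
          exact this
      · have := Psi_map S.t S.t' (Rat.castHom ℝ) (jj B) e e u fun g a k => S.t'_jj _
        refine Eq.trans ?_ this
        simp only [Φ]
        congr 1
        funext i
        simp [u, jj_smul]
  intro z hz H w hw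
  set u := x • jj B l + y • jj B l' with hu
  have hu1 : u ∈ S.A' 1 :=
    (S.A' 1).add_mem ((S.A' 1).smul_mem _ (S.mem_A' hl)) ((S.A' 1).smul_mem _ (S.mem_A' hl'))
  by_contra hne
  apply hΦ
  refine Psi_eq_zero_of_row _ _ _ _ (fun j => S.t' (z * jj B (e' j))) (fun h0 => hne ?_)
    fun g k => ?_
  · rw [S.exp' e e' (hexp n le_rfl _) z hz w hw]
    exact Finset.sum_eq_zero fun j _ => by rw [congrFun h0 j]; simp
  · simp only [Ug, Finset.prod_const, Function.comp, ← hu]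
    set p := (Finset.univ.filter fun l => g l = k).card
    have hm : jj B (e k) * u ^ p ∈ S.A' (deg k + p) := S.mul_pow_mem' hu1 p (S.mem_A' (he k))
    have := S.exp' e e' (hexp n le_rfl _) z hz _ hm
    simp only [mul_assoc, mul_comm (u ^ p)]
    rw [← this]
    by_cases hp : n + (deg k + p) = S.d
    · have h1 := H _ (by
        have := S.mul_pow_mem' hu1 (n - deg k) (S.mem_A' (he k))
        rwa [Nat.add_sub_cancel' (hdeg k)] at this)
      rw [← h1, mul_assoc, mul_assoc, ← pow_add]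
      congr 4
      have := hdeg k
      omega
    · exact S.t'_A' hp _ hz _ hm

end Base

end Pool.Agent.Work.MP_ffcd14_ag
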