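import Pool.Agent.Work.MP_ffcd14_ag.DefsL

/-! # Working form of the definitions (data and axioms separated) -/

open MvPolynomial Topology TopologicalSpace

namespace Pool.Agent.Work.MP_ffcd14_ag

universe u v w

variable {k : Type u} [Field k] {P Q : Amb}

/-- `W` is a transversal (hence smooth) section of `X` by a form of degree `a`. -/
def IsSec0 (W X : Var k P) (a : P.ι →₀ ℕ) : Prop :=
  W.dim + 1 = X.dim ∧ ∃ f, IsForm f a ∧ W.pts = {x ∈ X.pts | ev x f = 0} ∧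
    ∀ x ∈ W.pts, ∃ (κ : Type) (g : κ → MvPolynomial P.V k),
      LocEq X.pts x g ∧ LocEq W.pts x fun o : Option κ => o.elim f g

/-- The data of a cohomology theory with coefficients in `K`: graded algebras `H X`, pull-backs,
trace maps, cycle classes of irreducible closed subsets, and the class `hyp X i` of the hyperplane
bundle of the factor `i`. -/
structure Coh (k : Type u) (K : Type v) [Field k] [Field K] where
  H : ∀ {P : Amb}, Var k P → Type w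
  [ring : ∀ {P : Amb} (X : Var k P), Ring (H X)]
  [alg : ∀ {P : Amb} (X : Var k P), Algebra K (H X)]
  gr : ∀ {P : Amb} (X : Var k P), ℕ → Submodule K (H X)
  [graded : ∀ {P : Amb} (X : Var k P), GradedAlgebra (gr X)]
  pull : ∀ {P Q : Amb} {X : Var k P} {Y : Var k Q}, Hom X Y → H Y →ₐ[K] H X
  tr : ∀ {P : Amb} (X : Var k P), H X →ₗ[K] K
  cl : ∀ {P : Amb} (X : Var k P), IrreducibleCloseds X.pts → H X
  hyp : ∀ {P : Amb} (X : Var k P), P.ι → H X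

attribute [instance] Coh.ring Coh.alg Coh.graded

variable {K : Type v} [Field K] (C : Coh.{u, v, w} k K)

/-- The class of the line bundle `O(a)` restricted to `X`. -/
noncomputable def Coh.L (X : Var k P) (a : P.ι →₀ ℕ) : C.H X := a.sum fun i n => n • C.hyp X i

/-- Rational algebraic classes of codimension `c`. -/
def Coh.Alg (X : Var k P) (c : ℕ) : AddSubgroup (C.H X) :=
  AddSubgroup.closure {y | ∃ (q : ℚ) (Z : IrreducibleCloseds X.pts),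
    Order.coheight Z = c ∧ y = (q : K) • C.cl X Z}

/-- Axioms of a Weil cohomology theory with the weak and the hard Lefschetz property (Kleiman), or
immediate consequences of them. -/
structure Coh.IsWeil : Prop where
  fin : ∀ {P} (X : Var k P), Module.Finite K (C.H X)
  comm : ∀ {P} (X : Var k P) (i j : ℕ), ∀ x ∈ C.gr X i, ∀ y ∈ C.gr X j,
    x * y = (-1 : K) ^ (i * j) • (y * x)
  pull_gr : ∀ {P Q} {X : Var k P} {Y : Var k Q} (φ : Hom X Y) (i : ℕ), ∀ y ∈ C.gr Y i,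
    C.pull φ y ∈ C.gr X i
  pull_id : ∀ {P} {X : Var k P} (φ : Hom X X), (∀ x, φ.toFun x = x) → ∀ y, C.pull φ y = y
  pull_comp : ∀ {P Q S} {X : Var k P} {Y : Var k Q} {Z : Var k S} (φ : Hom X Y) (ψ : Hom Y Z)
    (χ : Hom X Z), (∀ x, χ.toFun x = ψ.toFun (φ.toFun x)) →
    ∀ z, C.pull χ z = C.pull φ (C.pull ψ z)
  tr_gr : ∀ {P} (X : Var k P) (i : ℕ), ∀ x ∈ C.gr X i, i ≠ 2 * X.dim → C.tr X x = 0
  duality : ∀ {P} (X : Var k P) (x : C.H X), (∀ y, C.tr X (x * y) = 0) → x = 0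
  tr_iso : ∀ {P Q} {X : Var k P} {Y : Var k Q} (φ : Hom X Y) (ψ : Hom Y X),
    (∀ x, ψ.toFun (φ.toFun x) = x) → (∀ y, φ.toFun (ψ.toFun y) = y) →
    ∀ y, C.tr X (C.pull φ y) = C.tr Y y
  tr_pi : ∀ {R : ℕ} {P : Fin R → Amb} (X : ∀ j, Var k (P j)) (Y : Var k (Amb.pi P))
    (p : ∀ j, Hom Y (X j)), Y.pts = {y | ∀ j, (fun i => y ⟨j, i⟩) ∈ (X j).pts} →
    (∀ j y i, ((p j).toFun y).1 i = y.1 ⟨j, i⟩) → ∀ x : ∀ j, C.H (X j),
    C.tr Y (List.ofFn fun j => C.pull (p j) (x j)).prod = ∏ j, C.tr (X j) (x j)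
  cl_tr : ∀ {P} {W X : Var k P} (j : Hom W X) (Z : IrreducibleCloseds X.pts),
    (∀ x, (j.toFun x).1 = x.1) → Set.range j.toFun = Z →
    ∀ x, C.tr X (C.cl X Z * x) = C.tr W (C.pull j x)
  alg_gr : ∀ {P} (X : Var k P) (c : ℕ), ∀ x ∈ C.Alg X c, x ∈ C.gr X (2 * c)
  alg_mul : ∀ {P} (X : Var k P) (c c' : ℕ), ∀ x ∈ C.Alg X c, ∀ y ∈ C.Alg X c',
    x * y ∈ C.Alg X (c + c')
  alg_pull : ∀ {P Q} {X : Var k P} {Y : Var k Q} (φ : Hom X Y) (c : ℕ), ∀ y ∈ C.Alg Y c,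
    C.pull φ y ∈ C.Alg X c
  alg_tr : ∀ {P} (X : Var k P) (c : ℕ), ∀ x ∈ C.Alg X c, ∃ q : ℚ, C.tr X x = q
  hyp_alg : ∀ {P} (X : Var k P) (i : P.ι), C.hyp X i ∈ C.Alg X 1
  hyp_pull : ∀ {P Q} {X : Var k P} {Y : Var k Q} (φ : Hom X Y) (j : Q.ι) (a : P.ι →₀ ℕ)
    (F : Q.σ j → MvPolynomial P.V k), (∀ s, IsForm (F s) a) →
    (∀ x, ∃ h, (φ.toFun x).1 j = Projectivization.mk k (fun s => ev x.1 (F s)) h) →
    C.pull φ (C.hyp Y j) = C.L X a
  sec_tr : ∀ {P} {W X : Var k P} (j : Hom W X) (a : P.ι →₀ ℕ), (∀ x, (j.toFun x).1 = x.1) →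
    IsSec0 W X a → ∀ x, C.tr X (C.L X a * x) = C.tr W (C.pull j x)
  weak_inj : ∀ {P} {W X : Var k P} (j : Hom W X) (a : P.ι →₀ ℕ), (∀ x, (j.toFun x).1 = x.1) →
    IsSec0 W X a → (∀ i, 0 < a i) → ∀ i < X.dim, ∀ x ∈ C.gr X i, C.pull j x = 0 → x = 0
  weak_surj : ∀ {P} {W X : Var k P} (j : Hom W X) (a : P.ι →₀ ℕ), (∀ x, (j.toFun x).1 = x.1) →
    IsSec0 W X a → (∀ i, 0 < a i) → ∀ i < W.dim, ∀ y ∈ C.gr W i, ∃ x ∈ C.gr X i, C.pull j x = y
  hard : ∀ {P} (X : Var k P) (a : P.ι →₀ ℕ), (∀ i, 0 < a i) → ∀ i e : ℕ, i + e = X.dim →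
    ∀ x ∈ C.gr X i, C.L X a ^ e * x = 0 → x = 0

/-- `l` is the class of an ample divisor: a positive multiple of it is the class of `O(a)`, all
`a i > 0`, for some embedding of `X` in a product of projective spaces. -/
def Coh.Ample (X : Var k P) (l : C.H X) : Prop :=
  ∃ (m : ℕ) (Q : Amb) (Y : Var k Q) (φ : Hom X Y) (ψ : Hom Y X) (a : Q.ι →₀ ℕ), 0 < m ∧
    Y.dim = X.dim ∧ (∀ x, ψ.toFun (φ.toFun x) = x) ∧ (∀ y, φ.toFun (ψ.toFun y) = y) ∧
    (∀ i, 0 < a i) ∧ m • l = C.pull φ (C.L Y a)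

variable {C}

/-- `x` is numerically trivial with respect to the classes `A`. -/
def Coh.Num0 {X : Var k P} (A : ℕ → AddSubgroup (C.H X)) (x : C.H X) : Prop :=
  ∀ c, ∀ y ∈ A c, C.tr X (x * y) = 0

/-- The conjecture `A(X, l)` of Lefschetz type: `l ^ (d - 2 i)` maps `A i` onto `A (d - i)`. -/
def Coh.LefA {X : Var k P} (A : ℕ → AddSubgroup (C.H X)) (l : C.H X) : Prop :=
  ∀ i e : ℕ, 2 * i + e = X.dim → ∀ y ∈ A (i + e), ∃ x ∈ A i, y = l ^ e * x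

/-- The standard conjecture of Hodge type in codimension `n`, modulo numerical equivalence:
`(-1) ^ n ∫ x x l ^ (d - 2 n) > 0` for `x` numerically primitive and numerically non-trivial. -/
def Coh.Hdg {X : Var k P} (A : ℕ → AddSubgroup (C.H X)) (l : C.H X) (n : ℕ) : Prop :=
  ∀ x ∈ A n, Coh.Num0 A (l ^ (X.dim - 2 * n + 1) * x) → ¬ Coh.Num0 A x →
    ∃ q : ℚ, 0 < q ∧ (-1) ^ n * C.tr X (x * x * l ^ (X.dim - 2 * n)) = q

end Pool.Agent.Work.MP_ffcd14_ag
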